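import Pool.Agent.H110.Defs

/-! Absolute neighbourhood retracts: neighbourhood retracts of Euclidean spaces, products,
open subsets, adding a point. -/

set_option autoImplicit false

namespace Pool.Agent.H110

open Set TopologicalSpace

variable {X : Type} [TopologicalSpace X] {Y : Type} [TopologicalSpace Y]

/-- A space `X` which embeds in Euclidean space as a retract of an open set. -/
theorem IsANR.of_retract {d : ℕ} (j : X → E d) (hj : Topology.IsEmbedding j) (O : Set (E d))
    (hO : IsOpen O) (hjO : ∀ x, j x ∈ O) (r : E d → X) (hr : ContinuousOn r O)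
    (hrj : ∀ x, r (j x) = x) : IsANR X := by
  refine ⟨hj.metrizableSpace, ?_⟩
  intro Z _ _ B hB f hf
  let f' : C(B, E d) := ⟨fun b => j (f b.1),
    hj.continuous.comp (continuousOn_iff_continuous_domRestrict.1 hf)⟩
  obtain ⟨F, hF⟩ := f'.exists_restrict_eq hB
  have hFB : ∀ b ∈ B, F b = j (f b) := fun b hb => by
    have := DFunLike.congr_fun hF ⟨b, hb⟩
    exact this
  refine ⟨F ⁻¹' O, fun z => r (F z), hO.preimage F.continuous, ?_, ?_, ?_⟩
  · intro b hb
    change F b ∈ O
    rw [hFB b hb]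
    exact hjO _
  · exact hr.comp F.continuous.continuousOn fun z hz => hz
  · intro b hb
    change r (F b) = f b
    rw [hFB b hb, hrj]

theorem IsANR.of_homeo (h : IsANR X) (e : X ≃ₜ Y) : IsANR Y := by
  have := h.1
  refine ⟨e.symm.isEmbedding.metrizableSpace, ?_⟩
  intro Z _ _ B hB f hf
  obtain ⟨U, g, hU, hBU, hg, hgf⟩ := h.2 Z B hB (fun z => e.symm (f z))
    (e.symm.continuous.comp_continuousOn hf)
  refine ⟨U, fun z => e (g z), hU, hBU, e.continuous.comp_continuousOn hg, ?_⟩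
  intro z hz
  change e (g z) = f z
  rw [hgf z hz, e.apply_symm_apply]

theorem IsANR.prod (hX : IsANR X) (hY : IsANR Y) : IsANR (X × Y) := by
  have := hX.1
  have := hY.1
  refine ⟨inferInstance, ?_⟩
  intro Z _ _ B hB f hf
  obtain ⟨U, g, hU, hBU, hg, hgf⟩ := hX.2 Z B hB (fun z => (f z).1)
    (continuous_fst.comp_continuousOn hf)
  obtain ⟨U', g', hU', hBU', hg', hgf'⟩ := hY.2 Z B hB (fun z => (f z).2)
    (continuous_snd.comp_continuousOn hf)
  refine ⟨U ∩ U', fun z => (g z, g' z), hU.inter hU', subset_inter hBU hBU', ?_, ?_⟩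
  · exact (hg.mono inter_subset_left).prodMk (hg'.mono inter_subset_right)
  · intro z hz
    exact Prod.ext (hgf z hz) (hgf' z hz)

theorem IsANR.opens (hX : IsANR X) {O : Set X} (hO : IsOpen O) : IsANR O := by
  classical
  have := hX.1
  refine ⟨inferInstance, ?_⟩
  intro Z _ _ B hB f hf
  obtain ⟨U, g, hU, hBU, hg, hgf⟩ := hX.2 Z B hB (fun z => (f z).1)
    (continuous_subtype_val.comp_continuousOn hf)
  refine ⟨U ∩ g ⁻¹' O, fun z => if h : g z ∈ O then ⟨g z, h⟩ else f z,
    hg.isOpen_inter_preimage hU hO, ?_, ?_, ?_⟩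
  · intro b hb
    refine ⟨hBU hb, ?_⟩
    change g b ∈ O
    rw [hgf b hb]
    exact (f b).2
  · rw [Topology.IsEmbedding.subtypeVal.isInducing.continuousOn_iff]
    refine (hg.mono inter_subset_left).congr ?_
    intro z hz
    have : g z ∈ O := hz.2
    simp [this]
  · intro b hb
    have h1 : g b ∈ O := by rw [hgf b hb]; exact (f b).2
    simp only [h1, dite_true]
    exact Subtype.ext (hgf b hb)

theorem IsANR.opens_isOpenEmbedding (hX : IsANR X) (e : Y → X) (he : Topology.IsOpenEmbedding e) :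
    IsANR Y :=
  (hX.opens he.isOpen_range).of_homeo he.isEmbedding.toHomeomorph.symm

/-- Adding a point to an absolute neighbourhood retract: if `Y ∖ {p}` is one and a
neighbourhood of `p` can be contracted to `p` by a homotopy of `Y` fixing `p`, then `Y` is one. -/
theorem IsANR.add_point [MetrizableSpace Y] (p : Y) (hY : IsANR ({p}ᶜ : Set Y))
    (c : C(Y × unitInterval, Y)) (c0 : ∀ y, c (y, 0) = y) (cp : ∀ t, c (p, t) = p)
    (V : Set Y) (hV : IsOpen V) (hpV : p ∈ V) (cV : ∀ y ∈ V, c (y, 1) = p) : IsANR Y := by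
  classical
  refine ⟨inferInstance, ?_⟩
  intro Z _ _ B hB f hf
  by_cases hall : ∀ b ∈ B, f b = p
  · exact ⟨univ, fun _ => p, isOpen_univ, subset_univ _, continuousOn_const,
      fun b hb => (hall b hb).symm⟩
  push Not at hall
  obtain ⟨b₁, hb₁, hfb₁⟩ := hall
  let B₀ : Set Z := B ∩ f ⁻¹' {p}
  have hB₀ : IsClosed B₀ := hf.preimage_isClosed_of_isClosed hB isClosed_singleton
  -- extension over the complement of `B₀`
  let Z₁ : Set Z := B₀ᶜ
  have hZ₁ : IsOpen Z₁ := hB₀.isOpen_compl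
  let f₁ : Z₁ → ({p}ᶜ : Set Y) := fun z =>
    if h : f z.1 = p then ⟨f b₁, hfb₁⟩ else ⟨f z.1, h⟩
  have hf₁ : ∀ z : Z₁, z.1 ∈ B → (f₁ z).1 = f z.1 := by
    intro z hz
    have h : f z.1 ≠ p := fun h => z.2 ⟨hz, h⟩
    simp [f₁, h]
  obtain ⟨U, g, hU, hBU, hg, hgf⟩ := hY.2 Z₁ {z : Z₁ | z.1 ∈ B}
    (hB.preimage continuous_subtype_val) f₁ (by
      rw [Topology.IsEmbedding.subtypeVal.isInducing.continuousOn_iff]
      refine ContinuousOn.congr (f := fun z : Z₁ => f z.1) ?_ (fun z hz => hf₁ z hz)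
      exact hf.comp continuous_subtype_val.continuousOn fun z hz => hz)
  let U₁ : Set Z := Subtype.val '' U
  have hU₁ : IsOpen U₁ := hZ₁.isOpenMap_subtype_val U hU
  let g₁ : Z → Y := fun z => if h : z ∈ Z₁ then (g ⟨z, h⟩).1 else p
  have hU₁Z : U₁ ⊆ Z₁ := by
    rintro _ ⟨z, _, rfl⟩
    exact z.2
  have hg₁ : ContinuousOn g₁ U₁ := by
    intro z hz
    obtain ⟨z, hz', rfl⟩ := hz
    apply ContinuousAt.continuousWithinAt
    have h1 : ContinuousAt (fun w : Z₁ => (g w).1) z :=
      continuous_subtype_val.continuousAt.comp (hg.continuousAt (hU.mem_nhds hz'))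
    have h2 : (fun w : Z₁ => (g w).1) = g₁ ∘ Subtype.val := by
      ext w
      simp [g₁, w.2]
    rw [h2] at h1
    exact (hZ₁.isOpenEmbedding_subtypeVal.continuousAt_iff).1 h1
  have hg₁f : ∀ b ∈ B, f b ≠ p → b ∈ U₁ ∧ g₁ b = f b := by
    intro b hb hbp
    have hbZ : b ∈ Z₁ := fun h => hbp h.2
    refine ⟨⟨⟨b, hbZ⟩, hBU hb, rfl⟩, ?_⟩
    have : g₁ b = (g ⟨b, hbZ⟩).1 := by simp [g₁, hbZ]
    rw [this, hgf _ hb, hf₁ _ hb]
  by_cases hne : B₀ = ∅
  · refine ⟨U₁, g₁, hU₁, ?_, hg₁, ?_⟩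
    · intro b hb
      refine (hg₁f b hb fun h => ?_).1
      have : b ∈ B₀ := ⟨hb, h⟩
      rw [hne] at this
      exact this
    · intro b hb
      refine (hg₁f b hb fun h => ?_).2
      have : b ∈ B₀ := ⟨hb, h⟩
      rw [hne] at this
      exact this
  rw [← ne_eq, ← nonempty_iff_ne_empty] at hne
  let _ := metrizableSpaceMetric Z
  let _ := metrizableSpaceMetric Y
  let U' : Set Z := ⋃ b ∈ {b ∈ B | f b ≠ p}, {z | z ∈ U₁ ∧
    dist z b < Metric.infDist z B₀ ∧ dist (g₁ z) (f b) < Metric.infDist z B₀}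
  have hU'o : IsOpen U' := by
    refine isOpen_biUnion fun b _ => ?_
    have h1 : {z | z ∈ U₁ ∧ dist z b < Metric.infDist z B₀ ∧
        dist (g₁ z) (f b) < Metric.infDist z B₀} =
        {z | dist z b < Metric.infDist z B₀} ∩
        (U₁ ∩ (fun z => Metric.infDist z B₀ - dist (g₁ z) (f b)) ⁻¹' Ioi 0) := by
      ext z
      simp only [mem_ofPred_eq, mem_inter_iff, mem_preimage, mem_Ioi, sub_pos]
      tauto
    rw [h1]
    refine (isOpen_lt (by fun_prop) (Metric.continuous_infDist_pt _)).inter ?_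
    refine ContinuousOn.isOpen_inter_preimage ?_ hU₁ isOpen_Ioi
    exact (Metric.continuous_infDist_pt _).continuousOn.sub
      (continuous_dist.comp_continuousOn (hg₁.prodMk continuousOn_const))
  have hU'U : U' ⊆ U₁ := by
    intro z hz
    simp only [U', mem_iUnion] at hz
    obtain ⟨b, _, hz⟩ := hz
    exact hz.1
  have hB₁U' : ∀ b ∈ B, f b ≠ p → b ∈ U' := by
    intro b hb hbp
    have hpos : 0 < Metric.infDist b B₀ := by
      rw [← hB₀.notMem_iff_infDist_pos hne]
      exact fun h => hbp h.2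
    simp only [U', mem_iUnion]
    refine ⟨b, ⟨hb, hbp⟩, (hg₁f b hb hbp).1, ?_, ?_⟩
    · rw [dist_self]; exact hpos
    · rw [(hg₁f b hb hbp).2, dist_self]; exact hpos
  have hconv : ∀ z₀ ∈ B₀, ∀ ε > 0, ∃ δ > 0, ∀ z ∈ U', dist z z₀ < δ → dist (g₁ z) p < ε := by
    intro z₀ hz₀ ε hε
    obtain ⟨δ₁, hδ₁, h1⟩ := Metric.continuousWithinAt_iff.1 (hf z₀ hz₀.1) (ε / 2) (half_pos hε)
    refine ⟨min (δ₁ / 2) (ε / 2), lt_min (half_pos hδ₁) (half_pos hε), ?_⟩
    intro z hz hzd
    simp only [U', mem_iUnion] at hz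
    obtain ⟨b, ⟨hb, _⟩, _, h2, h3⟩ := hz
    have h4 : Metric.infDist z B₀ ≤ dist z z₀ := Metric.infDist_le_dist_of_mem hz₀
    have h5 := hzd.trans_le (min_le_left _ _)
    have h6 := hzd.trans_le (min_le_right _ _)
    have h7 : dist b z₀ < δ₁ := by
      have := dist_triangle_left b z₀ z
      linarith
    have h8 := h1 hb h7
    have h9 : f z₀ = p := hz₀.2
    rw [h9] at h8
    have := dist_triangle (g₁ z) (f b) p
    linarith
  -- the cut off function
  let C : Set Z := U'ᶜ
  have hCB : ∀ z : Z₁, z.1 ∈ B → z.1 ∉ C := by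
    intro z hz hzC
    exact hzC (hB₁U' z.1 hz fun h => z.2 ⟨hz, h⟩)
  obtain ⟨l₀, hl0, hl1, _⟩ := exists_continuous_zero_one_of_isClosed
    (X := Z₁) (s := {z : Z₁ | z.1 ∈ B}) (t := {z : Z₁ | z.1 ∈ C})
    (hB.preimage continuous_subtype_val) (hU'o.isClosed_compl.preimage continuous_subtype_val)
    (by
      rw [Set.disjoint_left]
      exact fun z hz hzC => hCB z hz hzC)
  let l : Z → ℝ := fun z => if h : z ∈ Z₁ then 2 * l₀ ⟨z, h⟩ else 0
  have hl : ContinuousOn l Z₁ := by
    rw [continuousOn_iff_continuous_domRestrict]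
    have : Z₁.domRestrict l = fun z : Z₁ => 2 * l₀ z := by
      ext z
      simp [l, Set.domRestrict_apply, z.2]
    rw [this]
    fun_prop
  let τ : ℝ → unitInterval := fun x => projIcc 0 1 zero_le_one x
  have hτ : Continuous τ := continuous_projIcc
  let G : Z → Y := fun z => if z ∈ U' then c (g₁ z, τ (l z)) else p
  -- neighbourhood of `B₀` where `g₁` has values in `V`
  have hW : ∃ W : Set Z, IsOpen W ∧ B₀ ⊆ W ∧ ∀ z ∈ W, z ∈ U' → g₁ z ∈ V := by
    obtain ⟨ε, hε, hεV⟩ := Metric.isOpen_iff.1 hV p hpV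
    choose! δ hδ hδ' using fun z₀ (hz₀ : z₀ ∈ B₀) => hconv z₀ hz₀ ε hε
    refine ⟨⋃ z₀ ∈ B₀, Metric.ball z₀ (δ z₀), ?_, ?_, ?_⟩
    · exact isOpen_biUnion fun _ _ => Metric.isOpen_ball
    · intro z₀ hz₀
      simp only [mem_iUnion]
      exact ⟨z₀, hz₀, Metric.mem_ball_self (hδ z₀ hz₀)⟩
    · intro z hz hzU
      simp only [mem_iUnion] at hz
      obtain ⟨z₀, hz₀, hz⟩ := hz
      exact hεV (hδ' z₀ hz₀ z hzU hz)
  obtain ⟨W, hWo, hBW, hWV⟩ := hW
  refine ⟨W ∪ (Z₁ ∩ l ⁻¹' Iio 2), G, hWo.union (hl.isOpen_inter_preimage hZ₁ isOpen_Iio), ?_,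
    ?_, ?_⟩
  · intro b hb
    by_cases hbp : f b = p
    · exact Or.inl (hBW ⟨hb, hbp⟩)
    · right
      have hbZ : b ∈ Z₁ := fun h => hbp h.2
      refine ⟨hbZ, ?_⟩
      change l b < 2
      have h1 : l₀ ⟨b, hbZ⟩ = 0 := hl0 (show (⟨b, hbZ⟩ : Z₁) ∈ {z : Z₁ | z.1 ∈ B} from hb)
      have h2 : l b = 0 := by simp [l, hbZ, h1]
      rw [h2]; norm_num
  · intro z hz
    apply ContinuousAt.continuousWithinAt
    by_cases hzU : z ∈ U'
    · have h1 : ContinuousAt (fun z => c (g₁ z, τ (l z))) z := by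
        have h2 : ContinuousAt g₁ z := hg₁.continuousAt (hU₁.mem_nhds (hU'U hzU))
        have h3 : ContinuousAt l z := hl.continuousAt (hZ₁.mem_nhds (hU₁Z (hU'U hzU)))
        have h4 : ContinuousAt (fun z => (g₁ z, τ (l z))) z :=
          h2.prodMk (hτ.continuousAt.comp h3)
        exact ContinuousAt.comp (g := c) c.continuous.continuousAt h4
      refine h1.congr ?_
      filter_upwards [hU'o.mem_nhds hzU] with w hw
      simp [G, hw]
    · have hGz : G z = p := by simp [G, hzU]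
      by_cases hzB : z ∈ B₀
      · rw [ContinuousAt, hGz]
        rw [tendsto_nhds]
        intro S hS hpS
        -- tube lemma
        have h1 : ∃ V' : Set Y, IsOpen V' ∧ p ∈ V' ∧ ∀ y ∈ V', ∀ t, c (y, t) ∈ S := by
          obtain ⟨u, v, hu, _, hpu, hv, huv⟩ := generalized_tube_lemma (s := {p})
            isCompact_singleton (t := (univ : Set unitInterval)) isCompact_univ
            (n := c ⁻¹' S) (hS.preimage c.continuous) (by
              rintro ⟨y, t⟩ ⟨hy, _⟩
              rw [mem_singleton_iff] at hy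
              change c (y, t) ∈ S
              have hy' : y = p := hy
              rw [hy', cp]
              exact hpS)
          refine ⟨u, hu, hpu rfl, fun y hy t => ?_⟩
          exact huv (⟨hy, hv (mem_univ t)⟩ : (y, t) ∈ u ×ˢ v)
        obtain ⟨V', hV'o, hpV', hV'⟩ := h1
        obtain ⟨ε, hε, hεV⟩ := Metric.isOpen_iff.1 hV'o p hpV'
        obtain ⟨δ, hδ, hδ'⟩ := hconv z hzB ε hε
        filter_upwards [Metric.ball_mem_nhds z hδ] with w hw
        by_cases hwU : w ∈ U'
        · have : G w = c (g₁ w, τ (l w)) := by simp [G, hwU]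
          change G w ∈ S
          rw [this]
          exact hV' _ (hεV (hδ' w hwU hw)) _
        · have : G w = p := by simp [G, hwU]
          change G w ∈ S
          rw [this]
          exact hpS
      · -- `z` is in `C` and not in `B₀`
        have hzZ : z ∈ Z₁ := hzB
        have hlz : l z = 2 := by
          have h1 : l₀ ⟨z, hzZ⟩ = 1 := hl1 (show (⟨z, hzZ⟩ : Z₁) ∈ {z : Z₁ | z.1 ∈ C} from hzU)
          simp [l, hzZ, h1]
        have hzW : z ∈ W := by
          rcases hz with hz | hz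
          · exact hz
          · have : l z < 2 := hz.2
            rw [hlz] at this
            exact absurd this (lt_irrefl _)
        have h1 : ContinuousAt l z := hl.continuousAt (hZ₁.mem_nhds hzZ)
        have h2 : ∀ᶠ w in nhds z, 1 < l w := h1.eventually_const_lt (by rw [hlz]; norm_num)
        have h3 : (fun _ => p) =ᶠ[nhds z] G := by
          filter_upwards [h2, hWo.mem_nhds hzW] with w hw hwW
          by_cases hwU : w ∈ U'
          · have : G w = c (g₁ w, τ (l w)) := by simp [G, hwU]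
            rw [this]
            have h4 : τ (l w) = 1 := by
              apply projIcc_of_right_le
              exact hw.le
            rw [h4, cV _ (hWV w hwW hwU)]
          · have : G w = p := by simp [G, hwU]
            rw [this]
        exact continuousAt_const.congr h3
  · intro b hb
    by_cases hbp : f b = p
    · rw [hbp]
      have hbU : b ∉ U' := fun h => hU₁Z (hU'U h) ⟨hb, hbp⟩
      simp [G, hbU]
    · have hbU := hB₁U' b hb hbp
      have hbZ : b ∈ Z₁ := fun h => hbp h.2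
      have h1 : l₀ ⟨b, hbZ⟩ = 0 := hl0 (show (⟨b, hbZ⟩ : Z₁) ∈ {z : Z₁ | z.1 ∈ B} from hb)
      have h2 : l b = 0 := by simp [l, hbZ, h1]
      have h3 : G b = c (g₁ b, τ (l b)) := by simp [G, hbU]
      have h4 : τ 0 = 0 := projIcc_left _
      rw [h3, h2, h4, c0, (hg₁f b hb hbp).2]

end Pool.Agent.H110
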