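import Pool.Agent.H110.Euc

/-! Complements of arcs in three-space are acyclic (relative to a neighbourhood of infinity),
also after multiplication with an arbitrary space. -/

set_option autoImplicit false

namespace Pool.Agent.H110

open Set Finsupp

variable {X : Type} [TopologicalSpace X]

/-- the images of the simplices of a chain form a compact set -/
theorem exists_compact_support {n : ℕ} (d : Sing X n →₀ ℤ) {B : Set X} (hd : d ∈ chainsIn B n) :
    ∃ K : Set X, IsCompact K ∧ K ⊆ B ∧ ∀ C : Set X, K ⊆ C → d ∈ chainsIn C n := by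
  unfold chainsIn at *
  rw [Finsupp.mem_supported] at hd
  refine ⟨⋃ σ ∈ d.support, range σ, ?_, ?_, ?_⟩
  · apply Finset.isCompact_biUnion
    intro σ _
    exact isCompact_range σ.continuous
  · exact iUnion₂_subset fun σ hσ => hd hσ
  · intro C hC
    rw [Finsupp.mem_supported]
    intro σ hσ
    exact (subset_biUnion_of_mem (u := fun σ : Sing X n => range σ) hσ).trans hC

theorem PA_mv {U V A : Set X} (hU : IsOpen U) (hV : IsOpen V) (hA : A ⊆ U ∩ V)
    (h : PA (U ∪ V) A) (h1 : PA U A) (h2 : PA V A) : PA (U ∩ V) A := by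
  intro n z hz hzc
  exact mv_step hU hV hA h n z (h1 n z (chainsIn_mono inter_subset_left _ hz) hzc)
    (h2 n z (chainsIn_mono inter_subset_right _ hz) hzc)

/-- the exterior of the ball of radius two -/
def far : Set (E 3) := {x | 2 < ‖x‖}

/-- the complement of `K`, times `N` -/
def cp (N : Type) (K : Set (E 3)) : Set (E 3 × N) := Kᶜ ×ˢ univ

variable {N : Type} [TopologicalSpace N]

theorem cp_open {K : Set (E 3)} (hK : IsClosed K) : IsOpen (cp N K) :=
  hK.isOpen_compl.prod isOpen_univ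

omit [TopologicalSpace N] in
theorem cp_inter (K L : Set (E 3)) : cp N K ∩ cp N L = cp N (K ∪ L) := by
  ext ⟨x, n⟩
  simp [cp]

omit [TopologicalSpace N] in
theorem cp_union (K L : Set (E 3)) : cp N K ∪ cp N L = cp N (K ∩ L) := by
  ext ⟨x, n⟩
  simp only [cp, mem_union, mem_prod, mem_compl_iff, mem_univ, and_true, mem_inter_iff]
  tauto

omit [TopologicalSpace N] in
theorem cp_mono {K L : Set (E 3)} (h : K ⊆ L) : cp N L ⊆ cp N K :=
  prod_mono (compl_subset_compl.2 h) le_rfl

omit [TopologicalSpace N] in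
theorem far_sub_cp {K : Set (E 3)} (h : ∀ x ∈ K, ‖x‖ ≤ 2) :
    (far ×ˢ univ : Set (E 3 × N)) ⊆ cp N K :=
  prod_mono (fun x hx hK => not_lt.2 (h x hK) hx) le_rfl

theorem PA_point (k : E 3) (hk : ‖k‖ ≤ 2) :
    PA (cp N {k}) (far ×ˢ univ : Set (E 3 × N)) := by
  have hpos : ∀ x : E 3, x ≠ k → 0 < ‖x - k‖ := fun x hx => norm_pos_iff.2 (sub_ne_zero.2 hx)
  refine PA.of_homotopyOn (far_sub_cp (by simpa using hk))
    (fun p => (p.1.1 + (5 * (p.2 : ℝ) / ‖p.1.1 - k‖) • (p.1.1 - k), p.1.2)) ?_ ?_ ?_ ?_ ?_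
  · have h1 : ContinuousOn (fun p : (E 3 × N) × unitInterval => 5 * (p.2 : ℝ) / ‖p.1.1 - k‖)
        (cp N {k} ×ˢ univ) := by
      refine ContinuousOn.div (Continuous.continuousOn (by fun_prop))
        (Continuous.continuousOn (by fun_prop)) ?_
      rintro ⟨⟨x, n⟩, t⟩ hx
      exact (hpos x hx.1.1).ne'
    have h2 : Continuous fun p : (E 3 × N) × unitInterval => p.1.1 := by fun_prop
    have h3 : Continuous fun p : (E 3 × N) × unitInterval => p.1.1 - k := by fun_prop
    have h4 : Continuous fun p : (E 3 × N) × unitInterval => p.1.2 := by fun_prop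
    exact (h2.continuousOn.add (h1.smul h3.continuousOn)).prodMk h4.continuousOn
  · rintro ⟨x, n⟩ hx t
    have hx' := hpos x hx.1
    refine ⟨fun h => ?_, mem_univ _⟩
    have h1 : x + (5 * (t : ℝ) / ‖x - k‖) • (x - k) = k := h
    have h2 : (1 + 5 * (t : ℝ) / ‖x - k‖) • (x - k) = 0 := by
      rw [add_smul, one_smul]
      have : x - k + (5 * (t : ℝ) / ‖x - k‖) • (x - k) =
        x + (5 * (t : ℝ) / ‖x - k‖) • (x - k) - k := by abel
      rw [this, h1, sub_self]
    have ht := t.2.1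
    have h3 : 0 ≤ 5 * (t : ℝ) / ‖x - k‖ := by positivity
    rcases smul_eq_zero.1 h2 with h4 | h4
    · linarith
    · rw [h4, norm_zero] at hx'
      exact lt_irrefl _ hx'
  · rintro ⟨x, n⟩ _
    simp
  · rintro ⟨x, n⟩ hx t
    have hx2 : 2 < ‖x‖ := hx.1
    refine ⟨?_, mem_univ _⟩
    change 2 < ‖x + (5 * (t : ℝ) / ‖x - k‖) • (x - k)‖
    set c := 5 * (t : ℝ) / ‖x - k‖ with hc
    have ht := t.2.1
    have h3 : 0 ≤ c := by positivity
    have h4 : (1 + c) • x = (x + c • (x - k)) + c • k := by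
      rw [add_smul, one_smul, smul_sub]; abel
    have h5 : ‖(1 + c) • x‖ ≤ ‖x + c • (x - k)‖ + ‖c • k‖ := by
      rw [h4]; exact norm_add_le _ _
    rw [norm_smul, norm_smul, Real.norm_eq_abs, Real.norm_eq_abs, abs_of_nonneg h3,
      abs_of_nonneg (by linarith : (0 : ℝ) ≤ 1 + c)] at h5
    have h6 : c * ‖k‖ ≤ c * 2 := mul_le_mul_of_nonneg_left hk h3
    nlinarith
  · rintro ⟨x, n⟩ hx
    have hx' := hpos x hx.1
    refine ⟨?_, mem_univ _⟩
    change 2 < ‖x + (5 * ((1 : unitInterval) : ℝ) / ‖x - k‖) • (x - k)‖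
    have e1 : ((1 : unitInterval) : ℝ) = 1 := rfl
    rw [e1, mul_one]
    have h1 : x + (5 / ‖x - k‖) • (x - k) = (1 + 5 / ‖x - k‖) • (x - k) + k := by
      rw [add_smul, one_smul]; abel
    have h2 : ‖(1 + 5 / ‖x - k‖) • (x - k)‖ = ‖x - k‖ + 5 := by
      rw [norm_smul, Real.norm_eq_abs, abs_of_nonneg (by positivity)]
      field_simp
    have h3 : ‖(1 + 5 / ‖x - k‖) • (x - k)‖ ≤ ‖(1 + 5 / ‖x - k‖) • (x - k) + k‖ + ‖k‖ := by
      have := norm_sub_le ((1 + 5 / ‖x - k‖) • (x - k) + k) k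
      rwa [add_sub_cancel_right] at this
    rw [h1]
    linarith

/-- The complement of an arc is acyclic relative to the exterior of a ball. -/
theorem PA_arc (γ : unitInterval → E 3) (hc : Continuous γ) (hi : Function.Injective γ)
    (hb : ∀ t, ‖γ t‖ ≤ 2) : PA (cp N (range γ)) (far ×ˢ univ : Set (E 3 × N)) := by
  intro n z hz hzc
  have hbk : ∀ s : Set unitInterval, ∀ x ∈ γ '' s, ‖x‖ ≤ 2 := by
    rintro s _ ⟨t, _, rfl⟩
    exact hb t
  have hclosed : ∀ a b : unitInterval, IsClosed (γ '' Icc a b) := fun a b =>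
    (isCompact_Icc.image hc).isClosed
  let Good : unitInterval → unitInterval → Prop := fun a b =>
    ∃ d ∈ chainsIn (cp N (γ '' Icc a b)) (n + 1),
      z - bdry _ n d ∈ chainsIn (far ×ˢ univ : Set (E 3 × N)) n
  have h1 : ∀ t : unitInterval, ∃ O : Set unitInterval, IsOpen O ∧ t ∈ O ∧
      ∀ a b, Icc a b ⊆ O → Good a b := by
    intro t
    obtain ⟨d, hd, hd2⟩ := PA_point (N := N) (γ t) (hb t) n z
      (chainsIn_mono (cp_mono (by rintro _ rfl; exact mem_range_self t)) _ hz) hzc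
    obtain ⟨K, hK, hKB, hKC⟩ := exists_compact_support d hd
    have hK1 : IsCompact (Prod.fst '' K) := hK.image continuous_fst
    refine ⟨γ ⁻¹' (Prod.fst '' K)ᶜ, hK1.isClosed.isOpen_compl.preimage hc, ?_, ?_⟩
    · rintro ⟨⟨x, m⟩, hx, hxt⟩
      exact (hKB hx).1 hxt
    · intro a b hab
      refine ⟨d, hKC _ ?_, hd2⟩
      rintro ⟨x, m⟩ hx
      refine ⟨?_, mem_univ _⟩
      rintro ⟨s, hs, hsx⟩
      exact hab hs ⟨(x, m), hx, hsx.symm⟩
  have h2 : ∀ a b c : unitInterval, a ≤ b → b ≤ c → Good a b → Good b c → Good a c := by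
    intro a b c hab hbc g1 g2
    have hun : γ '' Icc a b ∪ γ '' Icc b c = γ '' Icc a c := by
      rw [← image_union, Icc_union_Icc_eq_Icc hab hbc]
    have hin : γ '' Icc a b ∩ γ '' Icc b c = {γ b} := by
      rw [← image_inter hi, Icc_inter_Icc_eq_singleton hab hbc, image_singleton]
    have := mv_step (cp_open (N := N) (hclosed a b)) (cp_open (hclosed b c))
      (by rw [cp_inter, hun]; exact far_sub_cp (hbk _))
      (by rw [cp_union, hin]; exact PA_point _ (hb b)) n z g1 g2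
    rw [cp_inter, hun] at this
    exact this
  choose O hO hOt hOG using h1
  obtain ⟨t, ht0, htm, ⟨m, hm⟩, ht⟩ := exists_monotone_Icc_subset_open_cover_unitInterval
    (c := O) hO (fun x _ => mem_iUnion.2 ⟨x, hOt x⟩)
  have h3 : ∀ j, Good 0 (t j) := by
    intro j
    induction j with
    | zero =>
      rw [ht0]
      apply hOG 0
      intro x hx
      rw [Icc_self, mem_singleton_iff] at hx
      rw [hx]
      exact hOt 0
    | succ j ih =>
      obtain ⟨i, hi⟩ := ht j
      exact h2 0 (t j) (t (j + 1)) (unitInterval.nonneg _) (htm (Nat.le_succ j)) ih (hOG i _ _ hi)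
  have h4 := h3 m
  rw [hm m le_rfl] at h4
  have h5 : γ '' Icc 0 1 = range γ := by
    rw [← image_univ]
    congr 1
    ext x
    simp [unitInterval.le_one']
  obtain ⟨d, hd, hd2⟩ := h4
  rw [h5] at hd
  exact ⟨d, hd, hd2⟩

end Pool.Agent.H110
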