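import Pool.Agent.H110.Defs

/-! General position: the disjoint disks property for smooth retracts and for products. -/

set_option autoImplicit false

namespace Pool.Agent.H110

open Set Filter Topology Module

/-- The disjoint disks property passes to products with an arbitrary factor. -/
theorem DDP.prod {X N : Type} [TopologicalSpace X] [TopologicalSpace N] (hN : DDP N) :
    DDP (X × N) := by
  rintro ⟨f, g⟩
  let f1 : C(Disk, X) := ⟨fun d => (f d).1, by fun_prop⟩
  let g1 : C(Disk, X) := ⟨fun d => (g d).1, by fun_prop⟩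
  let f2 : C(Disk, N) := ⟨fun d => (f d).2, by fun_prop⟩
  let g2 : C(Disk, N) := ⟨fun d => (g d).2, by fun_prop⟩
  have hc : ∀ h : C(Disk, X), Continuous fun a : C(Disk, N) =>
      (⟨fun d => (h d, a d), by fun_prop⟩ : C(Disk, X × N)) := by
    intro h
    apply ContinuousMap.continuous_of_continuous_uncurry
    change Continuous fun p : C(Disk, N) × Disk => (h p.2, p.1 p.2)
    fun_prop
  let Ψ : C(Disk, N) × C(Disk, N) → C(Disk, X × N) × C(Disk, X × N) := fun p =>
    (⟨fun d => (f1 d, p.1 d), by fun_prop⟩, ⟨fun d => (g1 d, p.2 d), by fun_prop⟩)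
  have hΨ : Continuous Ψ :=
    ((hc f1).comp continuous_fst).prodMk ((hc g1).comp continuous_snd)
  have h1 : Ψ (f2, g2) = (f, g) := rfl
  rw [← h1]
  refine map_mem_closure hΨ (hN (f2, g2)) ?_
  rintro ⟨a, b⟩ hab
  have hab' : Disjoint (range a) (range b) := hab
  change Disjoint (range fun d => (f1 d, a d)) (range fun d => (g1 d, b d))
  rw [Set.disjoint_left] at hab' ⊢
  rintro _ ⟨d, rfl⟩ ⟨e, he⟩
  have h2 : b e = a d := congrArg Prod.snd he
  exact hab' ⟨d, rfl⟩ ⟨e, h2⟩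

/-- retraction of the plane to the disk -/
noncomputable def toDisk : C(E 2, Disk) :=
  ⟨fun x => ⟨(max 1 ‖x‖)⁻¹ • x, by
    have h : 0 < max 1 ‖x‖ := lt_of_lt_of_le one_pos (le_max_left _ _)
    rw [mem_closedBall_zero_iff, norm_smul, norm_inv, Real.norm_eq_abs, abs_of_pos h,
      inv_mul_le_iff₀ h, mul_one]
    exact le_max_right _ _⟩, by
    have h : Continuous fun x : E 2 => max 1 ‖x‖ := by fun_prop
    exact ((h.inv₀ fun x => (lt_of_lt_of_le one_pos (le_max_left _ _)).ne').smul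
      continuous_id).subtype_mk _⟩

theorem toDisk_coe (d : Disk) : toDisk d.1 = d := by
  apply Subtype.ext
  change (max 1 ‖d.1‖)⁻¹ • d.1 = d.1
  have : ‖d.1‖ ≤ 1 := mem_closedBall_zero_iff.1 d.2
  rw [max_eq_left this, inv_one, one_smul]

variable {V : Type} [NormedAddCommGroup V] [NormedSpace ℝ V]

/-- smooth approximation -/
theorem exists_smooth (h : C(Disk, V)) {η : ℝ} (hη : 0 < η) :
    ∃ F : E 2 → V, ContDiff ℝ 1 F ∧ ∀ d : Disk, dist (F d.1) (h d) < η := by
  obtain ⟨g, hg⟩ := exists_contMDiffMap_forall_mem_convex_of_local_const (n := 1)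
    (I := modelWithCornersSelf ℝ (E 2)) (M := E 2) (F := V)
    (t := fun x => Metric.ball (h (toDisk x)) η) (fun x => convex_ball _ _) (by
      intro x
      refine ⟨h (toDisk x), ?_⟩
      have hc : Continuous fun y => dist (h (toDisk x)) (h (toDisk y)) := by fun_prop
      have h0 : dist (h (toDisk x)) (h (toDisk x)) < η := by rw [dist_self]; exact hη
      filter_upwards [(isOpen_lt hc continuous_const).mem_nhds h0] with y hy
      exact hy)
  refine ⟨g, contMDiff_iff_contDiff.1 g.contMDiff, fun d => ?_⟩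
  have := hg d.1
  rw [toDisk_coe] at this
  exact this

/-- General position: the disjoint disks property for a retract `X` of an open subset of a
vector space, if the fibres of the retraction have dimension less than `dim V - 4`. -/
theorem ddp_of_retract {X L : Type} [TopologicalSpace X] [FiniteDimensional ℝ V]
    [NormedAddCommGroup L] [NormedSpace ℝ L] [FiniteDimensional ℝ L] (ι : X → V)
    (hι : Continuous ι) (Ω : Set V) (hΩ : IsOpen Ω) (ρ : C(Ω, X)) (hιΩ : ∀ x, ι x ∈ Ω)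
    (hρ : ∀ x, ρ ⟨ι x, hιΩ x⟩ = x) (Γ : L × V → V) (hΓ : ContDiff ℝ 1 Γ)
    (hfib : ∀ v w : Ω, ρ v = ρ w → ∃ l, w.1 = Γ (l, v.1))
    (hdim : finrank ℝ L + 4 < finrank ℝ V) : DDP X := by
  rintro ⟨f, g⟩
  let f' : C(Disk, Ω) := ⟨fun d => ⟨ι (f d), hιΩ _⟩, by fun_prop⟩
  let g' : C(Disk, Ω) := ⟨fun d => ⟨ι (g d), hιΩ _⟩, by fun_prop⟩
  let Φ : C(Disk, Ω) × C(Disk, Ω) → C(Disk, X) × C(Disk, X) := fun p =>
    (ρ.comp p.1, ρ.comp p.2)
  have hΦ : Continuous Φ :=
    ((ContinuousMap.continuous_postcomp ρ).comp continuous_fst).prodMk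
      ((ContinuousMap.continuous_postcomp ρ).comp continuous_snd)
  have h1 : Φ (f', g') = (f, g) := by
    refine Prod.ext ?_ ?_
    · ext d
      exact hρ (f d)
    · ext d
      exact hρ (g d)
  rw [← h1]
  let S' : Set (C(Disk, Ω) × C(Disk, Ω)) := Φ ⁻¹' {p | Disjoint (range p.1) (range p.2)}
  refine map_mem_closure (s := S') hΦ ?_ (fun q hq => hq)
  rw [Metric.mem_closure_iff]
  intro ε hε
  obtain ⟨ε₁, hε₁, hthick⟩ := IsCompact.exists_thickening_subset_open
    (s := range (fun d => ι (f d)) ∪ range (fun d => ι (g d))) (t := Ω)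
    ((isCompact_range (hι.comp f.continuous)).union (isCompact_range (hι.comp g.continuous))) hΩ
    (by
      rintro _ (⟨d, rfl⟩ | ⟨d, rfl⟩)
      · exact hιΩ _
      · exact hιΩ _)
  have hball : ∀ d : Disk, (∀ v, dist v (ι (f d)) < ε₁ → v ∈ Ω) ∧
      (∀ v, dist v (ι (g d)) < ε₁ → v ∈ Ω) := by
    intro d
    constructor
    · intro v hv
      apply hthick
      rw [Metric.mem_thickening_iff]
      exact ⟨_, Or.inl ⟨d, rfl⟩, hv⟩
    · intro v hv
      apply hthick
      rw [Metric.mem_thickening_iff]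
      exact ⟨_, Or.inr ⟨d, rfl⟩, hv⟩
  obtain ⟨η, hη, hη1, hη2⟩ : ∃ η > 0, 2 * η ≤ ε ∧ 2 * η ≤ ε₁ := by
    refine ⟨min ε ε₁ / 2, by positivity, ?_, ?_⟩
    · have := min_le_left ε ε₁; linarith
    · have := min_le_right ε ε₁; linarith
  obtain ⟨F, hF, hFf⟩ := exists_smooth (⟨fun d => ι (f d), by fun_prop⟩ : C(Disk, V)) hη
  obtain ⟨G, hG, hGg⟩ := exists_smooth (⟨fun d => ι (g d), by fun_prop⟩ : C(Disk, V)) hη
  have hψ : ContDiff ℝ 1 fun p : L × E 2 × E 2 => Γ (p.1, F p.2.1) - G p.2.2 := by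
    refine ContDiff.sub (hΓ.comp (contDiff_fst.prodMk (hF.comp ?_))) (hG.comp ?_)
    · exact contDiff_fst.comp contDiff_snd
    · exact contDiff_snd.comp contDiff_snd
  have hdense := hψ.dense_compl_range_of_finrank_lt_finrank (by
    rw [finrank_prod, finrank_prod, finrank_euclideanSpace_fin]
    omega)
  obtain ⟨c, hc, hcη⟩ := hdense.exists_dist_lt 0 hη
  have hcη' : ‖c‖ < η := by rwa [dist_zero_left] at hcη
  have hFΩ : ∀ d : Disk, F d.1 ∈ Ω := fun d => (hball d).1 _ (by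
    have := hFf d
    change dist (F d.1) (ι (f d)) < η at this
    linarith)
  have hGd : ∀ d : Disk, dist (G d.1 + c) (ι (g d)) < 2 * η := by
    intro d
    have h2 : dist (G d.1) (ι (g d)) < η := hGg d
    have h3 : dist (G d.1 + c) (G d.1) = ‖c‖ := by rw [dist_eq_norm, add_sub_cancel_left]
    have h4 := dist_triangle (G d.1 + c) (G d.1) (ι (g d))
    linarith
  have hGΩ : ∀ d : Disk, G d.1 + c ∈ Ω := fun d => (hball d).2 _ (by
    have := hGd d
    linarith)
  have hFc := hF.continuous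
  have hGc := hG.continuous
  let a : C(Disk, Ω) := ⟨fun d => ⟨F d.1, hFΩ d⟩, by fun_prop⟩
  let b : C(Disk, Ω) := ⟨fun d => ⟨G d.1 + c, hGΩ d⟩, by fun_prop⟩
  refine ⟨(a, b), ?_, ?_⟩
  · change Disjoint (range fun d => ρ (a d)) (range fun d => ρ (b d))
    rw [Set.disjoint_left]
    rintro _ ⟨d, rfl⟩ ⟨e, he⟩
    obtain ⟨l, hl⟩ := hfib (a d) (b e) he.symm
    apply hc
    refine ⟨(l, d.1, e.1), ?_⟩
    change Γ (l, F d.1) - G e.1 = c
    have hl' : G e.1 + c = Γ (l, F d.1) := hl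
    rw [← hl', add_sub_cancel_left]
  · rw [Prod.dist_eq]
    refine max_lt ?_ ?_
    · rw [ContinuousMap.dist_lt_iff hε]
      intro d
      rw [dist_comm]
      have : dist (F d.1) (ι (f d)) < η := hFf d
      change dist (F d.1) (ι (f d)) < ε
      linarith
    · rw [ContinuousMap.dist_lt_iff hε]
      intro d
      rw [dist_comm]
      have := hGd d
      change dist (G d.1 + c) (ι (g d)) < ε
      linarith

/-- normalisation -/
noncomputable def nrm (n : ℕ) : C(({0}ᶜ : Set (E (n + 1))), Sph n) :=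
  ⟨fun x => ⟨‖x.1‖⁻¹ • x.1, by
    rw [mem_sphere_zero_iff_norm, norm_smul, norm_inv, norm_norm,
      inv_mul_cancel₀ (norm_ne_zero_iff.2 x.2)]⟩, by
    have h : Continuous fun x : ({0}ᶜ : Set (E (n + 1))) => ‖x.1‖ := by fun_prop
    exact ((h.inv₀ fun x => norm_ne_zero_iff.2 x.2).smul continuous_subtype_val).subtype_mk _⟩

theorem sph_ne {n : ℕ} (x : Sph n) : (x : E (n + 1)) ≠ 0 := by
  intro h
  have h1 := x.2
  rw [h, mem_sphere_zero_iff_norm, norm_zero] at h1
  exact zero_ne_one h1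

theorem nrm_coe {n : ℕ} (x : Sph n) : nrm n ⟨x.1, sph_ne x⟩ = x := by
  apply Subtype.ext
  change ‖x.1‖⁻¹ • x.1 = x.1
  have h1 : ‖x.1‖ = 1 := mem_sphere_zero_iff_norm.1 x.2
  rw [h1, inv_one, one_smul]

theorem nrm_fib {n : ℕ} {v w : ({0}ᶜ : Set (E (n + 1)))} (h : nrm n v = nrm n w) :
    w.1 = (‖w.1‖ * ‖v.1‖⁻¹) • v.1 := by
  have h1 : ‖v.1‖⁻¹ • v.1 = ‖w.1‖⁻¹ • w.1 := congrArg Subtype.val h
  have hw : ‖w.1‖ ≠ 0 := norm_ne_zero_iff.2 w.2
  rw [mul_smul, h1, smul_smul, mul_inv_cancel₀ hw, one_smul]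

/-- spheres of dimension at least five have the disjoint disks property -/
theorem ddp_sph {n : ℕ} (hn : 5 ≤ n) : DDP (Sph n) := by
  refine ddp_of_retract (V := E (n + 1)) (L := ℝ) (fun x => x.1) continuous_subtype_val {0}ᶜ
    isOpen_compl_singleton (nrm n) sph_ne nrm_coe (fun p => p.1 • p.2)
    (contDiff_fst.smul contDiff_snd) ?_ ?_
  · intro v w h
    exact ⟨_, nrm_fib h⟩
  · rw [finrank_self, finrank_euclideanSpace_fin]
    omega

/-- products of two spheres -/
theorem ddp_sph_prod {n : ℕ} (hn : 3 ≤ n) : DDP (Sph 2 × Sph n) := by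
  let Ω : Set (E 3 × E (n + 1)) := {0}ᶜ ×ˢ {0}ᶜ
  refine ddp_of_retract (V := E 3 × E (n + 1)) (L := ℝ × ℝ) (fun x => (x.1.1, x.2.1))
    (by fun_prop) Ω (isOpen_compl_singleton.prod isOpen_compl_singleton)
    ⟨fun p => (nrm 2 ⟨p.1.1, p.2.1⟩, nrm n ⟨p.1.2, p.2.2⟩), by fun_prop⟩
    (fun x => ⟨sph_ne x.1, sph_ne x.2⟩) (fun x => Prod.ext (nrm_coe x.1) (nrm_coe x.2))
    (fun p => (p.1.1 • p.2.1, p.1.2 • p.2.2)) ?_ ?_ ?_
  · fun_prop
  · intro v w h
    have h1 := nrm_fib (congrArg Prod.fst h)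
    have h2 := nrm_fib (congrArg Prod.snd h)
    exact ⟨(_, _), Prod.ext h1 h2⟩
  · simp only [finrank_prod, finrank_self, finrank_euclideanSpace_fin]
    omega

/-- products of an open subset of three-space with a sphere -/
theorem ddp_open_sph {n : ℕ} (hn : 3 ≤ n) (O : Set (E 3)) (hO : IsOpen O) : DDP (O × Sph n) := by
  let Ω : Set (E 3 × E (n + 1)) := O ×ˢ {0}ᶜ
  refine ddp_of_retract (V := E 3 × E (n + 1)) (L := ℝ) (fun x => (x.1.1, x.2.1))
    (by fun_prop) Ω (hO.prod isOpen_compl_singleton)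
    ⟨fun p => (⟨p.1.1, p.2.1⟩, nrm n ⟨p.1.2, p.2.2⟩), by fun_prop⟩
    (fun x => ⟨x.1.2, sph_ne x.2⟩) (fun x => Prod.ext rfl (nrm_coe x.2))
    (fun p => (p.2.1, p.1 • p.2.2)) ?_ ?_ ?_
  · fun_prop
  · intro v w h
    have h1 : v.1.1 = w.1.1 := congrArg (fun q => (q.1.1 : E 3)) h
    have h2 := nrm_fib (congrArg Prod.snd h)
    exact ⟨_, Prod.ext h1.symm h2⟩
  · simp only [finrank_prod, finrank_self, finrank_euclideanSpace_fin]
    omega

/-- the disjoint disks property is invariant under homeomorphisms -/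
theorem DDP.of_homeo {X Y : Type} [TopologicalSpace X] [TopologicalSpace Y] (h : DDP X)
    (e : X ≃ₜ Y) : DDP Y := by
  rintro ⟨f, g⟩
  let e' : C(X, Y) := ⟨e, e.continuous⟩
  let e'' : C(Y, X) := ⟨e.symm, e.symm.continuous⟩
  let Φ : C(Disk, X) × C(Disk, X) → C(Disk, Y) × C(Disk, Y) := fun p =>
    (e'.comp p.1, e'.comp p.2)
  have hΦ : Continuous Φ :=
    ((ContinuousMap.continuous_postcomp e').comp continuous_fst).prodMk
      ((ContinuousMap.continuous_postcomp e').comp continuous_snd)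
  have h1 : Φ (e''.comp f, e''.comp g) = (f, g) := by
    refine Prod.ext ?_ ?_
    · ext d
      exact e.apply_symm_apply (f d)
    · ext d
      exact e.apply_symm_apply (g d)
  rw [← h1]
  refine map_mem_closure hΦ (h (e''.comp f, e''.comp g)) ?_
  rintro ⟨a, b⟩ hab
  have hab' : Disjoint (range a) (range b) := hab
  change Disjoint (range fun d => e (a d)) (range fun d => e (b d))
  rw [Set.disjoint_left] at hab' ⊢
  rintro _ ⟨d, rfl⟩ ⟨c, hc⟩
  exact hab' ⟨d, rfl⟩ ⟨c, e.injective hc⟩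

end Pool.Agent.H110
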