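import Mathlib

/-! # Definitions: absolute neighbourhood retracts, local homology, homology manifolds,
the disjoint disks property, cell-like maps, simple homotopy equivalences of compact absolute
neighbourhood retracts, s-cobordisms

The definitions follow the wording of the problem file. -/

set_option autoImplicit false

namespace Pool.Agent.H110

open Set

/-- Euclidean `n`-space. -/
abbrev E (n : ℕ) : Type := EuclideanSpace ℝ (Fin n)

/-- The unit sphere of dimension `n` in Euclidean `(n+1)`-space. -/
abbrev Sph (n : ℕ) : Type := Metric.sphere (0 : E (n + 1)) 1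

/-- The closed half-space `{x | 0 ≤ x₀}` of dimension `n + 1`. -/
abbrev Half (n : ℕ) : Type := {x : E (n + 1) // 0 ≤ x 0}

/-- The closed unit disk in the plane. -/
abbrev Disk : Type := Metric.closedBall (0 : E 2) 1

/-! ### Singular homology of pairs -/

/-- Singular `n`-simplices. -/
abbrev Sing (X : Type) [TopologicalSpace X] (n : ℕ) : Type := C(stdSimplex ℝ (Fin (n + 1)), X)

/-- The `i`-th face of a singular simplex. -/
noncomputable def sface {X : Type} [TopologicalSpace X] (n : ℕ) (i : Fin (n + 2))
    (σ : Sing X (n + 1)) : Sing X n :=
  σ.comp ⟨stdSimplex.map i.succAbove, stdSimplex.continuous_map _⟩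

/-- The boundary operator of the singular chain complex with integer coefficients. -/
noncomputable def bdry (X : Type) [TopologicalSpace X] (n : ℕ) :
    (Sing X (n + 1) →₀ ℤ) →ₗ[ℤ] (Sing X n →₀ ℤ) :=
  ∑ i : Fin (n + 2), ((-1 : ℤ) ^ (i : ℕ)) • Finsupp.lmapDomain ℤ ℤ (sface n i)

/-- The singular chains of `X` all of whose simplices lie in the subset `A`. -/
def chainsIn {X : Type} [TopologicalSpace X] (A : Set X) (n : ℕ) : Submodule ℤ (Sing X n →₀ ℤ) :=
  Finsupp.supported ℤ ℤ {σ : Sing X n | range σ ⊆ A}

/-- The relative cycles of the pair `(X, A)`: chains whose boundary lies in `A`. -/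
noncomputable def relCyc {X : Type} [TopologicalSpace X] (A : Set X) :
    ∀ n : ℕ, Submodule ℤ (Sing X n →₀ ℤ)
  | 0 => ⊤
  | (n + 1) => (chainsIn A n).comap (bdry X n)

/-- The relative boundaries of the pair `(X, A)`: boundaries plus chains in `A`. -/
noncomputable def relBdy {X : Type} [TopologicalSpace X] (A : Set X) (n : ℕ) :
    Submodule ℤ (Sing X n →₀ ℤ) :=
  LinearMap.range (bdry X n) ⊔ chainsIn A n

/-- The relative singular homology group `H_n(X, A; ℤ)`. -/
abbrev RelHomology (X : Type) [TopologicalSpace X] (A : Set X) (n : ℕ) : Type :=
  relCyc A n ⧸ (relBdy A n).submoduleOf (relCyc A n)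

/-- The local homology `H_n(X, X ∖ {x}; ℤ)` of `X` at `x`. -/
abbrev LocalHomology (X : Type) [TopologicalSpace X] (x : X) (n : ℕ) : Type :=
  RelHomology X {x}ᶜ n

/-- `H_*(X, X ∖ {x}; ℤ) ≅ H_*(Y, Y ∖ {y}; ℤ)`. -/
def SameLocalHomology (X : Type) [TopologicalSpace X] (x : X) (Y : Type) [TopologicalSpace Y]
    (y : Y) : Prop :=
  ∀ n : ℕ, Nonempty (LocalHomology X x n ≃ₗ[ℤ] LocalHomology Y y n)

/-! ### Absolute neighbourhood retracts, homology manifolds -/

/-- `X` is an absolute neighbourhood retract (for metrizable spaces), in the form of the
neighbourhood extension property: `X` is metrizable and every continuous map from a closed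
subset `B` of a metrizable space `Z` to `X` extends over a neighbourhood of `B`. -/
def IsANR (X : Type) [TopologicalSpace X] : Prop :=
  TopologicalSpace.MetrizableSpace X ∧
    ∀ (Z : Type) [TopologicalSpace Z] [TopologicalSpace.MetrizableSpace Z] (B : Set Z)
      (_ : IsClosed B) (f : Z → X) (_ : ContinuousOn f B),
      ∃ (U : Set Z) (g : Z → X), IsOpen U ∧ B ⊆ U ∧ ContinuousOn g U ∧ ∀ x ∈ B, g x = f x

/-- A finite-dimensional separable metrizable space: a space which embeds in a Euclidean space.
(By the Menger-Nöbeling theorem this is equivalent to being separable, metrizable and of finite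
covering dimension.) -/
def FinDimSepMetrizable (X : Type) [TopologicalSpace X] : Prop :=
  ∃ (d : ℕ) (e : X → E d), Topology.IsEmbedding e

/-- ANR homology `n`-manifold (without boundary). -/
structure IsHomologyManifold (n : ℕ) (X : Type) [TopologicalSpace X] : Prop where
  locallyCompact : LocallyCompactSpace X
  finDim : FinDimSepMetrizable X
  anr : IsANR X
  localHomology : ∀ x : X, SameLocalHomology X x (E n) 0

/-- The disjoint disks property: any two maps of the disk to `X` can be approximated
(in the compact-open topology, that is uniformly, for any metric) by maps with disjoint images. -/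
def DDP (X : Type) [TopologicalSpace X] : Prop :=
  Dense {p : C(Disk, X) × C(Disk, X) | Disjoint (range p.1) (range p.2)}

/-- A closed nonlocally linear `n`-manifold: a compact ANR homology `n`-manifold, `n ≥ 5`, with
the disjoint disks property. -/
structure IsClosedNLLManifold (n : ℕ) (X : Type) [TopologicalSpace X] : Prop where
  dim : 5 ≤ n
  compact : CompactSpace X
  manifold : IsHomologyManifold n X
  ddp : DDP X

/-! ### Simple homotopy equivalences of compact ANRs -/

/-- A space of trivial shape (for compact metrizable spaces): it is nonempty and every map to an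
absolute neighbourhood retract is homotopic to a constant map. -/
def TrivialShape (K : Type) [TopologicalSpace K] : Prop :=
  Nonempty K ∧ ∀ (P : Type) [TopologicalSpace P], IsANR P → ∀ f : C(K, P), f.Nullhomotopic

/-- Cell-like maps between compact spaces: all point preimages have trivial shape. -/
def IsCellLike {Z X : Type} [TopologicalSpace Z] [TopologicalSpace X] (f : C(Z, X)) : Prop :=
  ∀ x : X, TrivialShape (f ⁻¹' {x} : Set Z)

/-- A map `f : X → Y` between compact ANRs is a simple homotopy equivalence: it is a homotopy
equivalence, and there are a compact ANR `Z` and cell-like maps `a : Z → X`, `b : Z → Y` such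
that `f ∘ a` is homotopic to `b`. (By the theorems of Chapman, West and Edwards the second
condition says exactly that the Whitehead torsion of `f` vanishes: cell-like maps between
compact ANRs have zero torsion, and if `f` has zero torsion then `f × id` is homotopic to a
homeomorphism `h` after multiplication with the Hilbert cube, so that one can take for `Z` the
product of `X` with the Hilbert cube.) -/
structure IsSimpleHomotopyEquiv {X Y : Type} [TopologicalSpace X] [TopologicalSpace Y]
    (f : C(X, Y)) : Prop where
  equiv : ∃ g : C(Y, X), (g.comp f).Homotopic (ContinuousMap.id X) ∧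
    (f.comp g).Homotopic (ContinuousMap.id Y)
  simple : ∃ (Z : Type) (_ : TopologicalSpace Z), CompactSpace Z ∧ IsANR Z ∧
    ∃ (a : C(Z, X)) (b : C(Z, Y)), IsCellLike a ∧ IsCellLike b ∧ (f.comp a).Homotopic b

/-! ### s-cobordisms -/

/-- `W` is an s-cobordism between the closed nonlocally linear `n`-manifolds `M₀` and `M₁`,
exactly as the problem file defines it: `W` is a compact ANR homology `(n+1)`-manifold with
boundary `i₀(M₀) ⊔ i₁(M₁)` (Euclidean local homology at interior points, half-space local homology
at boundary points), its interior has the disjoint disks property, and both inclusions are simple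
homotopy equivalences. -/
structure IsSCobordism (n : ℕ) {M₀ M₁ W : Type} [TopologicalSpace M₀] [TopologicalSpace M₁]
    [TopologicalSpace W] (i₀ : C(M₀, W)) (i₁ : C(M₁, W)) : Prop where
  bottom : IsClosedNLLManifold n M₀
  top : IsClosedNLLManifold n M₁
  compact : CompactSpace W
  finDim : FinDimSepMetrizable W
  anr : IsANR W
  inj₀ : Function.Injective i₀
  inj₁ : Function.Injective i₁
  disjoint : Disjoint (range i₀) (range i₁)
  interior : ∀ w : W, w ∉ range i₀ ∪ range i₁ → SameLocalHomology W w (E (n + 1)) 0
  boundary : ∀ w : W, w ∈ range i₀ ∪ range i₁ →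
    SameLocalHomology W w (Half n) ⟨0, le_rfl⟩
  ddp : DDP ((range i₀ ∪ range i₁)ᶜ : Set W)
  simple₀ : IsSimpleHomotopyEquiv i₀
  simple₁ : IsSimpleHomotopyEquiv i₁

/-- `i : M → W` is collared (for compact Hausdorff `M` and `W`): it extends to an injective
continuous map, hence an embedding, of `M × [0,1]` for which the image of `M × [0,1)` is open. -/
def IsCollared {M W : Type} [TopologicalSpace M] [TopologicalSpace W] (i : C(M, W)) : Prop :=
  ∃ c : C(M × unitInterval, W), Function.Injective c ∧ (∀ x, c (x, 0) = i x) ∧
    IsOpen (c '' {p | p.2 ≠ 1})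

end Pool.Agent.H110
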