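import Pool.Agent.H110.WildArc
import Pool.Agent.H110.Defs

/-! A loop around the wild arc does not bound a disk in the complement. -/

set_option autoImplicit false

namespace Pool.Agent.H110

open Set Filter Topology
open Pool.Agent.Helper607.Wild

/-- the wild arc of the library -/
abbrev warc : Set R3 := wildArc Tab.path

theorem path_bound (n : ℤ) : |(Tab.path n).2.1| ≤ 15 ∧ |(Tab.path n).2.2| ≤ 15 := by
  by_cases h : n ≤ -13 ∨ 25 ≤ n
  · obtain ⟨a, b⟩ := pathData.box n h
    exact ⟨a.trans (by norm_num), b.trans (by norm_num)⟩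
  · push Not at h
    by_cases h0 : n ≤ 0
    · rw [pathData.vertR n (by omega) h0]
      refine ⟨by norm_num, ?_⟩
      change |(-15 - n : ℤ)| ≤ 15
      rw [abs_le]; omega
    · by_cases h1 : n ≤ 12
      · rw [pathData.floor n (by omega) h1]
        exact ⟨by norm_num, by norm_num⟩
      · rw [pathData.vertL n (by omega) (by omega)]
        refine ⟨by norm_num, ?_⟩
        change |(n - 27 : ℤ)| ≤ 15
        rw [abs_le]; omega

theorem warc_bounds {x : R3} (hx : x ∈ warc) :
    (x = (9, 0, 0) ∨ (-9 ≤ x.1 ∧ x.1 < 9)) ∧ |x.2.1| ≤ 15 ∧ |x.2.2| ≤ 15 := by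
  rcases hx with ⟨h9, n, θ, h0, h1, hp⟩ | hx | hx
  · have hx : x = hmap (lift x) := (hmap_lift x h9).symm
    rw [cast_dir] at hp
    obtain ⟨a1, a2⟩ := path_bound n
    obtain ⟨b1, b2⟩ := path_bound (n + 1)
    have a1' : |((Tab.path n).2.1 : ℝ)| ≤ 15 := by exact_mod_cast a1
    have a2' : |((Tab.path n).2.2 : ℝ)| ≤ 15 := by exact_mod_cast a2
    have b1' : |((Tab.path (n + 1)).2.1 : ℝ)| ≤ 15 := by exact_mod_cast b1
    have b2' : |((Tab.path (n + 1)).2.2 : ℝ)| ≤ 15 := by exact_mod_cast b2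
    have hle : ∀ y : ℝ, |(mu (lift x).1)⁻¹ * y| ≤ |y| := by
      intro y
      rw [abs_mul, abs_of_pos (inv_pos.2 (mu_pos _))]
      have h2 : (mu (lift x).1)⁻¹ ≤ 1 := inv_le_one_of_one_le₀ (mu_ge _)
      have := abs_nonneg y
      nlinarith
    have e1 : x.2.1 = (mu (lift x).1)⁻¹ * (lift x).2.1 := congrArg (fun q : R3 => q.2.1) hx
    have e2 : x.2.2 = (mu (lift x).1)⁻¹ * (lift x).2.2 := congrArg (fun q : R3 => q.2.2) hx
    rw [abs_lt] at h9
    refine ⟨Or.inr ⟨h9.1.le, h9.2⟩, ?_, ?_⟩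
    · rw [e1]
      refine (hle _).trans ?_
      rw [hp]
      exact convex_abs h0 h1 a1' b1'
    · rw [e2]
      refine (hle _).trans ?_
      rw [hp]
      exact convex_abs h0 h1 a2' b2'
  · rw [hx]
    exact ⟨Or.inl rfl, by norm_num, by norm_num⟩
  · rw [hx]
    exact ⟨Or.inr ⟨by norm_num, by norm_num⟩, by norm_num, by norm_num⟩

theorem warc_floor {x : R3} (hx : x ∈ warc) (h0 : x.1 = 0) (hz : x.2.2 ≤ -13) :
    x.2.1 = 0 ∧ x.2.2 = -15 := by
  rcases hx with ⟨_, n, θ, ht0, ht1, hp⟩ | hx | hx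
  · rw [lift_eq (by rw [h0]; norm_num), cast_dir] at hp
    have e0 := congrArg (fun q : R3 => q.1) hp
    have e1 := congrArg (fun q : R3 => q.2.1) hp
    have e2 := congrArg (fun q : R3 => q.2.2) hp
    simp only at e0 e1 e2
    by_cases hn : n ≤ -14 ∨ 25 ≤ n
    · exfalso
      obtain ⟨_, a⟩ := pathData.box n (by omega)
      obtain ⟨_, b⟩ := pathData.box (n + 1) (by omega)
      have a' : |((Tab.path n).2.2 : ℝ)| ≤ 3 := by exact_mod_cast a
      have b' : |((Tab.path (n + 1)).2.2 : ℝ)| ≤ 3 := by exact_mod_cast b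
      have := convex_abs ht0 ht1 a' b'
      rw [← e2, abs_le] at this
      linarith
    · push Not at hn
      by_cases h1 : n ≤ -1
      · exfalso
        rw [pathData.vertR n (by omega) (by omega), pathData.vertR (n + 1) (by omega) (by omega),
          h0] at e0
        norm_num at e0
      · by_cases h2 : n ≤ 11
        · rw [pathData.floor n (by omega) (by omega),
            pathData.floor (n + 1) (by omega) (by omega)] at e1 e2
          rw [e1, e2]
          norm_num
        · exfalso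
          rw [pathData.vertL n (by omega) (by omega),
            pathData.vertL (n + 1) (by omega) (by omega), h0] at e0
          norm_num at e0
  · exfalso
    rw [hx] at h0
    norm_num at h0
  · exfalso
    rw [hx] at h0
    norm_num at h0

/-- the flat disk whose boundary is the loop around the floor of the wild arc -/
noncomputable def loopR (z : E 2) : R3 := (0, 3 / 2 * z 0, -15 + 3 / 2 * z 1)

theorem continuous_loopR : Continuous loopR := by
  unfold loopR
  fun_prop

theorem loopR_not_mem {z : E 2} (hz : ‖z‖ = 1) : loopR z ∉ warc := by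
  intro h
  have hs : z 0 ^ 2 + z 1 ^ 2 = 1 := by
    have := EuclideanSpace.norm_sq_eq z
    rw [hz, Fin.sum_univ_two] at this
    simpa using this.symm
  obtain ⟨h1, h2⟩ := warc_floor h rfl (by
    change -15 + 3 / 2 * z 1 ≤ -13
    nlinarith [sq_nonneg (z 0), sq_nonneg (z 1 - 1)])
  have h3 : z 0 = 0 := by
    change 3 / 2 * z 0 = 0 at h1
    linarith
  have h4 : z 1 = 0 := by
    change -15 + 3 / 2 * z 1 = -15 at h2
    linarith
  rw [h3, h4] at hs
  norm_num at hs

/-- locally constant functions on an interval -/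
theorem const_of_loc {G : Type} (φ : ℝ → G) (a b : ℝ) (hab : a ≤ b)
    (h : ∀ x ∈ Icc a b, ∀ᶠ y in 𝓝 x, φ y = φ x) : φ a = φ b := by
  let tG : TopologicalSpace G := ⊥
  have hdG : DiscreteTopology G := ⟨rfl⟩
  have hc : ContinuousOn φ (Icc a b) := by
    intro x hx
    apply ContinuousAt.continuousWithinAt
    have : (fun _ => φ x) =ᶠ[𝓝 x] φ := by
      filter_upwards [h x hx] with y hy
      exact hy.symm
    exact continuousAt_const.congr this
  exact isPreconnected_Icc.constant_of_mapsTo (T := univ) IsDiscrete.univ hc (mapsTo_univ _ _)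
    (left_mem_Icc.2 hab) (right_mem_Icc.2 hab)

/-- the loop is covered by the hole chart and the outside chart -/
theorem loop_hole {c s : ℝ} (h : c ^ 2 + s ^ 2 = 1) (hs : 0 < s) :
    ((0 : ℝ), 3 / 2 * c, -15 + 3 / 2 * s) ∈ Whole := by
  refine ⟨by norm_num, ?_, ?_, ?_⟩
  · change |3 / 2 * c| < 2
    rw [abs_lt]
    constructor <;> nlinarith
  · change -15 < -15 + 3 / 2 * s
    linarith
  · change -15 + 3 / 2 * s < -3
    nlinarith

theorem loop_out {c s : ℝ} (h : c ^ 2 + s ^ 2 = 1) (hs : s ≤ 3 / 5) :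
    ((0 : ℝ), 3 / 2 * c, -15 + 3 / 2 * s) ∈ Wout := by
  refine ⟨?_, ?_⟩
  · rintro ⟨_, _, h3⟩
    have h4 : nu 0 ≤ 1 := nu_le_one 0
    have h5 : |-15 + 3 / 2 * s| ≤ 7 / 2 * nu 0 := h3
    rw [abs_le] at h5
    linarith [h5.1]
  · rintro ⟨_, h2, h3, _⟩
    have h2' : |3 / 2 * c| ≤ 1 := h2
    have h3' : -16 ≤ -15 + 3 / 2 * s := h3
    rw [abs_le] at h2'
    have h6 : -(2 / 3) ≤ s := by linarith
    have h7 : c ^ 2 ≤ 4 / 9 := by nlinarith
    have h8 : s ^ 2 ≤ 4 / 9 := by nlinarith
    linarith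

/-- the unit circle -/
noncomputable def circ (θ : ℝ) : E 2 := !₂[Real.cos θ, Real.sin θ]

theorem circ_norm (θ : ℝ) : ‖circ θ‖ = 1 := by
  rw [EuclideanSpace.norm_eq, Fin.sum_univ_two]
  simp [circ]

theorem continuous_circ : Continuous circ := by
  unfold circ
  fun_prop

/-- The loop does not extend over the plane in the complement of the arc. -/
theorem no_ext : ¬ ∃ F : E 2 → R3, Continuous F ∧ (∀ z, F z ∉ warc) ∧
    ∀ z, ‖z‖ = 1 → F z = loopR z := by
  rintro ⟨F, hF, hFw, hFl⟩
  let C : Cyc (E 2) (Equiv.Perm (ZMod 5)) (Z3 ⊕ Bool) :=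
    { W := fun i => F ⁻¹' lab.W i
      c := fun i j y => lab.c i j (F y)
      isOpen_W := fun i => (lab.isOpen_W i).preimage hF
      loc := fun i j y hy => (hF.tendsto y).eventually (lab.loc_c i j (F y) hy)
      cocycle := fun i j k y hi hj hk => lab.cocycle_c i j k (F y) hi hj hk }
  obtain ⟨t, ht⟩ := exists_triv C (fun x => lab.cover Tab.path_step path_inj (F x) (hFw x))
  have hcs : ∀ θ, Real.cos θ ^ 2 + Real.sin θ ^ 2 = 1 := fun θ => by
    rw [add_comm]; exact Real.sin_sq_add_cos_sq θ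
  have hFc : ∀ θ, F (circ θ) = ((0 : ℝ), 3 / 2 * Real.cos θ, -15 + 3 / 2 * Real.sin θ) := by
    intro θ
    rw [hFl _ (circ_norm θ)]
    simp [loopR, circ]
  have hole : ∀ θ, 0 < Real.sin θ → circ θ ∈ C.W (Sum.inr false) := by
    intro θ h
    change F (circ θ) ∈ Whole
    rw [hFc]
    exact loop_hole (hcs θ) h
  have out : ∀ θ, Real.sin θ ≤ 3 / 5 → circ θ ∈ C.W (Sum.inr true) := by
    intro θ h
    change F (circ θ) ∈ Wout
    rw [hFc]
    exact loop_out (hcs θ) h
  have hloc : ∀ i θ, circ θ ∈ C.W i → ∀ᶠ r in 𝓝 θ, t i (circ r) = t i (circ θ) := by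
    intro i θ h
    have := ht.loc i (circ θ) ⟨mem_univ _, h⟩
    rw [nhdsWithin_univ] at this
    exact (continuous_circ.tendsto θ).eventually this
  obtain ⟨a, ha1, ha2, has⟩ : ∃ a : ℝ, 0 ≤ a ∧ a ≤ Real.pi / 2 ∧ Real.sin a = 3 / 5 := by
    refine ⟨Real.arcsin (3 / 5), Real.arcsin_nonneg.2 (by norm_num), Real.arcsin_le_pi_div_two _,
      Real.sin_arcsin (by norm_num) (by norm_num)⟩
  have hpi := Real.pi_pos
  have hca : Real.cos a = 4 / 5 := by
    have h1 : 0 ≤ Real.cos a := Real.cos_nonneg_of_mem_Icc ⟨by linarith, ha2⟩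
    have h2 := hcs a
    rw [has] at h2
    nlinarith
  have mono : ∀ x y : ℝ, -(Real.pi / 2) ≤ x → x ≤ y → y ≤ Real.pi / 2 →
      Real.sin x ≤ Real.sin y := fun x y h1 h2 h3 => Real.sin_le_sin_of_le_of_le_pi_div_two h1 h3 h2
  have e1 : t (Sum.inr false) (circ a) = t (Sum.inr false) (circ (Real.pi - a)) := by
    refine const_of_loc (fun θ => t (Sum.inr false) (circ θ)) a (Real.pi - a) (by linarith) ?_
    intro θ hθ
    apply hloc
    apply hole
    have : (3 / 5 : ℝ) ≤ Real.sin θ := by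
      rw [← has]
      rcases le_total θ (Real.pi / 2) with h | h
      · exact mono a θ (by linarith) hθ.1 h
      · rw [← Real.sin_pi_sub θ]
        exact mono a _ (by linarith) (by linarith [hθ.2]) (by linarith)
    linarith
  have e2 : t (Sum.inr true) (circ (Real.pi - a)) = t (Sum.inr true) (circ (2 * Real.pi + a)) := by
    refine const_of_loc (fun θ => t (Sum.inr true) (circ θ)) (Real.pi - a) (2 * Real.pi + a)
      (by linarith) ?_
    intro θ hθ
    apply hloc
    apply out
    rw [← has]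
    rcases le_total θ (3 * Real.pi / 2) with h | h
    · rw [← Real.sin_pi_sub θ]
      exact mono _ a (by linarith) (by linarith [hθ.1]) ha2
    · rw [← Real.sin_sub_two_pi θ]
      exact mono _ a (by linarith) (by linarith [hθ.2]) ha2
  have e3 : circ (2 * Real.pi + a) = circ a := by
    unfold circ
    rw [add_comm, Real.cos_add_two_pi, Real.sin_add_two_pi]
  rw [e3] at e2
  have ha_out := out a has.le
  have ha_hole := hole a (by rw [has]; norm_num)
  have hb_out := out (Real.pi - a) (by rw [Real.sin_pi_sub, has])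
  have hb_hole := hole (Real.pi - a) (by rw [Real.sin_pi_sub, has]; norm_num)
  have c1 := ht.compat (Sum.inr true) (Sum.inr false) (circ a) (mem_univ _) ha_out ha_hole
  have c2 := ht.compat (Sum.inr true) (Sum.inr false) (circ (Real.pi - a)) (mem_univ _) hb_out
    hb_hole
  have d1 : C.c (Sum.inr true) (Sum.inr false) (circ a) = 1 := by
    change (if 0 < (F (circ a)).2.1 then (1 : Equiv.Perm (ZMod 5)) else
      (Equiv.addRight 1)⁻¹) = 1
    rw [if_pos]
    rw [hFc, hca]
    norm_num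
  have d2 : C.c (Sum.inr true) (Sum.inr false) (circ (Real.pi - a)) = (Equiv.addRight 1)⁻¹ := by
    change (if 0 < (F (circ (Real.pi - a))).2.1 then (1 : Equiv.Perm (ZMod 5)) else
      (Equiv.addRight 1)⁻¹) = _
    rw [if_neg]
    rw [hFc, Real.cos_pi_sub, hca]
    norm_num
  rw [d1, one_mul] at c1
  rw [d2, ← e1, c1, e2] at c2
  have c3 : (Equiv.addRight (1 : ZMod 5))⁻¹ = 1 := by
    have := congrArg (fun g => g * (t (Sum.inr true) (circ a))⁻¹) c2
    simpa using this.symm
  have c4 : Equiv.addRight (1 : ZMod 5) = 1 := inv_eq_one.1 c3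
  have c5 := Equiv.congr_fun c4 0
  change (0 : ZMod 5) + 1 = 0 at c5
  revert c5
  decide

end Pool.Agent.H110
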