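import Pool.Agent.H110.Maps
import Pool.Agent.H110.Gp
import Pool.Agent.H110.WildLoop

/-! The s-cobordism with wild boundary. -/

set_option autoImplicit false

namespace Pool.Agent.H110

open Set Filter Topology
open Pool.Agent.Helper607.Wild (R3)

variable {γ : unitInterval → E 3} {N : Type} [TopologicalSpace N]

/-- the open annulus minus the arc -/
def OO (γ : unitInterval → E 3) : Set (E 3) := {x | (1 < ‖x‖ ∧ ‖x‖ < 2) ∧ x ∉ range γ}

theorem isOpen_OO (hγ : IsArc γ) : IsOpen (OO γ) :=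
  ((isOpen_lt continuous_const continuous_norm).inter
    (isOpen_lt continuous_norm continuous_const)).inter
    (isCompact_range hγ.cont).isClosed.isOpen_compl

/-- the inclusion of the open annulus minus the arc in the closed annulus minus the arc -/
def toOff (γ : unitInterval → E 3) : C(OO γ, offArc γ) :=
  ⟨fun x => ⟨⟨x.1, x.2.1.1.le, x.2.1.2.le⟩, x.2.2⟩, by fun_prop⟩

theorem isOpenEmbedding_toOff : IsOpenEmbedding (toOff γ) := by
  refine ⟨IsEmbedding.of_comp (g := fun y : offArc γ => y.1.1) (toOff γ).continuous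
    (by fun_prop) IsEmbedding.subtypeVal, ?_⟩
  have : range (toOff γ) = {y : offArc γ | 1 < ‖y.1.1‖ ∧ ‖y.1.1‖ < 2} := by
    ext y
    constructor
    · rintro ⟨z, rfl⟩
      exact z.2.1
    · intro hy
      exact ⟨⟨y.1.1, hy, y.2⟩, rfl⟩
  rw [this]
  have hc : Continuous fun y : offArc γ => ‖y.1.1‖ := by fun_prop
  exact (isOpen_lt continuous_const hc).inter (isOpen_lt hc continuous_const)

/-- the interior of the cobordism -/
noncomputable def intMap (γ : unitInterval → E 3) (N : Type) [TopologicalSpace N] :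
    OO γ × N → YY γ × N := Prod.map (fun x => qoff γ (toOff γ x)) id

theorem isOpenEmbedding_intMap (hγ : IsArc γ) : IsOpenEmbedding (intMap γ N) :=
  ((isOpenEmbedding_qoff hγ).comp isOpenEmbedding_toOff).prodMap IsOpenEmbedding.id

/-- the boundary of the cobordism -/
def bdy (γ : unitInterval → E 3) (N : Type) [TopologicalSpace N] : Set (YY γ × N) :=
  range (inc γ N 2 (by norm_num) le_rfl) ∪ range (inc γ N 1 le_rfl (by norm_num))

theorem mem_bdy (hγ : IsArc γ) (x : An) (n : N) :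
    (qq γ x, n) ∈ bdy γ N ↔ ‖x.1‖ = 1 ∨ ‖x.1‖ = 2 ∨ x.1 ∈ range γ := by
  unfold bdy
  rw [mem_union, mem_range_inc hγ, mem_range_inc hγ]
  constructor
  · rintro ((h | ⟨h, _⟩) | (h | ⟨h, _⟩))
    · exact Or.inr (Or.inl h)
    · exact Or.inr (Or.inr h)
    · exact Or.inl h
    · exact Or.inr (Or.inr h)
  · rintro (h | h | h)
    · exact Or.inr (Or.inl h)
    · exact Or.inl (Or.inl h)
    · exact Or.inr (Or.inr ⟨h, 0, hγ.zero⟩)

theorem range_intMap (hγ : IsArc γ) : range (intMap γ N) = (bdy γ N)ᶜ := by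
  ext ⟨y, n⟩
  obtain ⟨x, rfl⟩ := qq_surj y
  rw [mem_compl_iff, mem_bdy hγ]
  constructor
  · rintro ⟨⟨z, m⟩, h⟩
    have h1 : qq γ ⟨z.1, z.2.1.1.le, z.2.1.2.le⟩ = qq γ x := congrArg Prod.fst h
    rcases (qq_eq hγ).1 h1 with h2 | ⟨h2, _⟩
    · rw [← h2]
      rintro (h3 | h3 | h3)
      · exact z.2.1.1.ne' h3
      · exact z.2.1.2.ne h3
      · exact z.2.2 h3
    · exact absurd h2 z.2.2
  · intro h
    push Not at h
    obtain ⟨h1, h2, h3⟩ := h
    exact ⟨(⟨x.1, ⟨lt_of_le_of_ne x.2.1 (Ne.symm h1), lt_of_le_of_ne x.2.2 h2⟩, h3⟩, n), rfl⟩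

/-- the interior of the cobordism is homeomorphic to `OO γ × N` -/
noncomputable def intHomeo (hγ : IsArc γ) : (OO γ × N) ≃ₜ ((bdy γ N)ᶜ : Set (YY γ × N)) :=
  (isOpenEmbedding_intMap hγ).isEmbedding.toHomeomorph.trans
    (Homeomorph.setCongr (range_intMap hγ))

theorem intHomeo_val (hγ : IsArc γ) (p : OO γ × N) : (intHomeo hγ p).1 = intMap γ N p := rfl

/-- local homology at interior points -/
theorem same_interior {k : ℕ} (hγ : IsArc γ) (hN : IsHomologyManifold k N)
    {w : YY γ × N} (hw : w ∉ bdy γ N) : SameLocalHomology (YY γ × N) w (E (k + 3)) 0 := by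
  have := hN.anr.1
  obtain ⟨y, n⟩ := w
  obtain ⟨x, rfl⟩ := qq_surj y
  rw [mem_bdy hγ] at hw
  push Not at hw
  obtain ⟨h1, h2, h3⟩ := hw
  exact (same_off hγ x h3 n).trans (same_int x (lt_of_le_of_ne x.2.1 (Ne.symm h1))
    (lt_of_le_of_ne x.2.2 h2) n (hN.localHomology n))

/-- local homology at boundary points -/
theorem PA_boundary [T1Space N] (hγ : IsArc γ) {w : YY γ × N} (hw : w ∈ bdy γ N) :
    PA (univ : Set (YY γ × N)) {w}ᶜ := by
  obtain ⟨y, n⟩ := w
  obtain ⟨x, rfl⟩ := qq_surj y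
  by_cases hx : x.1 ∈ range γ
  · rw [(qq_eq_pp hγ).2 hx]
    exact PA_exc hγ n
  · rw [mem_bdy hγ] at hw
    have h1 := same_off hγ x hx n
    rcases hw with h | h | h
    · exact PA_of_same h1 (PA_inner x h n)
    · exact PA_of_same h1 (PA_outer x h n)
    · exact absurd h hx

/-- The cobordism `YY γ × N` is an s-cobordism in the literal sense. -/
theorem isSCobordism {k : ℕ} (hγ : IsArc γ) (hk : 3 ≤ k) [CompactSpace N]
    (hN : IsHomologyManifold k N) (hd : DDP (Sph 2 × N)) (hdi : DDP (OO γ × N)) :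
    IsSCobordism (k + 2) (inc γ N 2 (by norm_num) le_rfl) (inc γ N 1 le_rfl (by norm_num)) := by
  have := hN.anr.1
  have hM : IsClosedNLLManifold (k + 2) (Sph 2 × N) :=
    { dim := by omega
      compact := inferInstance
      manifold := isHomologyManifold_Sph_prod 2 hN
      ddp := hd }
  refine
    { bottom := hM
      top := hM
      compact := inferInstance
      finDim := finDim_prod (finDim_of_embedding _ IsEmbedding.subtypeVal
        (finDim_normed (ℝ × E 3))) hN.finDim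
      anr := (isANR_YY hγ).prod hN.anr
      inj₀ := inc_injective hγ 2 _ _ (Or.inr rfl)
      inj₁ := inc_injective hγ 1 _ _ (Or.inl rfl)
      disjoint := ?_
      interior := ?_
      boundary := ?_
      ddp := ?_
      simple₀ := simple_inc hN.anr hγ 2 _ _
      simple₁ := simple_inc hN.anr hγ 1 _ _ }
  · rw [Set.disjoint_left]
    rintro ⟨y, n⟩ h2 h1
    obtain ⟨x, rfl⟩ := qq_surj y
    rw [mem_range_inc hγ] at h1 h2
    rcases h2 with h2 | ⟨_, t, ht⟩
    · rcases h1 with h1 | ⟨⟨t, ht⟩, _⟩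
      · rw [h1] at h2; norm_num at h2
      · have := hγ.lt t
        rw [ht, h2] at this
        exact lt_irrefl _ this
    · exact (hγ.lt t).ne ht
  · intro w hw
    exact same_interior hγ hN hw
  · intro w hw
    exact SameLocalHomology.of_PA (PA_boundary hγ hw) (PA_half _)
  · exact hdi.of_homeo (intHomeo hγ)

/-! ### the cobordism is not a product -/

/-- The affine map which moves the wild arc of the library into the annulus. -/
noncomputable def TT (x : R3) : E 3 := !₂[1 + (9 - x.1) / 100, x.2.1 / 100, x.2.2 / 100]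

/-- its inverse -/
noncomputable def TI (y : E 3) : R3 := (9 - 100 * (y 0 - 1), 100 * y 1, 100 * y 2)

theorem continuous_TT : Continuous TT := by unfold TT; fun_prop

theorem continuous_TI : Continuous TI := by unfold TI; fun_prop

theorem TI_TT (x : R3) : TI (TT x) = x := by
  obtain ⟨a, b, c⟩ := x
  simp only [TI, TT, PiLp.toLp_apply, Matrix.cons_val_zero, Matrix.cons_val_one, Matrix.cons_val]
  refine Prod.ext ?_ (Prod.ext ?_ ?_)
  · ring
  · ring
  · ring

theorem TT_injective : Function.Injective TT := fun x y h => by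
  rw [← TI_TT x, h, TI_TT]

theorem norm_TT_sq (x : R3) :
    ‖TT x‖ ^ 2 = (1 + (9 - x.1) / 100) ^ 2 + (x.2.1 / 100) ^ 2 + (x.2.2 / 100) ^ 2 := by
  rw [EuclideanSpace.norm_sq_eq, Fin.sum_univ_three]
  simp [TT, div_pow]

theorem exists_arc : ∃ γ : unitInterval → E 3, IsArc γ ∧ range γ = TT '' warc := by
  obtain ⟨g, hgc, hgi, hgr, hg0⟩ := exists_param
  have hb : ∀ t, (g t = (9, 0, 0) ∨ (-9 ≤ (g t).1 ∧ (g t).1 < 9)) ∧ |(g t).2.1| ≤ 15 ∧
      |(g t).2.2| ≤ 15 := by
    intro t
    apply warc_bounds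
    have : g t ∈ range g := ⟨t, rfl⟩
    rw [hgr] at this
    exact this
  have h9 : ∀ t, -9 ≤ (g t).1 ∧ (g t).1 ≤ 9 := by
    intro t
    rcases (hb t).1 with h | h
    · rw [h]; norm_num
    · exact ⟨h.1, h.2.le⟩
  have hsq : ∀ a : ℝ, 0 ≤ (a / 100) ^ 2 := fun a => sq_nonneg _
  have hge : ∀ t, 1 ≤ ‖TT (g t)‖ := by
    intro t
    have h1 := norm_TT_sq (g t)
    have h2 := h9 t
    have h3 := norm_nonneg (TT (g t))
    nlinarith [hsq (g t).2.1, hsq (g t).2.2]
  refine ⟨fun t => TT (g t), ⟨continuous_TT.comp hgc, TT_injective.comp hgi, ?_, hge, ?_, ?_⟩, ?_⟩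
  · have h1 := norm_TT_sq (g 0)
    rw [hg0] at h1
    norm_num at h1
    rw [hg0]
    have h3 := norm_nonneg (TT ((9 : ℝ), (0 : ℝ), (0 : ℝ)))
    rcases h1 with h1 | h1
    · exact h1
    · rw [h1] at h3
      norm_num at h3
  · intro t
    have h1 := norm_TT_sq (g t)
    obtain ⟨_, h2, h3⟩ := hb t
    have h4 := h9 t
    rw [abs_le] at h2 h3
    have h5 := norm_nonneg (TT (g t))
    have h6 : (1 + (9 - (g t).1) / 100) ^ 2 ≤ 1.44 := by
      have : 0 ≤ 1 + (9 - (g t).1) / 100 := by linarith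
      nlinarith
    have h7 : ((g t).2.1 / 100) ^ 2 ≤ 0.04 := by nlinarith
    have h8 : ((g t).2.2 / 100) ^ 2 ≤ 0.04 := by nlinarith
    nlinarith
  · intro t ht
    have h1 := norm_TT_sq (g t)
    rw [ht] at h1
    have h2 := h9 t
    rcases (hb t).1 with h | h
    · apply hgi
      rw [h, hg0]
    · exfalso
      have h3 : 1 < (1 + (9 - (g t).1) / 100) ^ 2 := by nlinarith [h.2]
      nlinarith [hsq (g t).2.1, hsq (g t).2.2]
  · have : warc = range g := hgr.symm
    rw [this, ← range_comp]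
    rfl

/-- the disk which fills the loop in the annulus -/
theorem loop_mem {z : E 2} (hz : ‖z‖ ≤ 1) : 1 < ‖TT (loopR z)‖ ∧ ‖TT (loopR z)‖ < 2 := by
  have h1 := norm_TT_sq (loopR z)
  have h2 : z 0 ^ 2 + z 1 ^ 2 ≤ 1 := by
    have := EuclideanSpace.norm_sq_eq z
    rw [Fin.sum_univ_two] at this
    have h3 : ‖z‖ ^ 2 ≤ 1 := by
      have := norm_nonneg z
      nlinarith
    rw [this] at h3
    simpa using h3
  have h3 := norm_nonneg (TT (loopR z))
  simp only [loopR] at h1 h3
  have h4 : |z 0| ≤ 1 := by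
    rw [← sq_le_one_iff_abs_le_one]
    nlinarith [sq_nonneg (z 1)]
  have h5 : |z 1| ≤ 1 := by
    rw [← sq_le_one_iff_abs_le_one]
    nlinarith [sq_nonneg (z 0)]
  rw [abs_le] at h4 h5
  have h6 : (3 / 2 * z 0 / 100) ^ 2 ≤ 0.001 := by nlinarith
  have h7 : ((-15 + 3 / 2 * z 1) / 100) ^ 2 ≤ 0.04 := by nlinarith
  have h8 : 0 ≤ (3 / 2 * z 0 / 100) ^ 2 := sq_nonneg _
  have h9 : 0 ≤ ((-15 + 3 / 2 * z 1) / 100) ^ 2 := sq_nonneg _
  simp only [loopR]
  constructor <;> nlinarith

/-- local homology of the product with the interval at interior heights -/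
theorem same_prod_interval {M : Type} [TopologicalSpace M] [T1Space M] {n : ℕ} (x : M)
    (hM : SameLocalHomology M x (E n) 0) (s : unitInterval) (h0 : 0 < (s : ℝ))
    (h1 : (s : ℝ) < 1) : SameLocalHomology (M × unitInterval) (x, s) (E (n + 1)) 0 := by
  let j : (Ioo (0 : ℝ) 1) × M → M × unitInterval :=
    fun p => (p.2, ⟨p.1.1, p.1.2.1.le, p.1.2.2.le⟩)
  have hj1 : IsOpenEmbedding fun r : Ioo (0 : ℝ) 1 =>
      (⟨r.1, r.2.1.le, r.2.2.le⟩ : unitInterval) := by
    refine ⟨IsEmbedding.of_comp (g := Subtype.val) (by fun_prop) (by fun_prop)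
      IsEmbedding.subtypeVal, ?_⟩
    have : (range fun r : Ioo (0 : ℝ) 1 => (⟨r.1, r.2.1.le, r.2.2.le⟩ : unitInterval)) =
        Subtype.val ⁻¹' (Ioo (0 : ℝ) 1) := by
      ext r
      constructor
      · rintro ⟨x, rfl⟩
        exact x.2
      · intro hr
        exact ⟨⟨r.1, hr⟩, rfl⟩
    rw [this]
    exact isOpen_Ioo.preimage continuous_subtype_val
  have hj : IsOpenEmbedding j :=
    (Homeomorph.prodComm unitInterval M).isOpenEmbedding.comp (hj1.prodMap IsOpenEmbedding.id)
  have e1 := SameLocalHomology.of_isOpenEmbedding (X := (Ioo (0 : ℝ) 1) × M)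
    ⟨j, hj.continuous⟩ hj (⟨(s : ℝ), h0, h1⟩, x)
  have e2 := SameLocalHomology.of_isOpenEmbedding (X := (Ioo (0 : ℝ) 1) × M)
    (Y := ℝ × M)
    ⟨Prod.map Subtype.val id, continuous_subtype_val.prodMap continuous_id⟩
    (isOpen_Ioo.isOpenEmbedding_subtypeVal.prodMap IsOpenEmbedding.id) (⟨(s : ℝ), h0, h1⟩, x)
  have e3 := SameLocalHomology.of_homeo
    ((Homeomorph.addRight (-(s : ℝ))).prodCongr (Homeomorph.refl M)) ((s : ℝ), x)
  have e4 : ((Homeomorph.addRight (-(s : ℝ))).prodCongr (Homeomorph.refl M))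
      ((s : ℝ), x) = ((0 : ℝ), x) := by
    refine Prod.ext ?_ rfl
    change (s : ℝ) + -(s : ℝ) = 0
    ring
  rw [e4] at e3
  exact e1.symm.trans (e2.trans (e3.trans (hM.susp.trans (same_esplit n).symm)))

/-- The boundary is not homotopically negligible: the cobordism cannot be pushed off its
boundary by a small homotopy. -/
theorem no_push {k : ℕ} (hγ : IsArc γ) (hr : range γ = TT '' warc) [Nonempty N]
    (hN : IsHomologyManifold k N) (P : C((YY γ × N) × unitInterval, YY γ × N))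
    (P0 : ∀ w, P (w, 0) = w) (P1 : ∀ w t, t ≠ 0 → P (w, t) ∉ bdy γ N) : False := by
  have hmet := hN.anr.1
  obtain ⟨n₀⟩ := ‹Nonempty N›
  -- the filled loop
  have hmem : ∀ d : Disk, 1 ≤ ‖TT (loopR d.1)‖ ∧ ‖TT (loopR d.1)‖ ≤ 2 := fun d =>
    ⟨(loop_mem (mem_closedBall_zero_iff.1 d.2)).1.le, (loop_mem (mem_closedBall_zero_iff.1 d.2)).2.le⟩
  let f₀ : C(Disk, YY γ × N) := ⟨fun d => (qq γ ⟨TT (loopR d.1), hmem d⟩, n₀), by
    have h1 : Continuous fun d : Disk => TT (loopR d.1) :=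
      continuous_TT.comp (continuous_loopR.comp continuous_subtype_val)
    exact ((qq γ).continuous.comp (h1.subtype_mk _)).prodMk continuous_const⟩
  have hoff : ∀ d : Disk, ‖d.1‖ = 1 → TT (loopR d.1) ∉ range γ := by
    intro d hd h
    rw [hr] at h
    obtain ⟨x, hx, hxd⟩ := h
    rw [TT_injective hxd] at hx
    exact loopR_not_mem hd hx
  have hf₀ : ∀ d : Disk, ‖d.1‖ = 1 → f₀ d ∉ bdy γ N := by
    intro d hd h
    have h1 := (mem_bdy hγ ⟨TT (loopR d.1), hmem d⟩ n₀).1 h
    have h2 := loop_mem (mem_closedBall_zero_iff.1 d.2)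
    rcases h1 with h1 | h1 | h1
    · exact h2.1.ne' h1
    · exact h2.2.ne h1
    · exact hoff d hd h1
  let τ : C(Disk, unitInterval) := ⟨fun d => ⟨1 - ‖d.1‖, by
    have := mem_closedBall_zero_iff.1 d.2
    exact ⟨by linarith, by linarith [norm_nonneg d.1]⟩⟩, by fun_prop⟩
  have hint : ∀ d : Disk, P (f₀ d, τ d) ∈ ((bdy γ N)ᶜ : Set (YY γ × N)) := by
    intro d
    by_cases h : τ d = 0
    · rw [h, P0]
      apply hf₀
      have h1 : 1 - ‖d.1‖ = 0 := congrArg Subtype.val h
      linarith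
    · exact P1 _ _ h
  let F : E 2 → R3 := fun z =>
    TI (((intHomeo hγ).symm ⟨P (f₀ (toDisk z), τ (toDisk z)), hint _⟩).1 : E 3)
  apply no_ext
  refine ⟨F, ?_, ?_, ?_⟩
  · have h1 : Continuous fun z : E 2 =>
        (⟨P (f₀ (toDisk z), τ (toDisk z)), hint _⟩ : ((bdy γ N)ᶜ : Set (YY γ × N))) := by
      refine Continuous.subtype_mk ?_ _
      fun_prop
    have h2 := (intHomeo hγ (N := N)).symm.continuous.comp h1
    exact continuous_TI.comp (continuous_subtype_val.comp (continuous_fst.comp h2))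
  · intro z hz
    set x := ((intHomeo hγ).symm ⟨P (f₀ (toDisk z), τ (toDisk z)), hint _⟩).1 with hx
    have h1 := x.2.2
    apply h1
    rw [hr]
    refine ⟨TI x.1, hz, ?_⟩
    ext i
    fin_cases i <;> simp [TT, TI]
  · intro z hz
    have hd : toDisk z = ⟨z, by rw [mem_closedBall_zero_iff, hz]⟩ := by
      have := toDisk_coe ⟨z, by rw [mem_closedBall_zero_iff, hz]⟩
      exact this
    have hτ : τ (toDisk z) = 0 := by
      apply Subtype.ext
      change 1 - ‖(toDisk z).1‖ = 0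
      rw [hd, hz, sub_self]
    have hx : (⟨P (f₀ (toDisk z), τ (toDisk z)), hint _⟩ : ((bdy γ N)ᶜ : Set (YY γ × N))) =
        intHomeo hγ (⟨TT (loopR z), loop_mem hz.le, by
          have := hoff (toDisk z) (by rw [hd]; exact hz)
          rw [hd] at this
          exact this⟩, n₀) := by
      apply Subtype.ext
      rw [intHomeo_val]
      change P (f₀ (toDisk z), τ (toDisk z)) = _
      rw [hτ, P0]
      change (qq γ ⟨TT (loopR (toDisk z).1), _⟩, n₀) = (qq γ ⟨TT (loopR z), _⟩, n₀)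
      simp only [hd]
    change TI (((intHomeo hγ).symm ⟨P (f₀ (toDisk z), τ (toDisk z)), hint _⟩).1 : E 3) = _
    rw [hx, Homeomorph.symm_apply_apply]
    exact TI_TT _

/-- The cobordism is not homeomorphic to a product. -/
theorem not_product {k : ℕ} (hγ : IsArc γ) (hr : range γ = TT '' warc) [Nonempty N]
    (hN : IsHomologyManifold k N) (Φ : (YY γ × N) ≃ₜ (Sph 2 × N) × unitInterval) : False := by
  have hmet := hN.anr.1
  have hout : ∀ (q : (Sph 2 × N) × unitInterval), 0 < (q.2 : ℝ) → (q.2 : ℝ) < 1 →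
      Φ.symm q ∉ bdy γ N := by
    rintro ⟨⟨u, n⟩, s⟩ h0 h1 hw
    have h2 := PA_boundary hγ hw
    have h3 := SameLocalHomology.of_homeo Φ.symm ((u, n), s)
    exact not_PA_E (same_prod_interval (u, n) (same_sph_prod 2 u n (hN.localHomology n)) s h0 h1)
      (PA_of_same h3 h2)
  have hpush : ∀ s t : unitInterval, (s : ℝ) * (1 - t) + t / 2 ∈ unitInterval := by
    intro s t
    have := s.2.1; have := s.2.2; have := t.2.1; have := t.2.2
    constructor <;> nlinarith
  let P : C((YY γ × N) × unitInterval, YY γ × N) :=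
    ⟨fun p => Φ.symm ((Φ p.1).1, ⟨((Φ p.1).2 : ℝ) * (1 - p.2) + p.2 / 2, hpush _ _⟩), by
      have h1 := Φ.continuous
      have h2 := Φ.symm.continuous
      refine h2.comp (Continuous.prodMk (by fun_prop) (Continuous.subtype_mk ?_ _))
      fun_prop⟩
  refine no_push hγ hr hN P ?_ ?_
  · intro w
    change Φ.symm ((Φ w).1, ⟨((Φ w).2 : ℝ) * (1 - 0) + 0 / 2, _⟩) = w
    have : (⟨((Φ w).2 : ℝ) * (1 - 0) + 0 / 2, by simp⟩ : unitInterval) =
        (Φ w).2 := by
      apply Subtype.ext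
      change ((Φ w).2 : ℝ) * (1 - 0) + 0 / 2 = _
      ring
    rw [this]
    exact Φ.symm_apply_apply w
  · intro w t ht
    have h0 : 0 < (t : ℝ) := lt_of_le_of_ne t.2.1 fun h => ht (Subtype.ext h.symm)
    have h1 := (Φ w).2.2.1
    have h2 := (Φ w).2.2.2
    have h3 := t.2.2
    apply hout
    · change 0 < ((Φ w).2 : ℝ) * (1 - t) + t / 2
      nlinarith
    · change ((Φ w).2 : ℝ) * (1 - t) + t / 2 < 1
      nlinarith

/-! ### collars -/

/-- pushing off a collared boundary component -/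
theorem exists_push {M W : Type} [TopologicalSpace M] [CompactSpace M] [TopologicalSpace W]
    [T2Space W] (c : C(M × unitInterval, W)) (hci : Function.Injective c)
    (hco : IsOpen (c '' {p | p.2 ≠ 1})) : ∃ P : C(W × unitInterval, W), (∀ w, P (w, 0) = w) ∧
      (∀ w t, t ≠ 0 → ∀ x, P (w, t) ≠ c (x, 0)) ∧
      ∀ w t, P (w, t) ≠ w → ∃ (x : M) (s : unitInterval), 0 < (s : ℝ) ∧ (s : ℝ) < 1 ∧
        P (w, t) = c (x, s) := by
  classical
  have hce : IsClosedEmbedding c := c.continuous.isClosedEmbedding hci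
  have hmem : ∀ s t : unitInterval, (s : ℝ) + t * (1 - s) / 2 ∈ unitInterval := by
    intro s t
    have := s.2.1; have := s.2.2; have := t.2.1; have := t.2.2
    constructor <;> nlinarith
  let G : (M × unitInterval) × unitInterval → W := fun q =>
    c (q.1.1, ⟨(q.1.2 : ℝ) + q.2 * (1 - q.1.2) / 2, hmem _ _⟩)
  have hG : Continuous G := by
    refine c.continuous.comp (Continuous.prodMk (by fun_prop) (Continuous.subtype_mk ?_ _))
    fun_prop
  let e : (M × unitInterval) ≃ₜ range c := hce.isEmbedding.toHomeomorph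
  let f : W × unitInterval → W := fun p =>
    if h : p.1 ∈ range c then G (e.symm ⟨p.1, h⟩, p.2) else p.1
  have hfc : ∀ q t, f (c q, t) = G (q, t) := by
    intro q t
    have h1 : f (c q, t) = G (e.symm ⟨c q, mem_range_self q⟩, t) :=
      dif_pos (mem_range_self q)
    have h2 : e.symm ⟨c q, mem_range_self q⟩ = q := e.symm_apply_apply q
    rw [h1, h2]
  have hf1 : ∀ w t, w ∉ c '' {p | p.2 ≠ 1} → f (w, t) = w := by
    intro w t hw
    by_cases h : w ∈ range c
    · obtain ⟨⟨x, s⟩, rfl⟩ := h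
      have hs : s = 1 := by
        by_contra hs
        exact hw ⟨(x, s), hs, rfl⟩
      rw [hfc, hs]
      change c (x, ⟨(1 : ℝ) + t * (1 - 1) / 2, _⟩) = c (x, 1)
      congr 2
      apply Subtype.ext
      change (1 : ℝ) + t * (1 - 1) / 2 = 1
      ring
    · exact dif_neg h
  have hcont : Continuous f := by
    rw [← continuousOn_univ]
    have hcov : (univ : Set (W × unitInterval)) =
        (range c ×ˢ univ) ∪ ((c '' {p | p.2 ≠ 1})ᶜ ×ˢ univ) := by
      symm
      rw [eq_univ_iff_forall]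
      rintro ⟨w, t⟩
      by_cases h : w ∈ range c
      · exact Or.inl ⟨h, mem_univ _⟩
      · right
        refine ⟨fun h2 => h ?_, mem_univ _⟩
        obtain ⟨q, _, hq⟩ := h2
        exact ⟨q, hq⟩
    rw [hcov]
    refine ContinuousOn.union_of_isClosed ?_ ?_ (hce.isClosed_range.prod isClosed_univ)
      (hco.isClosed_compl.prod isClosed_univ)
    · rw [continuousOn_iff_continuous_domRestrict]
      have h1 : Continuous fun p : (range c ×ˢ univ : Set (W × unitInterval)) =>
          G (e.symm ⟨p.1.1, p.2.1⟩, p.1.2) := by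
        refine hG.comp (Continuous.prodMk (e.symm.continuous.comp
          (Continuous.subtype_mk (by fun_prop) _)) (by fun_prop))
      refine h1.congr fun p => ?_
      rw [Set.domRestrict_apply]
      have h2 : f p.1 = G (e.symm ⟨p.1.1, p.2.1⟩, p.1.2) := dif_pos p.2.1
      exact h2.symm
    · refine ContinuousOn.congr continuous_fst.continuousOn ?_
      rintro ⟨w, t⟩ ⟨hw, _⟩
      exact hf1 w t hw
  have hval : ∀ x s t, f (c (x, s), t) = c (x, ⟨(s : ℝ) + t * (1 - s) / 2, hmem _ _⟩) :=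
    fun x s t => hfc (x, s) t
  refine ⟨⟨f, hcont⟩, ?_, ?_, ?_⟩
  · intro w
    by_cases h : w ∈ range c
    · obtain ⟨⟨x, s⟩, rfl⟩ := h
      change f (c (x, s), 0) = _
      rw [hval]
      congr 2
      apply Subtype.ext
      change (s : ℝ) + 0 * (1 - s) / 2 = s
      ring
    · exact dif_neg h
  · intro w t ht x h
    have h' : f (w, t) = c (x, 0) := h
    have ht0 : 0 < (t : ℝ) := lt_of_le_of_ne t.2.1 fun h => ht (Subtype.ext h.symm)
    by_cases hw : w ∈ range c
    · obtain ⟨⟨y, s⟩, rfl⟩ := hw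
      rw [hval] at h'
      have h2 := congrArg (fun q => (q.2 : ℝ)) (hci h')
      have h3 : (s : ℝ) + t * (1 - s) / 2 = 0 := h2
      have h4 := s.2.1; have h5 := s.2.2
      have h6 : 0 ≤ (t : ℝ) * (1 - s) := mul_nonneg ht0.le (by linarith)
      have h7 : (s : ℝ) = 0 := by linarith
      rw [h7] at h3
      linarith
    · rw [hf1 w t (fun h2 => hw (by obtain ⟨q, _, hq⟩ := h2; exact ⟨q, hq⟩))] at h'
      exact hw ⟨_, h'.symm⟩
  · intro w t h
    have h' : f (w, t) ≠ w := h
    by_cases hw : w ∈ c '' {p | p.2 ≠ 1}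
    · obtain ⟨⟨x, s⟩, hs, rfl⟩ := hw
      have hs1 : (s : ℝ) < 1 := lt_of_le_of_ne s.2.2 fun h => hs (Subtype.ext h)
      refine ⟨x, ⟨(s : ℝ) + t * (1 - s) / 2, hmem _ _⟩, ?_, ?_, hval x s t⟩
      · change 0 < (s : ℝ) + t * (1 - s) / 2
        rw [hval] at h'
        have h3 : (s : ℝ) + t * (1 - s) / 2 ≠ s := by
          intro h4
          apply h'
          congr 2
          exact Subtype.ext h4
        have h8 := s.2.1; have h9 := t.2.1
        have h4 : 0 ≤ (t : ℝ) * (1 - s) / 2 := by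
          apply div_nonneg (mul_nonneg h9 (by linarith)) (by norm_num)
        rcases h4.lt_or_eq with h5 | h5
        · linarith
        · exact absurd (by linarith) h3
      · change (s : ℝ) + t * (1 - s) / 2 < 1
        have := s.2.1; have := t.2.1; have := t.2.2
        nlinarith
    · exact absurd (hf1 w t hw) h'

/-- the outer boundary component is collared -/
theorem collared_outer [T2Space N] [CompactSpace N] (hγ : IsArc γ) :
    IsCollared (inc γ N 2 (by norm_num) le_rfl) := by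
  obtain ⟨t₀, -, ht₀⟩ := isCompact_univ.exists_isMaxOn (univ_nonempty (α := unitInterval))
    (hγ.cont.norm.continuousOn)
  have hmax : ∀ t, ‖γ t‖ ≤ ‖γ t₀‖ := fun t => ht₀ (mem_univ t)
  set ρ₀ := ‖γ t₀‖ with hρ₀
  have hρ2 : ρ₀ < 2 := hγ.lt t₀
  have hρ1 : 1 ≤ ρ₀ := hγ.ge t₀
  obtain ⟨δ, hδ0, hδ1⟩ : ∃ δ : ℝ, 0 < δ ∧ 2 * δ ≤ 2 - ρ₀ := ⟨(2 - ρ₀) / 2, by linarith, by linarith⟩
  have hr : ∀ t : unitInterval, 1 ≤ 2 - δ * (t : ℝ) ∧ 2 - δ * (t : ℝ) ≤ 2 := by
    intro t
    have := t.2.1; have := t.2.2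
    constructor <;> nlinarith
  have hgt : ∀ t : unitInterval, ρ₀ < 2 - δ * (t : ℝ) := by
    intro t
    have := t.2.2
    nlinarith
  let c : C((Sph 2 × N) × unitInterval, YY γ × N) :=
    ⟨fun p => (qq γ (ray p.1.1 (2 - δ * (p.2 : ℝ)) (hr p.2).1 (hr p.2).2), p.1.2), by
      have h1 : Continuous fun p : (Sph 2 × N) × unitInterval =>
          ray p.1.1 (2 - δ * (p.2 : ℝ)) (hr p.2).1 (hr p.2).2 := by
        refine Continuous.subtype_mk ?_ _
        fun_prop
      exact ((qq γ).continuous.comp h1).prodMk (by fun_prop)⟩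
  refine ⟨c, ?_, ?_, ?_⟩
  · rintro ⟨⟨u, n⟩, s⟩ ⟨⟨v, m⟩, t⟩ h
    have h1 : qq γ (ray u (2 - δ * (s : ℝ)) (hr s).1 (hr s).2) =
      qq γ (ray v (2 - δ * (t : ℝ)) (hr t).1 (hr t).2) := congrArg Prod.fst h
    have h2 : n = m := congrArg Prod.snd h
    rcases (qq_eq hγ).1 h1 with h3 | ⟨⟨r, hr'⟩, _⟩
    · have h4 := congrArg pol h3
      rw [pol_ray, pol_ray] at h4
      have h5 := congrArg (fun x : An => ‖x.1‖) h3
      simp only [norm_ray] at h5
      have h6 : s = t := Subtype.ext (by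
        have : δ * (s : ℝ) = δ * (t : ℝ) := by linarith
        exact mul_left_cancel₀ hδ0.ne' this)
      rw [h2, h4, h6]
    · exfalso
      have h4 := hmax r
      have h5 := hgt s
      rw [hr', norm_ray] at h4
      linarith
  · rintro ⟨u, n⟩
    refine Prod.ext ?_ rfl
    change qq γ (ray u (2 - δ * (0 : ℝ)) (hr 0).1 (hr 0).2) =
      qq γ (ray u 2 (by norm_num) le_rfl)
    have h1 : 2 - δ * (0 : ℝ) = 2 := by ring
    simp only [h1]
  · have hset : c '' {p | p.2 ≠ 1} =
        ((fun p : An × N => (qq γ p.1, p.2)) '' {p | ‖p.1.1‖ ≤ 2 - δ})ᶜ := by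
      ext ⟨y, n⟩
      obtain ⟨x, rfl⟩ := qq_surj y
      constructor
      · rintro ⟨⟨⟨u, m⟩, t⟩, ht, h⟩ ⟨⟨z, m'⟩, hz, h'⟩
        have h1 : qq γ (ray u (2 - δ * (t : ℝ)) (hr t).1 (hr t).2) = qq γ x :=
          congrArg Prod.fst h
        have h2 : qq γ z = qq γ x := congrArg Prod.fst h'
        have hz' : ‖z.1‖ ≤ 2 - δ := hz
        have ht' : (t : ℝ) < 1 := lt_of_le_of_ne t.2.2 fun h => ht (Subtype.ext h)
        rcases (qq_eq hγ).1 (h1.trans h2.symm) with h3 | ⟨⟨r, hr'⟩, _⟩
        · rw [← h3, norm_ray] at hz'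
          nlinarith
        · have h4 := hmax r
          have h5 := hgt t
          rw [hr', norm_ray] at h4
          linarith
      · intro h
        have hx : 2 - δ < ‖x.1‖ := by
          by_contra hcon
          push Not at hcon
          exact h ⟨(x, n), hcon, rfl⟩
        refine ⟨((pol x, n), ⟨(2 - ‖x.1‖) / δ, ?_, ?_⟩), ?_, ?_⟩
        · have := x.2.2
          apply div_nonneg <;> linarith
        · rw [div_le_one hδ0]; linarith
        · intro h1
          have h2 : (2 - ‖x.1‖) / δ = 1 := congrArg Subtype.val h1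
          rw [div_eq_one_iff_eq hδ0.ne'] at h2
          linarith
        · refine Prod.ext ?_ rfl
          change qq γ (ray (pol x) (2 - δ * ((2 - ‖x.1‖) / δ)) _ _) = qq γ x
          congr 1
          have h1 : 2 - δ * ((2 - ‖x.1‖) / δ) = ‖x.1‖ := by
            field_simp
            ring
          simp only [h1]
          exact ray_pol x
    rw [hset]
    have hcl : IsClosed {p : An × N | ‖p.1.1‖ ≤ 2 - δ} := isClosed_le (by fun_prop) continuous_const
    exact (hcl.isCompact.image (by fun_prop)).isClosed.isOpen_compl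

/-- the inner boundary component is not collared -/
theorem not_collared_inner {k : ℕ} (hγ : IsArc γ) (hr : range γ = TT '' warc) [Nonempty N]
    [CompactSpace N] (hN : IsHomologyManifold k N) :
    ¬ IsCollared (inc γ N 1 le_rfl (by norm_num)) := by
  have hmet := hN.anr.1
  rintro ⟨c₁, hc₁i, hc₁0, hc₁o⟩
  obtain ⟨c₀, hc₀i, hc₀0, hc₀o⟩ := collared_outer (N := N) hγ
  obtain ⟨P, P0, P1, _⟩ := exists_push c₀ hc₀i hc₀o
  obtain ⟨Q, Q0, Q1, Q2⟩ := exists_push c₁ hc₁i hc₁o
  -- interior points of the collar are interior points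
  have hint : ∀ (x : Sph 2 × N) (s : unitInterval), 0 < (s : ℝ) → (s : ℝ) < 1 →
      c₁ (x, s) ∉ bdy γ N := by
    rintro ⟨u, n⟩ s h0 h1 hb
    have h2 := PA_boundary hγ hb
    let S : Set ((Sph 2 × N) × unitInterval) := {p | p.2 ≠ 1}
    have hSo : IsOpen S := isOpen_compl_singleton.preimage continuous_snd
    have hemb : IsOpenEmbedding fun p : S => c₁ p.1 := by
      refine ⟨(c₁.continuous.isClosedEmbedding hc₁i).isEmbedding.comp IsEmbedding.subtypeVal, ?_⟩
      have : (range fun p : S => c₁ p.1) = c₁ '' {p | p.2 ≠ 1} := by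
        ext w
        constructor
        · rintro ⟨p, rfl⟩
          exact ⟨p.1, p.2, rfl⟩
        · rintro ⟨p, hp, rfl⟩
          exact ⟨⟨p, hp⟩, rfl⟩
      rw [this]
      exact hc₁o
    have hs : ((u, n), s) ∈ S := by
      intro h
      have h' : s = 1 := h
      rw [h'] at h1
      exact lt_irrefl _ h1
    have e1 := SameLocalHomology.of_isOpenEmbedding (X := S) ⟨_, hemb.continuous⟩ hemb
      ⟨((u, n), s), hs⟩
    have e2 := SameLocalHomology.of_isOpenEmbedding (X := S)
      ⟨Subtype.val, continuous_subtype_val⟩ hSo.isOpenEmbedding_subtypeVal ⟨((u, n), s), hs⟩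
    have e3 := same_prod_interval (u, n) (same_sph_prod 2 u n (hN.localHomology n)) s h0 h1
    exact not_PA_E (e1.symm.trans (e2.trans e3)) h2
  refine no_push hγ hr hN ⟨fun p => Q (P (p.1, p.2), p.2), by fun_prop⟩ ?_ ?_
  · intro w
    change Q (P (w, 0), 0) = w
    rw [Q0, P0]
  · intro w t ht hb
    have hb' : Q (P (w, t), t) ∈ bdy γ N := hb
    by_cases h : Q (P (w, t), t) = P (w, t)
    · rw [h] at hb'
      rcases hb' with ⟨x, hx⟩ | ⟨x, hx⟩
      · exact P1 w t ht x (by rw [hc₀0]; exact hx.symm)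
      · exact Q1 (P (w, t)) t ht x (by rw [h, hc₁0]; exact hx.symm)
    · obtain ⟨x, s, h0, h1, h2⟩ := Q2 (P (w, t)) t h
      rw [h2] at hb'
      exact hint x s h0 h1 hb'

end Pool.Agent.H110
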