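import Pool.Agent.H110.Loc

/-! Local homology of Euclidean spaces, half-spaces and products with the interval. -/

set_option autoImplicit false

namespace Pool.Agent.H110

open Set Finsupp

variable {X : Type} [TopologicalSpace X] {Y : Type} [TopologicalSpace Y]

/-- splitting off the first coordinate -/
noncomputable def esplit (n : ℕ) : E (n + 1) ≃ₜ ℝ × E n where
  toFun x := (x 0, WithLp.toLp 2 fun i => x i.succ)
  invFun p := WithLp.toLp 2 (Fin.cons p.1 fun i => p.2 i)
  left_inv x := by
    ext i
    refine Fin.cases ?_ (fun j => ?_) i <;> simp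
  right_inv p := by
    ext <;> simp
  continuous_toFun := by fun_prop
  continuous_invFun := by
    apply (PiLp.continuous_toLp 2 _).comp
    refine continuous_pi fun i => ?_
    refine Fin.cases ?_ (fun j => ?_) i
    · simp only [Fin.cons_zero]; fun_prop
    · simp only [Fin.cons_succ]; fun_prop

theorem esplit_zero (n : ℕ) : esplit n 0 = (0, 0) := by
  ext <;> simp [esplit]

theorem same_esplit (n : ℕ) : SameLocalHomology (E (n + 1)) 0 (ℝ × E n) ((0 : ℝ), 0) := by
  have h := SameLocalHomology.of_homeo (esplit n) 0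
  rw [esplit_zero] at h
  exact h

/-- translations: Euclidean spaces -/
theorem same_E (n : ℕ) (x : E n) : SameLocalHomology (E n) x (E n) 0 := by
  have h := SameLocalHomology.of_homeo (Homeomorph.addRight (-x)) x
  have h2 : Homeomorph.addRight (-x) x = 0 := by
    change x + -x = 0
    simp
  rw [h2] at h
  exact h

theorem bdry_single {n : ℕ} (σ : Sing X (n + 1)) (c : ℤ) :
    bdry X n (single σ c) = ∑ i : Fin (n + 2), ((-1 : ℤ) ^ (i : ℕ)) • single (sface n i σ) c := by
  simp [bdry, LinearMap.sum_apply]

/-- the augmentation -/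
noncomputable def aug (X : Type) [TopologicalSpace X] : (Sing X 0 →₀ ℤ) →ₗ[ℤ] ℤ :=
  Finsupp.lsum ℤ fun _ => LinearMap.id

theorem aug_single (σ : Sing X 0) (c : ℤ) : aug X (single σ c) = c := by simp [aug]

theorem aug_bdry (z : Sing X 1 →₀ ℤ) : aug X (bdry X 0 z) = 0 := by
  have : (aug X).comp (bdry X 0) = 0 := by
    refine Finsupp.lhom_ext fun σ c => ?_
    rw [LinearMap.comp_apply, bdry_single, map_sum]
    simp only [map_smul, aug_single]
    simp [Fin.sum_univ_two]
  exact LinearMap.congr_fun this z

instance nontrivial_local_zero : Nontrivial (LocalHomology (E 0) 0 0) := by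
  let σ : Sing (E 0) 0 := ContinuousMap.const _ 0
  refine ⟨⟨Submodule.Quotient.mk ⟨single σ 1, Submodule.mem_top⟩, 0, ?_⟩⟩
  intro h
  rw [Submodule.Quotient.mk_eq_zero] at h
  have h2 : single σ 1 ∈ relBdy ({0}ᶜ : Set (E 0)) 0 := h
  obtain ⟨_, ⟨d, rfl⟩, c, hc, hdc⟩ := Submodule.mem_sup.mp h2
  have h3 : c = 0 := by
    unfold chainsIn at hc
    rw [Finsupp.mem_supported] at hc
    have h4 : c.support = ∅ := by
      rw [Finset.eq_empty_iff_forall_notMem]
      intro τ hτ
      have := hc hτ
      have h5 := this (mem_range_self (default : stdSimplex ℝ (Fin 1)))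
      exact h5 (Subsingleton.elim _ _)
    exact Finsupp.support_eq_empty.mp h4
  rw [h3, add_zero] at hdc
  have := congrArg (aug (E 0)) hdc
  rw [aug_bdry, aug_single] at this
  exact zero_ne_one this

theorem nontrivial_local (n : ℕ) : Nontrivial (LocalHomology (E n) 0 n) := by
  induction n with
  | zero => exact nontrivial_local_zero
  | succ n ih =>
    obtain ⟨a⟩ := same_esplit n (n + 1)
    obtain ⟨b⟩ := localHomology_susp (X := E n) 0 n
    exact (a.trans b).toEquiv.nontrivial

theorem not_PA_E {n : ℕ} {x : X} (h : SameLocalHomology X x (E n) 0) :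
    ¬ PA (univ : Set X) {x}ᶜ := by
  intro hP
  have := subsingleton_of_PA hP n
  obtain ⟨a⟩ := h n
  have h2 := nontrivial_local n
  have h3 : Nontrivial (LocalHomology X x n) := a.toEquiv.nontrivial
  exact not_subsingleton _ this

theorem PA_half (n : ℕ) : PA (univ : Set (Half n)) {(⟨0, le_rfl⟩ : Half n)}ᶜ := by
  let H : C(Half n × unitInterval, Half n) :=
    ⟨fun p => ⟨p.1.1 + EuclideanSpace.single 0 (p.2 : ℝ), by
      have h1 := p.1.2
      have h2 := p.2.2.1
      simp only [PiLp.add_apply, PiLp.single_apply, if_true]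
      positivity⟩, by
      refine Continuous.subtype_mk ?_ _
      refine (by fun_prop : Continuous fun p : Half n × unitInterval => p.1.1).add ?_
      have : Continuous fun s : ℝ => (EuclideanSpace.single 0 s : E (n + 1)) := by
        apply (PiLp.continuous_toLp 2 _).comp
        exact continuous_single (A := fun _ => ℝ) 0
      exact this.comp (by fun_prop)⟩
  have key : ∀ (x : Half n) (t : unitInterval), H (x, t) = ⟨0, le_rfl⟩ → (t : ℝ) = 0 := by
    intro x t h
    have h1 : (x.1 + EuclideanSpace.single 0 (t : ℝ) : E (n + 1)) = 0 := congrArg Subtype.val h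
    have h2 := congrArg (fun y : E (n + 1) => y 0) h1
    simp only [PiLp.add_apply, PiLp.single_apply, if_true, PiLp.zero_apply] at h2
    have h3 := x.2
    have h4 := t.2.1
    linarith
  refine PA.of_homotopy H (fun x => ?_) (fun x hx t h => ?_) (fun x h => ?_)
  · apply Subtype.ext
    change x.1 + EuclideanSpace.single 0 ((0 : unitInterval) : ℝ) = x.1
    ext i
    simp
  · have ht := key x t h
    have ht0 : t = 0 := Subtype.ext ht
    subst ht0
    apply hx
    rw [mem_singleton_iff, ← h]
    apply Subtype.ext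
    change x.1 = x.1 + EuclideanSpace.single 0 ((0 : unitInterval) : ℝ)
    ext i
    simp
  · have ht := key x 1 h
    exact one_ne_zero ht

/-- the ends of `X × [0,1]` have zero local homology -/
theorem PA_prod_zero (x : X) : PA (univ : Set (X × unitInterval)) {(x, 0)}ᶜ := by
  have hmem : ∀ (s t : unitInterval), (s : ℝ) + t * (1 - s) ∈ unitInterval := by
    intro s t
    have h1 := s.2.1
    have h2 := s.2.2
    have h3 := t.2.1
    have h4 := t.2.2
    constructor
    · have : 0 ≤ (t : ℝ) * (1 - s) := mul_nonneg h3 (by linarith)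
      linarith
    · nlinarith
  let H : C((X × unitInterval) × unitInterval, X × unitInterval) :=
    ⟨fun p => (p.1.1, ⟨(p.1.2 : ℝ) + p.2 * (1 - p.1.2), hmem _ _⟩), by fun_prop⟩
  have key : ∀ (p : X × unitInterval) (t : unitInterval), H (p, t) = (x, 0) →
      (t : ℝ) = 0 ∧ p = (x, 0) := by
    intro p t h
    have h1 := congrArg (fun q => (q.2 : ℝ)) h
    change (p.2 : ℝ) + t * (1 - p.2) = 0 at h1
    have h2 := p.2.2.1
    have h3 := p.2.2.2
    have h4 := t.2.1
    have h5 : 0 ≤ (t : ℝ) * (1 - p.2) := mul_nonneg h4 (by linarith)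
    have h6 : (p.2 : ℝ) = 0 := by linarith
    rw [h6] at h1
    have h7 : p.1 = x := congrArg (fun q => q.1) h
    exact ⟨by linarith, Prod.ext h7 (Subtype.ext h6)⟩
  refine PA.of_homotopy H (fun p => ?_) (fun p hp t h => hp (key p t h).2) (fun p h => ?_)
  · refine Prod.ext (rfl : p.1 = p.1) ?_
    apply Subtype.ext
    change (p.2 : ℝ) + ((0 : unitInterval) : ℝ) * _ = _
    simp
  · exact one_ne_zero (key p 1 h).1

theorem PA_prod_one (x : X) : PA (univ : Set (X × unitInterval)) {(x, 1)}ᶜ := by
  have h := PA_prod_zero x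
  let f : (X × unitInterval) ≃ₜ (X × unitInterval) :=
    (Homeomorph.refl X).prodCongr unitInterval.symmHomeomorph
  have h2 := h.image ⟨f, f.continuous⟩ f.isEmbedding
  have e1 : (⟨f, f.continuous⟩ : C(X × unitInterval, X × unitInterval)) '' univ = univ := by
    rw [image_univ]
    exact f.surjective.range_eq
  have e2 : (⟨f, f.continuous⟩ : C(X × unitInterval, X × unitInterval)) '' {(x, 0)}ᶜ =
      {(x, 1)}ᶜ := by
    change f '' {(x, 0)}ᶜ = {(x, 1)}ᶜ
    rw [image_compl_eq f.bijective, image_singleton]
    congr 2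
    change (x, unitInterval.symm 0) = (x, 1)
    simp
  rw [e1, e2] at h2
  exact h2

end Pool.Agent.H110
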