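import Pool.Agent.H110.Defs
import Pool.Agent.Helper534.HB.MV

/-! Tools for relative singular homology: chains supported in subsets, small chains,
acyclic pairs, two out of three, excision, homotopies. -/

set_option autoImplicit false

namespace Pool.Agent.H110

open Set Finsupp
open Pool.Agent.Helper534.HB (Sc.rho Sc.DD Sc.smallSet)

variable {X : Type} [TopologicalSpace X] {Y : Type} [TopologicalSpace Y]

theorem bdry_eq_sbd (n : ℕ) : bdry X n = Helper534.HB.Sc.sbd X n := rfl

theorem bdry_eq_bdry (n : ℕ) : bdry X n = Helper534.HB.bdry X n := rfl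

theorem bdry_bdry (n : ℕ) (z : Sing X (n + 2) →₀ ℤ) : bdry X n (bdry X (n + 1) z) = 0 :=
  Helper534.HB.bdry_bdry n z

theorem chainsIn_eq (A : Set X) (n : ℕ) :
    chainsIn A n = Finsupp.supported ℤ ℤ (Helper534.HB.Sc.smallSet {A} n) := by
  unfold chainsIn Helper534.HB.Sc.smallSet
  congr 1
  ext σ
  simp

theorem chainsIn_mono {A B : Set X} (h : A ⊆ B) (n : ℕ) : chainsIn A n ≤ chainsIn B n :=
  Finsupp.supported_mono fun _ hσ => hσ.trans h

theorem single_mem_chainsIn {A : Set X} {n : ℕ} {σ : Sing X n} (h : range σ ⊆ A) (c : ℤ) :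
    single σ c ∈ chainsIn A n :=
  Finsupp.single_mem_supported ℤ c h

theorem chainsIn_univ (n : ℕ) (z : Sing X n →₀ ℤ) : z ∈ chainsIn (univ : Set X) n := by
  unfold chainsIn
  rw [Finsupp.mem_supported]
  intro σ _
  exact subset_univ _

theorem chainsIn_inter (A B : Set X) (n : ℕ) (z : Sing X n →₀ ℤ) (hA : z ∈ chainsIn A n)
    (hB : z ∈ chainsIn B n) : z ∈ chainsIn (A ∩ B) n := by
  unfold chainsIn at *
  rw [Finsupp.mem_supported] at *
  intro σ hσ
  exact subset_inter (hA hσ) (hB hσ)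

theorem bdry_mem {A : Set X} {n : ℕ} {z : Sing X (n + 1) →₀ ℤ} (hz : z ∈ chainsIn A (n + 1)) :
    bdry X n z ∈ chainsIn A n := by
  rw [chainsIn_eq] at hz ⊢
  exact Helper534.HB.Sc.sbd_small {A} n z hz

/-- a linear map which maps the simplices in `A` to chains in `B` maps chains in `A` to
chains in `B` -/
theorem map_mem_chainsIn {A : Set X} {B : Set Y} {n m : ℕ}
    (L : (Sing X n →₀ ℤ) →ₗ[ℤ] (Sing Y m →₀ ℤ))
    (h : ∀ σ : Sing X n, range σ ⊆ A → L (single σ 1) ∈ chainsIn B m) {z : Sing X n →₀ ℤ}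
    (hz : z ∈ chainsIn A n) : L z ∈ chainsIn B m :=
  Helper534.HB.Sc.supported_map {σ : Sing X n | range σ ⊆ A} L (chainsIn B m)
    (fun σ hσ => h σ hσ) z hz

/-- the chain map induced by a continuous map -/
noncomputable def push (f : C(X, Y)) (n : ℕ) : (Sing X n →₀ ℤ) →ₗ[ℤ] (Sing Y n →₀ ℤ) :=
  Finsupp.lmapDomain ℤ ℤ (fun σ => f.comp σ)

theorem push_eq (f : C(X, Y)) (n : ℕ) : push f n = Helper534.HB.push f n := rfl

theorem push_single (f : C(X, Y)) (n : ℕ) (σ : Sing X n) (c : ℤ) :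
    push f n (single σ c) = single (f.comp σ) c := by simp [push]

theorem bdry_push (f : C(X, Y)) (n : ℕ) (z : Sing X (n + 1) →₀ ℤ) :
    bdry Y n (push f (n + 1) z) = push f n (bdry X n z) :=
  Helper534.HB.bdry_push f n z

theorem push_mem {A : Set X} {B : Set Y} (f : C(X, Y)) (h : MapsTo f A B) {n : ℕ}
    {z : Sing X n →₀ ℤ} (hz : z ∈ chainsIn A n) : push f n z ∈ chainsIn B n := by
  refine map_mem_chainsIn (push f n) ?_ hz
  intro σ hσ
  rw [push_single]
  apply single_mem_chainsIn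
  rintro _ ⟨t, rfl⟩
  exact h (hσ ⟨t, rfl⟩)

theorem push_injective (f : C(X, Y)) (hf : Function.Injective f) (n : ℕ) :
    Function.Injective (push f n) := by
  intro a b h
  simp only [push, Finsupp.lmapDomain_apply] at h
  refine Finsupp.mapDomain_injective ?_ h
  intro σ τ hst
  ext t
  exact hf (DFunLike.congr_fun hst t)

/-- a chain whose image is supported in `B` is supported in the preimage -/
theorem mem_of_push_mem (f : C(X, Y)) (hf : Function.Injective f) {B : Set Y} {n : ℕ}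
    {z : Sing X n →₀ ℤ} (hz : push f n z ∈ chainsIn B n) : z ∈ chainsIn (f ⁻¹' B) n := by
  classical
  unfold chainsIn at *
  rw [Finsupp.mem_supported] at *
  intro σ hσ
  have hinj : Function.Injective (fun σ : Sing X n => f.comp σ) := by
    intro σ τ hst
    ext t
    exact hf (DFunLike.congr_fun hst t)
  have h1 : f.comp σ ∈ ((push f n z).support : Set (Sing Y n)) := by
    simp only [push, Finsupp.lmapDomain_apply]
    rw [Finset.mem_coe, Finsupp.mapDomain_support_of_injective hinj, Finset.mem_image]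
    exact ⟨σ, hσ, rfl⟩
  have h2 := hz h1
  rintro _ ⟨t, rfl⟩
  exact h2 ⟨t, rfl⟩

/-- lifting of chains along an embedding -/
theorem exists_lift (f : C(X, Y)) (hf : Topology.IsEmbedding f) {n : ℕ} {z : Sing Y n →₀ ℤ}
    (hz : z ∈ chainsIn (range f) n) : ∃ w : Sing X n →₀ ℤ, push f n w = z := by
  have := Helper534.HB.Sc.supported_map {σ : Sing Y n | range σ ⊆ range f} LinearMap.id
    (LinearMap.range (push f n)) (by
      intro σ hσ
      have hc : Continuous fun t => (hf.toHomeomorph.symm ⟨σ t, hσ ⟨t, rfl⟩⟩ : X) := by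
        exact hf.toHomeomorph.symm.continuous.comp (by fun_prop)
      refine ⟨Finsupp.single (⟨fun t => (hf.toHomeomorph.symm ⟨σ t, hσ ⟨t, rfl⟩⟩ : X), hc⟩ :
        Sing X n) 1, ?_⟩
      rw [push_single]
      congr 1
      ext t
      have := hf.toHomeomorph.apply_symm_apply ⟨σ t, hσ ⟨t, rfl⟩⟩
      exact congrArg Subtype.val this) z hz
  exact this

/-! ### small chains -/

theorem DD_small (𝒞 : Set (Set X)) (k : ℕ) (z : Sing X k →₀ ℤ)
    (hz : z ∈ Finsupp.supported ℤ ℤ (Helper534.HB.Sc.smallSet 𝒞 k)) :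
    Helper534.HB.Sc.DD 𝒞 k z = 0 := by
  have := Helper534.HB.Sc.supported_map (Helper534.HB.Sc.smallSet 𝒞 k)
    (Helper534.HB.Sc.DD 𝒞 k) ⊥ (by
    intro σ hσ
    rw [Helper534.HB.Sc.DD_single, Helper534.HB.Sc.mm_small 𝒞 σ hσ]
    simp) z hz
  simpa using this

theorem DD_mem (𝒞 : Set (Set X)) {A : Set X} {k : ℕ} {z : Sing X k →₀ ℤ}
    (hz : z ∈ chainsIn A k) : Helper534.HB.Sc.DD 𝒞 k z ∈ chainsIn A (k + 1) := by
  refine map_mem_chainsIn (Helper534.HB.Sc.DD 𝒞 k) ?_ hz
  intro σ hσ
  rw [Helper534.HB.Sc.DD_single]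
  apply Submodule.sum_mem
  intro i _
  rw [chainsIn_eq]
  apply Helper534.HB.Sc.TS_small
  apply Helper534.HB.Sc.Sd_iter_small
  apply Helper534.HB.Sc.single_mem_supported'
  exact ⟨A, rfl, hσ⟩

theorem mem_small_iff (U V : Set X) (n : ℕ) (z : Sing X n →₀ ℤ) :
    z ∈ Finsupp.supported ℤ ℤ (Helper534.HB.Sc.smallSet {U, V} n) ↔
      z ∈ chainsIn U n ⊔ chainsIn V n := by
  have hset : Helper534.HB.Sc.smallSet {U, V} n =
      {σ : Sing X n | range σ ⊆ U} ∪ {σ : Sing X n | range σ ⊆ V} := by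
    ext σ
    simp [Helper534.HB.Sc.smallSet]
  rw [hset, Finsupp.supported_union]
  rfl

/-- the chain `z` is a relative cycle with respect to the submodules `S n` -/
def BdIn (S : ∀ n, Submodule ℤ (Sing X n →₀ ℤ)) : ∀ n, (Sing X n →₀ ℤ) → Prop
  | 0, _ => True
  | (n + 1), z => bdry X n z ∈ S n

/-- Small chains theorem for two open sets covering the whole space. -/
theorem exists_small_univ (U V : Set X) (hU : IsOpen U) (hV : IsOpen V)
    (hUV : ∀ x, x ∈ U ∨ x ∈ V) (n : ℕ) (z : Sing X n →₀ ℤ)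
    (hz : BdIn (fun n => chainsIn U n ⊔ chainsIn V n) n z) :
    ∃ (z1 z2 : Sing X n →₀ ℤ) (h : Sing X (n + 1) →₀ ℤ), z1 ∈ chainsIn U n ∧
      z2 ∈ chainsIn V n ∧ z - bdry X n h = z1 + z2 := by
  cases n with
  | zero =>
    obtain ⟨u, v, huv⟩ := Helper534.HB.mv_zero U V hUV z
    refine ⟨_, _, 0, Helper534.HB.mvx_support U 0 u, Helper534.HB.mvx_support V 0 v, ?_⟩
    rw [map_zero, sub_zero]
    exact huv
  | succ n =>
    have hsm := Helper534.HB.Sc.rho_small {U, V} (Helper534.HB.mvx_open U V hU hV)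
      (Helper534.HB.mvx_cov U V hUV) (n + 1) z
    rw [mem_small_iff] at hsm
    obtain ⟨z1, h1, z2, h2, h12⟩ := Submodule.mem_sup.mp hsm
    refine ⟨z1, z2, Helper534.HB.Sc.DD {U, V} (n + 1) z, h1, h2, ?_⟩
    rw [h12, Helper534.HB.Sc.rho_succ]
    have h3 : Helper534.HB.Sc.DD {U, V} n (Helper534.HB.Sc.sbd X n z) = 0 := by
      apply DD_small
      rw [mem_small_iff]
      exact hz
    rw [h3, sub_zero]
    rfl

/-- Small chains theorem for the union of two open sets. -/
theorem exists_small (U V : Set X) (hU : IsOpen U) (hV : IsOpen V) (n : ℕ)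
    (z : Sing X n →₀ ℤ) (hzUV : z ∈ chainsIn (U ∪ V) n)
    (hz : BdIn (fun n => chainsIn U n ⊔ chainsIn V n) n z) :
    ∃ (z1 z2 : Sing X n →₀ ℤ) (h : Sing X (n + 1) →₀ ℤ), z1 ∈ chainsIn U n ∧
      z2 ∈ chainsIn V n ∧ h ∈ chainsIn (U ∪ V) (n + 1) ∧ z - bdry X n h = z1 + z2 := by
  set S : Set X := U ∪ V with hS
  let v : C(S, X) := ⟨Subtype.val, continuous_subtype_val⟩
  have hv : Topology.IsEmbedding v := Topology.IsEmbedding.subtypeVal
  have hvr : range v = S := Subtype.range_coe
  obtain ⟨w, hw⟩ := exists_lift v hv (z := z) (by rw [hvr]; exact hzUV)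
  have hwU : ∀ m, (chainsIn U m ⊔ chainsIn V m) ≤
      Finsupp.supported ℤ ℤ (Helper534.HB.Sc.smallSet {U, V} m) := by
    intro m y hy
    rw [mem_small_iff]
    exact hy
  obtain ⟨w1, w2, h, h1, h2, h12⟩ := exists_small_univ (X := S) (v ⁻¹' U) (v ⁻¹' V)
    (hU.preimage v.continuous) (hV.preimage v.continuous) (fun x => x.2) n w (by
      cases n with
      | zero => trivial
      | succ n =>
        have h3 : push v n (bdry S n w) ∈ chainsIn U n ⊔ chainsIn V n := by
          rw [← bdry_push, hw]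
          exact hz
        rw [← mem_small_iff] at h3
        change bdry S n w ∈ chainsIn (v ⁻¹' U) n ⊔ chainsIn (v ⁻¹' V) n
        rw [← mem_small_iff]
        classical
        rw [Finsupp.mem_supported] at h3 ⊢
        intro σ hσ
        have hinj : Function.Injective (fun σ : Sing S n => v.comp σ) := by
          intro σ τ hst
          ext t
          exact DFunLike.congr_fun hst t
        have h4 : v.comp σ ∈ ((push v n (bdry S n w)).support : Set (Sing X n)) := by
          simp only [push, Finsupp.lmapDomain_apply]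
          rw [Finset.mem_coe, Finsupp.mapDomain_support_of_injective hinj, Finset.mem_image]
          exact ⟨σ, hσ, rfl⟩
        obtain ⟨C, hC, h5⟩ := h3 h4
        rcases hC with rfl | hC
        · refine ⟨v ⁻¹' _, Or.inl rfl, ?_⟩
          rintro _ ⟨t, rfl⟩
          exact h5 ⟨t, rfl⟩
        · rw [mem_singleton_iff] at hC
          subst hC
          refine ⟨v ⁻¹' _, Or.inr rfl, ?_⟩
          rintro _ ⟨t, rfl⟩
          exact h5 ⟨t, rfl⟩)
  refine ⟨push v n w1, push v n w2, push v (n + 1) h, push_mem v (fun x hx => hx) h1,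
    push_mem v (fun x hx => hx) h2, push_mem v (fun x _ => x.2) (chainsIn_univ _ h), ?_⟩
  rw [← hw, bdry_push, ← map_sub, h12, map_add]

/-! ### acyclic pairs -/

/-- The pair `(B, A)` of subsets of `X` is acyclic: every relative cycle is a relative
boundary. -/
def PA (B A : Set X) : Prop := ∀ n : ℕ, ∀ z ∈ chainsIn B n, z ∈ relCyc A n →
  ∃ d ∈ chainsIn B (n + 1), z - bdry X n d ∈ chainsIn A n

theorem relCyc_mono {A B : Set X} (h : A ⊆ B) (n : ℕ) : relCyc A n ≤ relCyc B n := by
  cases n with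
  | zero => exact le_rfl
  | succ n => exact fun z hz => chainsIn_mono h n hz

theorem mem_relCyc_of_mem {A : Set X} {n : ℕ} {z : Sing X n →₀ ℤ} (hz : z ∈ chainsIn A n) :
    z ∈ relCyc A n := by
  cases n with
  | zero => exact Submodule.mem_top
  | succ n => exact bdry_mem hz

theorem bdry_mem_relCyc (A : Set X) {n : ℕ} (z : Sing X (n + 1) →₀ ℤ) :
    bdry X n z ∈ relCyc A n := by
  cases n with
  | zero => exact Submodule.mem_top
  | succ n =>
    change bdry X n (bdry X (n + 1) z) ∈ chainsIn A n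
    rw [bdry_bdry]
    exact Submodule.zero_mem _

theorem PA.refl (A : Set X) : PA A A := fun n z hz _ =>
  ⟨0, Submodule.zero_mem _, by rw [map_zero, sub_zero]; exact hz⟩

theorem PA.trans {B A C : Set X} (hAB : A ⊆ B) (h1 : PA B A) (h2 : PA A C)
    (hCA : C ⊆ A) : PA B C := by
  intro n z hz hzc
  obtain ⟨d, hd, hd2⟩ := h1 n z hz (relCyc_mono hCA n hzc)
  obtain ⟨e, he, he2⟩ := h2 n _ hd2 ((relCyc C n).sub_mem hzc (bdry_mem_relCyc C d))
  refine ⟨d + e, Submodule.add_mem _ hd (chainsIn_mono hAB _ he), ?_⟩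
  rw [map_add, ← sub_sub]
  exact he2

theorem PA.of_trans_left {B A C : Set X} (hAB : A ⊆ B) (hCA : C ⊆ A) (h1 : PA B C)
    (h2 : PA A C) : PA B A := by
  intro n z hz hzc
  cases n with
  | zero =>
    obtain ⟨d, hd, hd2⟩ := h1 0 z hz Submodule.mem_top
    exact ⟨d, hd, chainsIn_mono hCA _ hd2⟩
  | succ n =>
    obtain ⟨e, he, he2⟩ := h2 n (bdry X n z) hzc (bdry_mem_relCyc C z)
    obtain ⟨d, hd, hd2⟩ := h1 (n + 1) (z - e)
      (Submodule.sub_mem _ hz (chainsIn_mono hAB _ he)) (by
        change bdry X n (z - e) ∈ chainsIn C n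
        rw [map_sub]
        exact he2)
    refine ⟨d, hd, ?_⟩
    have h3 := Submodule.add_mem _ (chainsIn_mono hCA _ hd2) he
    have h4 : z - e - bdry X (n + 1) d + e = z - bdry X (n + 1) d := by abel
    rwa [h4] at h3

theorem PA.of_trans_right {B A C : Set X} (hAB : A ⊆ B) (hCA : C ⊆ A) (h1 : PA B C)
    (h2 : PA B A) : PA A C := by
  intro n z hz hzc
  obtain ⟨d, hd, hd2⟩ := h1 n z (chainsIn_mono hAB _ hz) hzc
  have h3 : bdry X n d ∈ chainsIn A n := by
    have := Submodule.sub_mem _ hz (chainsIn_mono hCA _ hd2)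
    rwa [sub_sub_cancel] at this
  obtain ⟨e, he, he2⟩ := h2 (n + 1) d hd h3
  refine ⟨d - bdry X (n + 1) e, he2, ?_⟩
  rw [map_sub, bdry_bdry, sub_zero]
  exact hd2

/-- Excision. -/
theorem PA.excision {U V : Set X} (hU : IsOpen U) (hV : IsOpen V) (h : PA V (U ∩ V)) :
    PA (U ∪ V) U := by
  intro n z hz hzc
  obtain ⟨z1, z2, e, h1, h2, he, h12⟩ := exists_small U V hU hV n z hz (by
    cases n with
    | zero => trivial
    | succ n => exact Submodule.mem_sup_left hzc)
  have h3 : z2 ∈ relCyc (U ∩ V) n := by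
    cases n with
    | zero => exact Submodule.mem_top
    | succ n =>
      change bdry X n z2 ∈ chainsIn (U ∩ V) n
      apply chainsIn_inter
      · have h4 : z2 = z - bdry X (n + 1) e - z1 := by rw [h12]; abel
        rw [h4, map_sub, map_sub, bdry_bdry, sub_zero]
        exact Submodule.sub_mem _ hzc (bdry_mem h1)
      · exact bdry_mem h2
  obtain ⟨d, hd, hd2⟩ := h n z2 h2 h3
  refine ⟨e + d, Submodule.add_mem _ he (chainsIn_mono subset_union_right _ hd), ?_⟩
  have h5 : z - bdry X n (e + d) = z1 + (z2 - bdry X n d) := by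
    rw [map_add, ← sub_sub, h12]; abel
  rw [h5]
  exact Submodule.add_mem _ h1 (chainsIn_mono inter_subset_left _ hd2)

/-- Excision, the other direction. -/
theorem PA.excision' {U V : Set X} (hU : IsOpen U) (hV : IsOpen V) (h : PA (U ∪ V) U) :
    PA V (U ∩ V) := by
  intro n z hz hzc
  obtain ⟨d, hd, hd2⟩ := h n z (chainsIn_mono subset_union_right _ hz)
    (relCyc_mono inter_subset_left n hzc)
  obtain ⟨d1, d2, e, h1, h2, he, h12⟩ := exists_small U V hU hV (n + 1) d hd (by
    change bdry X n d ∈ chainsIn U n ⊔ chainsIn V n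
    have : bdry X n d = -(z - bdry X n d) + z := by abel
    rw [this]
    exact Submodule.add_mem_sup (Submodule.neg_mem _ hd2) hz)
  refine ⟨d2, h2, ?_⟩
  have h3 : bdry X n d = bdry X n d1 + bdry X n d2 := by
    have := congrArg (bdry X n) h12
    rwa [map_sub, bdry_bdry, sub_zero, map_add] at this
  apply chainsIn_inter
  · have h4 : z - bdry X n d2 = (z - bdry X n d) + bdry X n d1 := by rw [h3]; abel
    rw [h4]
    exact Submodule.add_mem _ hd2 (bdry_mem h1)
  · exact Submodule.sub_mem _ hz (bdry_mem h2)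

/-- The Mayer-Vietoris step: a relative cycle of `(U ∩ V, A)` which bounds in `(U, A)` and in
`(V, A)` bounds in `(U ∩ V, A)`, if `(U ∪ V, A)` is acyclic. -/
theorem mv_step {U V A : Set X} (hU : IsOpen U) (hV : IsOpen V) (hA : A ⊆ U ∩ V)
    (h : PA (U ∪ V) A) (n : ℕ) (z : Sing X n →₀ ℤ)
    (h1 : ∃ d ∈ chainsIn U (n + 1), z - bdry X n d ∈ chainsIn A n)
    (h2 : ∃ d ∈ chainsIn V (n + 1), z - bdry X n d ∈ chainsIn A n) :
    ∃ d ∈ chainsIn (U ∩ V) (n + 1), z - bdry X n d ∈ chainsIn A n := by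
  obtain ⟨d1, hd1, e1⟩ := h1
  obtain ⟨d2, hd2, e2⟩ := h2
  obtain ⟨g, hg, e3⟩ := h (n + 1) (d1 - d2) (Submodule.sub_mem _
    (chainsIn_mono subset_union_left _ hd1) (chainsIn_mono subset_union_right _ hd2)) (by
      change bdry X n (d1 - d2) ∈ chainsIn A n
      have : bdry X n (d1 - d2) = (z - bdry X n d2) - (z - bdry X n d1) := by
        rw [map_sub]; abel
      rw [this]
      exact Submodule.sub_mem _ e2 e1)
  obtain ⟨g1, g2, k, hg1, hg2, _, h12⟩ := exists_small U V hU hV (n + 2) g hg (by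
    change bdry X (n + 1) g ∈ chainsIn U (n + 1) ⊔ chainsIn V (n + 1)
    have : bdry X (n + 1) g = (d1 - (d1 - d2 - bdry X (n + 1) g)) + (- d2) := by abel
    rw [this]
    refine Submodule.add_mem_sup (Submodule.sub_mem _ hd1 ?_) (Submodule.neg_mem _ hd2)
    exact chainsIn_mono (hA.trans inter_subset_left) _ e3)
  have h3 : bdry X (n + 1) g = bdry X (n + 1) g1 + bdry X (n + 1) g2 := by
    have := congrArg (bdry X (n + 1)) h12
    rwa [map_sub, bdry_bdry, sub_zero, map_add] at this
  refine ⟨d2 + bdry X (n + 1) g2, ?_, ?_⟩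
  · apply chainsIn_inter
    · have h4 : d2 + bdry X (n + 1) g2 =
          d1 - (d1 - d2 - bdry X (n + 1) g) - bdry X (n + 1) g1 := by rw [h3]; abel
      rw [h4]
      exact Submodule.sub_mem _ (Submodule.sub_mem _ hd1
        (chainsIn_mono (hA.trans inter_subset_left) _ e3)) (bdry_mem hg1)
    · exact Submodule.add_mem _ hd2 (bdry_mem hg2)
  · rw [map_add, bdry_bdry, add_zero]
    exact e2

/-! ### transfer along embeddings -/

theorem push_comp_lift (f : C(X, Y)) (hf : Topology.IsEmbedding f) {A : Set X} {n : ℕ}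
    {z : Sing Y n →₀ ℤ} (hz : z ∈ chainsIn (f '' A) n) :
    ∃ w ∈ chainsIn A n, push f n w = z := by
  obtain ⟨w, hw⟩ := exists_lift f hf (chainsIn_mono (image_subset_range f A) n hz)
  refine ⟨w, ?_, hw⟩
  have := mem_of_push_mem f hf.injective (B := f '' A) (z := w) (by rw [hw]; exact hz)
  rwa [preimage_image_eq _ hf.injective] at this

theorem PA.image (f : C(X, Y)) (hf : Topology.IsEmbedding f) {B A : Set X} (h : PA B A) :
    PA (f '' B) (f '' A) := by
  intro n z hz hzc
  obtain ⟨w, hw, rfl⟩ := push_comp_lift f hf hz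
  obtain ⟨d, hd, hd2⟩ := h n w hw (by
    cases n with
    | zero => exact Submodule.mem_top
    | succ n =>
      change bdry X n w ∈ chainsIn A n
      have h1 : push f n (bdry X n w) ∈ chainsIn (f '' A) n := by
        rw [← bdry_push]; exact hzc
      have := mem_of_push_mem f hf.injective h1
      rwa [preimage_image_eq _ hf.injective] at this)
  refine ⟨push f (n + 1) d, push_mem f (mapsTo_image f B) hd, ?_⟩
  rw [bdry_push, ← map_sub]
  exact push_mem f (mapsTo_image f A) hd2

theorem PA.of_image (f : C(X, Y)) (hf : Topology.IsEmbedding f) {B A : Set X}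
    (h : PA (f '' B) (f '' A)) : PA B A := by
  intro n z hz hzc
  obtain ⟨d, hd, hd2⟩ := h n (push f n z) (push_mem f (mapsTo_image f B) hz) (by
    cases n with
    | zero => exact Submodule.mem_top
    | succ n =>
      change bdry Y n (push f (n + 1) z) ∈ chainsIn (f '' A) n
      rw [bdry_push]
      exact push_mem f (mapsTo_image f A) hzc)
  obtain ⟨e, he, rfl⟩ := push_comp_lift f hf hd
  refine ⟨e, he, ?_⟩
  rw [bdry_push, ← map_sub] at hd2
  have := mem_of_push_mem f hf.injective hd2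
  rwa [preimage_image_eq _ hf.injective] at this

/-! ### homotopies -/

theorem PD_mem {Z : Type} [TopologicalSpace Z] (H : C(X × unitInterval, Z)) {A : Set X}
    {B : Set Z} (h : ∀ x ∈ A, ∀ t, H (x, t) ∈ B) {k : ℕ} {z : Sing X k →₀ ℤ}
    (hz : z ∈ chainsIn A k) : Helper534.HB.Sc.PD H k z ∈ chainsIn B (k + 1) := by
  refine map_mem_chainsIn (Helper534.HB.Sc.PD H k) ?_ hz
  intro σ hσ
  rw [Helper534.HB.Sc.PD_single]
  have hu : Helper534.HB.Sc.PR (stdSimplex ℝ (Fin (k + 1))) k
      (single (Helper534.HB.Sc.vert k) 1) ∈ Finsupp.supported ℤ ℤ univ := by simp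
  refine Helper534.HB.Sc.supported_map univ _ (chainsIn B (k + 1)) ?_ _ hu
  intro a _
  rw [Helper534.HB.Sc.ppush_single]
  apply single_mem_chainsIn
  rintro _ ⟨t, rfl⟩
  exact h _ (hσ ⟨_, rfl⟩) _

/-- The prism formula for the difference of two homotopic maps, modulo chains in `B`. -/
theorem prism (H : C(X × unitInterval, Y)) (f g : C(X, Y)) (h0 : ∀ x, H (x, 0) = f x)
    (h1 : ∀ x, H (x, 1) = g x) {A : Set X} {B : Set Y} (h : ∀ x ∈ A, ∀ t, H (x, t) ∈ B) (n : ℕ)
    (z : Sing X n →₀ ℤ) (hz : z ∈ relCyc A n) :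
    push g n z - push f n z - bdry Y n (Helper534.HB.Sc.PD H n z) ∈ chainsIn B n := by
  have e0 : Helper534.HB.Sc.slice H 0 = f := ContinuousMap.ext h0
  have e1 : Helper534.HB.Sc.slice H 1 = g := ContinuousMap.ext h1
  cases n with
  | zero =>
    have := Helper534.HB.Sc.sbd_PD_zero H z
    rw [e0, e1] at this
    have h2 : push g 0 z - push f 0 z - bdry Y 0 (Helper534.HB.Sc.PD H 0 z) = 0 :=
      sub_eq_zero.2 this.symm
    rw [h2]
    exact Submodule.zero_mem _
  | succ n =>
    have := Helper534.HB.Sc.sbd_PD H n z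
    rw [e0, e1] at this
    have h2 : push g (n + 1) z - push f (n + 1) z -
        bdry Y (n + 1) (Helper534.HB.Sc.PD H (n + 1) z) =
        Helper534.HB.Sc.PD H n (bdry X n z) := by
      have h3 : push g (n + 1) z - push f (n + 1) z =
          bdry Y (n + 1) (Helper534.HB.Sc.PD H (n + 1) z) +
          Helper534.HB.Sc.PD H n (bdry X n z) := this.symm
      rw [h3, add_sub_cancel_left]
    rw [h2]
    exact PD_mem H h hz

theorem push_id (n : ℕ) (z : Sing X n →₀ ℤ) : push (ContinuousMap.id X) n z = z :=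
  Helper534.HB.push_id n z

/-- A space `X` which can be deformed into `A` with `A` invariant: the pair is acyclic. -/
theorem PA.of_homotopy (H : C(X × unitInterval, X)) {A : Set X} (h0 : ∀ x, H (x, 0) = x)
    (hA : ∀ x ∈ A, ∀ t, H (x, t) ∈ A) (h1 : ∀ x, H (x, 1) ∈ A) : PA (univ : Set X) A := by
  intro n z _ hz
  let g : C(X, X) := ⟨fun x => H (x, 1), by fun_prop⟩
  have h := prism H (ContinuousMap.id X) g h0 (fun _ => rfl) hA n z hz
  rw [push_id] at h
  refine ⟨-(Helper534.HB.Sc.PD H n z), chainsIn_univ _ _, ?_⟩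
  have h2 : push g n z ∈ chainsIn A n := push_mem g (fun x _ => h1 x) (chainsIn_univ n z)
  have h3 := Submodule.sub_mem _ h2 h
  have h4 : push g n z - (push g n z - z - bdry X n (Helper534.HB.Sc.PD H n z)) =
      z - bdry X n (-(Helper534.HB.Sc.PD H n z)) := by
    rw [map_neg]; abel
  rwa [h4] at h3

/-- The same for a subset `B` of `X` and a homotopy defined on `B` only. -/
theorem PA.of_homotopyOn {B A : Set X} (hAB : A ⊆ B) (H : X × unitInterval → X)
    (hc : ContinuousOn H (B ×ˢ univ)) (hB : ∀ x ∈ B, ∀ t, H (x, t) ∈ B)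
    (h0 : ∀ x ∈ B, H (x, 0) = x)
    (hA : ∀ x ∈ A, ∀ t, H (x, t) ∈ A) (h1 : ∀ x ∈ B, H (x, 1) ∈ A) : PA B A := by
  let v : C(B, X) := ⟨Subtype.val, continuous_subtype_val⟩
  have hv : Topology.IsEmbedding v := Topology.IsEmbedding.subtypeVal
  have hcc : Continuous fun p : B × unitInterval => H (p.1.1, p.2) := by
    have : Continuous fun p : B × unitInterval => ((p.1.1, p.2) : X × unitInterval) := by
      fun_prop
    exact hc.comp_continuous this fun p => ⟨p.1.2, mem_univ _⟩
  let H' : C(B × unitInterval, B) :=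
    ⟨fun p => ⟨H (p.1.1, p.2), hB _ p.1.2 _⟩, hcc.subtype_mk _⟩
  have h := PA.of_homotopy H' (A := v ⁻¹' A) (fun x => Subtype.ext (h0 _ x.2))
    (fun x hx t => hA _ hx t) (fun x => h1 _ x.2)
  have h2 := h.image v hv
  have e1 : v '' univ = B := by rw [image_univ]; exact Subtype.range_coe
  have e2 : v '' (v ⁻¹' A) = A := by
    rw [image_preimage_eq_inter_range]
    have : range v = B := Subtype.range_coe
    rw [this, inter_eq_left]
    exact hAB
  rwa [e1, e2] at h2

end Pool.Agent.H110
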