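import Pool.Agent.H110.Hom

/-! Local homology: locality, suspension, Euclidean spaces, half-spaces. -/

set_option autoImplicit false

namespace Pool.Agent.H110

open Set Finsupp

variable {X : Type} [TopologicalSpace X] {Y : Type} [TopologicalSpace Y]

/-- Isomorphisms between subquotients. -/
theorem quotEquiv {M M' : Type} [AddCommGroup M] [AddCommGroup M'] (C D : Submodule ℤ M)
    (C' D' : Submodule ℤ M') (L : M →ₗ[ℤ] M') (hC : ∀ z ∈ C, L z ∈ C')
    (hD : ∀ z ∈ C, z ∈ D → L z ∈ D') (inj : ∀ z ∈ C, L z ∈ D' → z ∈ D)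
    (surj : ∀ b ∈ C', ∃ z ∈ C, b - L z ∈ D') :
    Nonempty ((C ⧸ D.submoduleOf C) ≃ₗ[ℤ] (C' ⧸ D'.submoduleOf C')) := by
  let F : (C ⧸ D.submoduleOf C) →ₗ[ℤ] (C' ⧸ D'.submoduleOf C') :=
    Submodule.mapQ _ _ (L.restrict hC) (by
      intro z hz
      exact hD z.1 z.2 hz)
  refine ⟨LinearEquiv.ofBijective F ⟨?_, ?_⟩⟩
  · rw [← LinearMap.ker_eq_bot, Submodule.eq_bot_iff]
    intro x hx
    obtain ⟨z, rfl⟩ := Submodule.Quotient.mk_surjective _ x
    have h1 : (Submodule.Quotient.mk ((L.restrict hC) z) : C' ⧸ D'.submoduleOf C') = 0 := hx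
    rw [Submodule.Quotient.mk_eq_zero] at h1 ⊢
    exact inj z.1 z.2 h1
  · intro y
    obtain ⟨b, rfl⟩ := Submodule.Quotient.mk_surjective _ y
    obtain ⟨z, hz, h1⟩ := surj b.1 b.2
    refine ⟨Submodule.Quotient.mk ⟨z, hz⟩, ?_⟩
    change (Submodule.Quotient.mk ((L.restrict hC) ⟨z, hz⟩) : C' ⧸ D'.submoduleOf C') = _
    symm
    rw [Submodule.Quotient.eq]
    exact h1

/-- The relative homology of the pair `(B, A)` of subsets of `X`. -/
abbrev RH (B A : Set X) (n : ℕ) : Type :=
  ↥(chainsIn B n ⊓ relCyc A n) ⧸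
    ((chainsIn B (n + 1)).map (bdry X n) ⊔ chainsIn A n).submoduleOf (chainsIn B n ⊓ relCyc A n)

theorem subsingleton_of_PA {A : Set X} (h : PA (univ : Set X) A) (n : ℕ) :
    Subsingleton (RelHomology X A n) := by
  refine ⟨fun a b => ?_⟩
  obtain ⟨a, rfl⟩ := Submodule.Quotient.mk_surjective _ a
  obtain ⟨b, rfl⟩ := Submodule.Quotient.mk_surjective _ b
  rw [Submodule.Quotient.eq]
  change (a.1 - b.1) ∈ relBdy A n
  obtain ⟨d, _, hd⟩ := h n (a.1 - b.1) (chainsIn_univ _ _) (Submodule.sub_mem _ a.2 b.2)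
  have : a.1 - b.1 = bdry X n d + (a.1 - b.1 - bdry X n d) := by abel
  rw [this]
  exact Submodule.add_mem_sup ⟨d, rfl⟩ hd

theorem PA_of_subsingleton {A : Set X} (h : ∀ n, Subsingleton (RelHomology X A n)) :
    PA (univ : Set X) A := by
  intro n z _ hzc
  have h1 : (Submodule.Quotient.mk ⟨z, hzc⟩ : RelHomology X A n) = 0 := Subsingleton.elim _ _
  rw [Submodule.Quotient.mk_eq_zero] at h1
  have h2 : z ∈ relBdy A n := h1
  obtain ⟨_, ⟨d, rfl⟩, c, hc, hdc⟩ := Submodule.mem_sup.mp h2
  refine ⟨d, chainsIn_univ _ _, ?_⟩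
  rw [← hdc, add_sub_cancel_left]
  exact hc

theorem SameLocalHomology.symm {x : X} {y : Y} (h : SameLocalHomology X x Y y) :
    SameLocalHomology Y y X x := fun n => (h n).map LinearEquiv.symm

theorem SameLocalHomology.trans {Z : Type} [TopologicalSpace Z] {x : X} {y : Y} {z : Z}
    (h : SameLocalHomology X x Y y) (h' : SameLocalHomology Y y Z z) :
    SameLocalHomology X x Z z := fun n => by
  obtain ⟨a⟩ := h n
  obtain ⟨b⟩ := h' n
  exact ⟨a.trans b⟩

theorem SameLocalHomology.of_PA {x : X} {y : Y} (h : PA (univ : Set X) {x}ᶜ)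
    (h' : PA (univ : Set Y) {y}ᶜ) : SameLocalHomology X x Y y := fun n => by
  have h1 : Subsingleton (LocalHomology X x n) := subsingleton_of_PA h n
  have h2 : Subsingleton (LocalHomology Y y n) := subsingleton_of_PA h' n
  exact ⟨{ toFun := fun _ => 0, invFun := fun _ => 0, map_add' := fun _ _ => by simp,
           map_smul' := fun _ _ => by simp, left_inv := fun _ => Subsingleton.elim _ _,
           right_inv := fun _ => Subsingleton.elim _ _ }⟩

theorem PA_of_same {x : X} {y : Y} (h : SameLocalHomology X x Y y)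
    (h' : PA (univ : Set Y) {y}ᶜ) : PA (univ : Set X) {x}ᶜ := by
  apply PA_of_subsingleton
  intro n
  have h2 : Subsingleton (LocalHomology Y y n) := subsingleton_of_PA h' n
  obtain ⟨a⟩ := h n
  exact a.toEquiv.subsingleton

/-- Locality of local homology. -/
theorem SameLocalHomology.of_isOpenEmbedding [T1Space Y] (e : C(X, Y))
    (he : Topology.IsOpenEmbedding e) (x : X) : SameLocalHomology X x Y (e x) := by
  intro n
  have hinj := he.injective
  have hpre : e ⁻¹' {e x}ᶜ = {x}ᶜ := by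
    ext y; simp [hinj.eq_iff]
  have hmap : MapsTo e ({x}ᶜ : Set X) {e x}ᶜ := by
    intro y hy h
    exact hy (hinj h)
  have hcyc : ∀ n, ∀ z ∈ relCyc ({x}ᶜ : Set X) n, push e n z ∈ relCyc ({e x}ᶜ : Set Y) n := by
    intro n z hz
    cases n with
    | zero => exact Submodule.mem_top
    | succ n =>
      change bdry Y n (push e (n + 1) z) ∈ chainsIn _ n
      rw [bdry_push]
      exact push_mem e hmap hz
  have hcov : ∀ y : Y, y ∈ range e ∨ y ∈ ({e x}ᶜ : Set Y) := by
    intro y
    by_cases h : y = e x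
    · left; rw [h]; exact mem_range_self x
    · right; exact h
  refine quotEquiv _ _ _ _ (push e n) (hcyc n) ?_ ?_ ?_
  · intro z _ hz
    obtain ⟨_, ⟨d, rfl⟩, c, hc, hdc⟩ := Submodule.mem_sup.mp hz
    rw [← hdc, map_add, ← bdry_push]
    exact Submodule.add_mem_sup ⟨_, rfl⟩ (push_mem e hmap hc)
  · intro z hz hzb
    obtain ⟨_, ⟨g, rfl⟩, c, hc, hgc⟩ := Submodule.mem_sup.mp hzb
    have hr : push e n z ∈ chainsIn (range e) n :=
      push_mem e (fun y _ => mem_range_self y) (chainsIn_univ n z)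
    obtain ⟨g1, g2, k, h1, h2, h12⟩ := exists_small_univ (range e) {e x}ᶜ he.isOpen_range
      isOpen_compl_singleton hcov (n + 1) g (by
        change bdry Y n g ∈ chainsIn _ n ⊔ chainsIn _ n
        have : bdry Y n g = push e n z + (- c) := by rw [← hgc]; abel
        rw [this]
        exact Submodule.add_mem_sup hr (Submodule.neg_mem _ hc))
    have h3 : bdry Y n g = bdry Y n g1 + bdry Y n g2 := by
      have := congrArg (bdry Y n) h12
      rwa [map_sub, bdry_bdry, sub_zero, map_add] at this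
    obtain ⟨w, hw⟩ := exists_lift e he.isEmbedding h1
    have h4 : push e n (z - bdry X n w) ∈ chainsIn ({e x}ᶜ : Set Y) n := by
      rw [map_sub, ← bdry_push, hw, ← hgc, h3]
      have : bdry Y n g1 + bdry Y n g2 + c - bdry Y n g1 = bdry Y n g2 + c := by abel
      rw [this]
      exact Submodule.add_mem _ (bdry_mem h2) hc
    have h5 := mem_of_push_mem e hinj h4
    rw [hpre] at h5
    have h6 : z = bdry X n w + (z - bdry X n w) := by abel
    rw [h6]
    exact Submodule.add_mem_sup ⟨w, rfl⟩ h5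
  · intro b hb
    obtain ⟨b1, b2, k, h1, h2, h12⟩ := exists_small_univ (range e) {e x}ᶜ he.isOpen_range
      isOpen_compl_singleton hcov n b (by
        cases n with
        | zero => trivial
        | succ n => exact Submodule.mem_sup_right hb)
    obtain ⟨w, hw⟩ := exists_lift e he.isEmbedding h1
    refine ⟨w, ?_, ?_⟩
    · cases n with
      | zero => exact Submodule.mem_top
      | succ n =>
        change bdry X n w ∈ chainsIn _ n
        have h3 : push e n (bdry X n w) ∈ chainsIn ({e x}ᶜ : Set Y) n := by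
          rw [← bdry_push, hw]
          have : b1 = b - bdry Y (n + 1) k - b2 := by rw [h12]; abel
          rw [this, map_sub, map_sub, bdry_bdry, sub_zero]
          exact Submodule.sub_mem _ hb (bdry_mem h2)
        have := mem_of_push_mem e hinj h3
        rwa [hpre] at this
    · have : b - push e n w = bdry Y n k + b2 := by
        rw [hw]
        have h3 : b = bdry Y n k + (b1 + b2) := by rw [← h12]; abel
        rw [h3]; abel
      rw [this]
      exact Submodule.add_mem_sup ⟨k, rfl⟩ h2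

theorem SameLocalHomology.of_homeo [T1Space Y] (e : X ≃ₜ Y) (x : X) :
    SameLocalHomology X x Y (e x) :=
  SameLocalHomology.of_isOpenEmbedding ⟨e, e.continuous⟩ e.isOpenEmbedding x

/-! ### suspension -/

section Suspension

variable (x : X)

/-- the complement of `(0, x)` in `ℝ × X` -/
private def PP : Set (ℝ × X) := {((0 : ℝ), x)}ᶜ
private def Pp : Set (ℝ × X) := {p | 0 < p.1 ∨ p.2 ≠ x}
private def Pm : Set (ℝ × X) := {p | p.1 < 0 ∨ p.2 ≠ x}
private def QQ : Set (ℝ × X) := {p | p.2 ≠ x}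

private theorem union_P : Pp x ∪ Pm x = PP x := by
  ext ⟨t, y⟩
  simp only [Pp, Pm, PP, mem_union, mem_ofPred_eq, mem_compl_iff, mem_singleton_iff,
    Prod.mk.injEq, not_and]
  constructor
  · rintro ((h | h) | (h | h)) h0
    · exact absurd h0 h.ne'
    · exact h
    · exact absurd h0 h.ne
    · exact h
  · intro h
    by_cases hy : y = x
    · have h0 : t ≠ 0 := fun h0 => h h0 hy
      rcases lt_or_gt_of_ne h0 with h1 | h1
      · right; left; exact h1
      · left; left; exact h1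
    · left; right; exact hy

private theorem inter_P : Pp x ∩ Pm x = QQ x := by
  ext ⟨t, y⟩
  simp only [Pp, Pm, QQ, mem_inter_iff, mem_ofPred_eq]
  constructor
  · rintro ⟨h | h, h' | h'⟩
    · exact absurd h (not_lt.2 h'.le)
    · exact h'
    · exact h
    · exact h
  · intro h; exact ⟨Or.inr h, Or.inr h⟩

private theorem PA_Pp : PA (univ : Set (ℝ × X)) (Pp x) := by
  let H : C((ℝ × X) × unitInterval, ℝ × X) :=
    ⟨fun p => (p.1.1 + p.2 * (|p.1.1| + 1), p.1.2), by fun_prop⟩
  refine PA.of_homotopy H (fun p => ?_) (fun p hp t => ?_) (fun p => ?_)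
  · change (p.1 + ((0 : unitInterval) : ℝ) * _, p.2) = p
    simp
  · change 0 < p.1 + t * (|p.1| + 1) ∨ p.2 ≠ x
    rcases hp with hp | hp
    · left
      have := t.2.1
      positivity
    · exact Or.inr hp
  · change 0 < p.1 + ((1 : unitInterval) : ℝ) * (|p.1| + 1) ∨ p.2 ≠ x
    left
    have := neg_abs_le p.1
    rw [show ((1 : unitInterval) : ℝ) = 1 from rfl, one_mul]
    linarith

private theorem PA_Pm : PA (univ : Set (ℝ × X)) (Pm x) := by
  let H : C((ℝ × X) × unitInterval, ℝ × X) :=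
    ⟨fun p => (p.1.1 - p.2 * (|p.1.1| + 1), p.1.2), by fun_prop⟩
  refine PA.of_homotopy H (fun p => ?_) (fun p hp t => ?_) (fun p => ?_)
  · change (p.1 - ((0 : unitInterval) : ℝ) * _, p.2) = p
    simp
  · change p.1 - t * (|p.1| + 1) < 0 ∨ p.2 ≠ x
    rcases hp with hp | hp
    · left
      have h1 := t.2.1
      have h2 : 0 ≤ (t : ℝ) * (|p.1| + 1) := by positivity
      linarith
    · exact Or.inr hp
  · change p.1 - ((1 : unitInterval) : ℝ) * (|p.1| + 1) < 0 ∨ p.2 ≠ x
    left
    have := le_abs_self p.1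
    rw [show ((1 : unitInterval) : ℝ) = 1 from rfl, one_mul]
    linarith

private theorem Pp_sub : Pp x ⊆ PP x := by rw [← union_P]; exact subset_union_left
private theorem QQ_sub : QQ x ⊆ Pm x := by rw [← inter_P]; exact inter_subset_right
private theorem QQ_sub' : QQ x ⊆ Pp x := by rw [← inter_P]; exact inter_subset_left

variable [T1Space X]

private theorem open_Pp : IsOpen (Pp x) := by
  apply IsOpen.union
  · exact isOpen_lt continuous_const continuous_fst
  · exact isOpen_compl_singleton.preimage continuous_snd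

private theorem open_Pm : IsOpen (Pm x) := by
  apply IsOpen.union
  · exact isOpen_lt continuous_fst continuous_const
  · exact isOpen_compl_singleton.preimage continuous_snd

omit [T1Space X] in
private theorem susp1 (n : ℕ) :
    Nonempty (RelHomology (ℝ × X) (PP x) (n + 1) ≃ₗ[ℤ] RH (PP x) (Pp x) n) := by
  refine quotEquiv _ _ _ _ (bdry (ℝ × X) n) ?_ ?_ ?_ ?_
  · intro z hz
    exact ⟨hz, bdry_mem_relCyc _ z⟩
  · intro z _ hz
    obtain ⟨_, ⟨d, rfl⟩, c, hc, hdc⟩ := Submodule.mem_sup.mp hz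
    rw [← hdc, map_add, bdry_bdry, zero_add]
    exact Submodule.mem_sup_left ⟨c, hc, rfl⟩
  · intro z hz hzb
    obtain ⟨_, ⟨a, ha, rfl⟩, b, hb, hab⟩ := Submodule.mem_sup.mp hzb
    obtain ⟨e, _, he⟩ := PA_Pp x (n + 1) (z - a) (chainsIn_univ _ _) (by
      change bdry _ n (z - a) ∈ chainsIn _ n
      rw [map_sub, ← hab, add_sub_cancel_left]
      exact hb)
    have h1 : z = bdry (ℝ × X) (n + 1) e + (a + (z - a - bdry (ℝ × X) (n + 1) e)) := by abel
    rw [h1]
    exact Submodule.add_mem_sup ⟨e, rfl⟩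
      (Submodule.add_mem _ ha (chainsIn_mono (Pp_sub x) _ he))
  · rintro w ⟨hw, hw2⟩
    obtain ⟨d, _, hd⟩ := PA_Pp x n w (chainsIn_univ _ _) hw2
    refine ⟨d, ?_, Submodule.mem_sup_right hd⟩
    change bdry _ n d ∈ chainsIn _ n
    have : bdry (ℝ × X) n d = w - (w - bdry (ℝ × X) n d) := by abel
    rw [this]
    exact Submodule.sub_mem _ hw (chainsIn_mono (Pp_sub x) _ hd)

private theorem susp2 (n : ℕ) :
    Nonempty (RH (Pm x) (QQ x) n ≃ₗ[ℤ] RH (PP x) (Pp x) n) := by
  have hmP : Pm x ⊆ PP x := by rw [← union_P]; exact subset_union_right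
  refine quotEquiv _ _ _ _ LinearMap.id ?_ ?_ ?_ ?_
  · rintro z ⟨hz1, hz2⟩
    exact ⟨chainsIn_mono hmP _ hz1, relCyc_mono (QQ_sub' x) _ hz2⟩
  · rintro z _ hz
    obtain ⟨_, ⟨a, ha, rfl⟩, b, hb, hab⟩ := Submodule.mem_sup.mp hz
    rw [← hab]
    exact Submodule.add_mem_sup ⟨a, chainsIn_mono hmP _ ha, rfl⟩
      (chainsIn_mono (QQ_sub' x) _ hb)
  · rintro w ⟨hw1, hw2⟩ hw
    obtain ⟨_, ⟨a, ha, rfl⟩, b, hb, hab⟩ := Submodule.mem_sup.mp hw
    have hab' : bdry (ℝ × X) n a + b = w := hab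
    obtain ⟨a1, a2, k, h1, h2, _, h12⟩ := exists_small (Pp x) (Pm x) (open_Pp x) (open_Pm x)
      (n + 1) a (by rw [union_P]; exact ha) (by
        change bdry _ n a ∈ chainsIn _ n ⊔ chainsIn _ n
        have : bdry (ℝ × X) n a = (-b) + w := by rw [← hab']; abel
        rw [this]
        exact Submodule.add_mem_sup (Submodule.neg_mem _ hb) hw1)
    have h3 : bdry (ℝ × X) n a = bdry (ℝ × X) n a1 + bdry (ℝ × X) n a2 := by
      have := congrArg (bdry (ℝ × X) n) h12
      rwa [map_sub, bdry_bdry, sub_zero, map_add] at this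
    have h4 : w = bdry (ℝ × X) n a2 + (w - bdry (ℝ × X) n a2) := by abel
    rw [h4]
    refine Submodule.add_mem_sup ⟨a2, h2, rfl⟩ ?_
    rw [← inter_P]
    apply chainsIn_inter
    · have : w - bdry (ℝ × X) n a2 = b + bdry (ℝ × X) n a1 := by rw [← hab', h3]; abel
      rw [this]
      exact Submodule.add_mem _ hb (bdry_mem h1)
    · exact Submodule.sub_mem _ hw1 (bdry_mem h2)
  · rintro w ⟨hw1, hw2⟩
    obtain ⟨w1, w2, k, h1, h2, hk, h12⟩ := exists_small (Pp x) (Pm x) (open_Pp x) (open_Pm x)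
      n w (by rw [union_P]; exact hw1) (by
        cases n with
        | zero => trivial
        | succ n => exact Submodule.mem_sup_left hw2)
    refine ⟨w2, ⟨h2, ?_⟩, ?_⟩
    · cases n with
      | zero => exact Submodule.mem_top
      | succ n =>
        change bdry _ n w2 ∈ chainsIn _ n
        rw [← inter_P]
        apply chainsIn_inter
        · have h4 : w2 = w - bdry (ℝ × X) (n + 1) k - w1 := by rw [h12]; abel
          rw [h4, map_sub, map_sub, bdry_bdry, sub_zero]
          exact Submodule.sub_mem _ hw2 (bdry_mem h1)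
        · exact bdry_mem h2
    · have : w - (LinearMap.id : _ →ₗ[ℤ] _) w2 = bdry (ℝ × X) n k + w1 := by
        have h3 : w = bdry (ℝ × X) n k + (w1 + w2) := by rw [← h12]; abel
        change w - w2 = _
        rw [h3]; abel
      rw [this]
      rw [union_P] at hk
      exact Submodule.add_mem_sup ⟨k, hk, rfl⟩ h1

omit [T1Space X] in
private theorem susp3 (n : ℕ) :
    Nonempty (RH (Pm x) (QQ x) n ≃ₗ[ℤ] RelHomology (ℝ × X) (QQ x) n) := by
  refine quotEquiv _ _ _ _ LinearMap.id ?_ ?_ ?_ ?_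
  · rintro z ⟨_, hz2⟩
    exact hz2
  · rintro z _ hz
    obtain ⟨_, ⟨a, ha, rfl⟩, b, hb, hab⟩ := Submodule.mem_sup.mp hz
    rw [← hab]
    exact Submodule.add_mem_sup ⟨a, rfl⟩ hb
  · rintro w ⟨hw1, hw2⟩ hw
    obtain ⟨_, ⟨a, rfl⟩, b, hb, hab⟩ := Submodule.mem_sup.mp hw
    have hab' : bdry (ℝ × X) n a + b = w := hab
    obtain ⟨e, _, he⟩ := PA_Pm x (n + 1) a (chainsIn_univ _ _) (by
      change bdry _ n a ∈ chainsIn _ n
      have : bdry (ℝ × X) n a = w - b := by rw [← hab']; abel
      rw [this]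
      exact Submodule.sub_mem _ hw1 (chainsIn_mono (QQ_sub x) _ hb))
    have h1 : w = bdry (ℝ × X) n (a - bdry (ℝ × X) (n + 1) e) + b := by
      rw [map_sub, bdry_bdry, sub_zero, hab']
    rw [h1]
    exact Submodule.add_mem_sup ⟨_, he, rfl⟩ hb
  · rintro w hw
    obtain ⟨d, _, hd⟩ := PA_Pm x n w (chainsIn_univ _ _) (relCyc_mono (QQ_sub x) n hw)
    refine ⟨w - bdry (ℝ × X) n d, ⟨hd, (relCyc (QQ x) n).sub_mem hw (bdry_mem_relCyc _ d)⟩, ?_⟩
    have : w - (LinearMap.id : _ →ₗ[ℤ] _) (w - bdry (ℝ × X) n d) = bdry (ℝ × X) n d := by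
      change w - (w - bdry (ℝ × X) n d) = _
      abel
    rw [this]
    exact Submodule.mem_sup_left ⟨d, rfl⟩

omit [T1Space X] in
private theorem susp4 (n : ℕ) :
    Nonempty (LocalHomology X x n ≃ₗ[ℤ] RelHomology (ℝ × X) (QQ x) n) := by
  let i : C(X, ℝ × X) := ⟨fun y => (0, y), by fun_prop⟩
  let r : C(ℝ × X, X) := ⟨Prod.snd, continuous_snd⟩
  have hi : MapsTo i ({x}ᶜ : Set X) (QQ x) := fun y hy => hy
  have hr : MapsTo r (QQ x) ({x}ᶜ : Set X) := fun y hy => hy
  have hri : ∀ m, ∀ z : Sing X m →₀ ℤ, push r m (push i m z) = z := by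
    intro m z
    have h1 : push r m (push i m z) = push (r.comp i) m z :=
      Helper534.HB.push_push i r m z
    have h2 : r.comp i = ContinuousMap.id X := rfl
    rw [h1, h2, push_id]
  refine quotEquiv _ _ _ _ (push i n) ?_ ?_ ?_ ?_
  · intro z hz
    cases n with
    | zero => exact Submodule.mem_top
    | succ n =>
      change bdry _ n (push i (n + 1) z) ∈ chainsIn _ n
      rw [bdry_push]
      exact push_mem i hi hz
  · intro z _ hz
    obtain ⟨_, ⟨d, rfl⟩, c, hc, hdc⟩ := Submodule.mem_sup.mp hz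
    rw [← hdc, map_add, ← bdry_push]
    exact Submodule.add_mem_sup ⟨_, rfl⟩ (push_mem i hi hc)
  · intro z _ hz
    obtain ⟨_, ⟨d, rfl⟩, c, hc, hdc⟩ := Submodule.mem_sup.mp hz
    have h1 := congrArg (push r n) hdc
    rw [map_add, ← bdry_push, hri] at h1
    rw [← h1]
    exact Submodule.add_mem_sup ⟨_, rfl⟩ (push_mem r hr hc)
  · intro w hw
    refine ⟨push r n w, ?_, ?_⟩
    · cases n with
      | zero => exact Submodule.mem_top
      | succ n =>
        change bdry _ n (push r (n + 1) w) ∈ chainsIn _ n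
        rw [bdry_push]
        exact push_mem r hr hw
    · let H : C((ℝ × X) × unitInterval, ℝ × X) :=
        ⟨fun p => (p.1.1 * (1 - p.2), p.1.2), by fun_prop⟩
      have h := prism H (ContinuousMap.id _) (i.comp r) (fun p => by
        change (p.1 * (1 - ((0 : unitInterval) : ℝ)), p.2) = p
        simp) (fun p => by
        change (p.1 * (1 - ((1 : unitInterval) : ℝ)), p.2) = ((0 : ℝ), p.2)
        simp) (A := QQ x) (B := QQ x) (fun p hp t => hp) n w hw
      rw [push_id] at h
      have h1 : push i n (push r n w) = push (i.comp r) n w :=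
        Helper534.HB.push_push r i n w
      rw [h1]
      have h2 : w - push (i.comp r) n w = bdry (ℝ × X) n (-(Helper534.HB.Sc.PD H n w)) +
          (-(push (i.comp r) n w - w - bdry (ℝ × X) n (Helper534.HB.Sc.PD H n w))) := by
        rw [map_neg]; abel
      rw [h2]
      exact Submodule.add_mem_sup ⟨_, rfl⟩ (Submodule.neg_mem _ h)

/-- Suspension isomorphism. -/
theorem localHomology_susp (n : ℕ) :
    Nonempty (LocalHomology (ℝ × X) ((0 : ℝ), x) (n + 1) ≃ₗ[ℤ] LocalHomology X x n) := by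
  obtain ⟨a⟩ := susp1 x n
  obtain ⟨b⟩ := susp2 x n
  obtain ⟨c⟩ := susp3 x n
  obtain ⟨d⟩ := susp4 x n
  exact ⟨a.trans (b.symm.trans (c.trans d.symm))⟩

omit [T1Space X] in
theorem localHomology_susp_zero : Subsingleton (LocalHomology (ℝ × X) ((0 : ℝ), x) 0) := by
  refine ⟨fun a b => ?_⟩
  obtain ⟨a, rfl⟩ := Submodule.Quotient.mk_surjective _ a
  obtain ⟨b, rfl⟩ := Submodule.Quotient.mk_surjective _ b
  rw [Submodule.Quotient.eq]
  change (a.1 - b.1) ∈ relBdy _ 0
  obtain ⟨d, _, hd⟩ := PA_Pp x 0 (a.1 - b.1) (chainsIn_univ _ _) Submodule.mem_top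
  have : a.1 - b.1 = bdry _ 0 d + (a.1 - b.1 - bdry _ 0 d) := by abel
  rw [this]
  exact Submodule.add_mem_sup ⟨d, rfl⟩ (chainsIn_mono (Pp_sub x) _ hd)

end Suspension

theorem SameLocalHomology.susp [T1Space X] [T1Space Y] {x : X} {y : Y}
    (h : SameLocalHomology X x Y y) :
    SameLocalHomology (ℝ × X) ((0 : ℝ), x) (ℝ × Y) ((0 : ℝ), y) := by
  intro n
  cases n with
  | zero =>
    have h1 := localHomology_susp_zero x
    have h2 := localHomology_susp_zero y
    exact ⟨{ toFun := fun _ => 0, invFun := fun _ => 0, map_add' := fun _ _ => by simp,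
             map_smul' := fun _ _ => by simp, left_inv := fun _ => Subsingleton.elim _ _,
             right_inv := fun _ => Subsingleton.elim _ _ }⟩
  | succ n =>
    obtain ⟨a⟩ := localHomology_susp x n
    obtain ⟨b⟩ := localHomology_susp y n
    obtain ⟨c⟩ := h n
    exact ⟨a.trans (c.trans b.symm)⟩

end Pool.Agent.H110
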