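import Pool.Agent.H110.Wman

/-! The boundary inclusions are simple homotopy equivalences. -/

set_option autoImplicit false

namespace Pool.Agent.H110

open Set Filter Topology

variable {X : Type} [TopologicalSpace X] {Y : Type} [TopologicalSpace Y]

theorem homotopic_of {f g : C(X, Y)} (H : C(X × unitInterval, Y)) (h0 : ∀ x, H (x, 0) = f x)
    (h1 : ∀ x, H (x, 1) = g x) : f.Homotopic g :=
  ⟨{ toFun := fun p => H (p.2, p.1)
     continuous_toFun := by fun_prop
     map_zero_left := h0
     map_one_left := h1 }⟩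

/-- contractible spaces have trivial shape -/
theorem trivialShape_of_contractible (K : Type) [TopologicalSpace K] [ContractibleSpace K] :
    TrivialShape K := by
  refine ⟨inferInstance, ?_⟩
  intro P _ _ f
  exact (id_nullhomotopic K).comp_right f

/-- the injective image of a compact contractible space is of trivial shape -/
theorem trivialShape_range {K : Type} [TopologicalSpace K] [ContractibleSpace K] [CompactSpace K]
    {Z : Type} [TopologicalSpace Z] [T2Space Z] (f : K → Z) (hf : Continuous f)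
    (hi : Function.Injective f) {S : Set Z} (hS : range f = S) : TrivialShape S := by
  have he : K ≃ₜ range f := (hf.isClosedEmbedding hi).isEmbedding.toHomeomorph
  have : ContractibleSpace (range f) := he.symm.contractibleSpace
  rw [← hS]
  exact trivialShape_of_contractible _

instance : ContractibleSpace unitInterval := by
  have : Convex ℝ (Icc (0 : ℝ) 1) := convex_Icc 0 1
  exact this.contractibleSpace ⟨0, by simp⟩

/-- polar coordinates -/
noncomputable def pol : C(An, Sph 2) :=
  ⟨fun x => ⟨‖x.1‖⁻¹ • x.1, by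
    rw [mem_sphere_zero_iff_norm, norm_smul, norm_inv, norm_norm,
      inv_mul_cancel₀ (norm_ne_zero_iff.2 (an_ne x))]⟩, by
    have h : Continuous fun x : An => ‖x.1‖ := by fun_prop
    exact ((h.inv₀ fun x => norm_ne_zero_iff.2 (an_ne x)).smul
      continuous_subtype_val).subtype_mk _⟩

theorem sph_norm {n : ℕ} (u : Sph n) : ‖(u : E (n + 1))‖ = 1 := mem_sphere_zero_iff_norm.1 u.2

/-- the point of the annulus with polar coordinates `u`, `r` -/
noncomputable def ray (u : Sph 2) (r : ℝ) (h1 : 1 ≤ r) (h2 : r ≤ 2) : An :=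
  ⟨r • u.1, by
    rw [norm_smul, sph_norm, mul_one, Real.norm_eq_abs, abs_of_nonneg (by linarith)]
    exact ⟨h1, h2⟩⟩

theorem norm_ray (u : Sph 2) (r : ℝ) (h1 : 1 ≤ r) (h2 : r ≤ 2) : ‖(ray u r h1 h2).1‖ = r := by
  change ‖r • u.1‖ = r
  rw [norm_smul, sph_norm, mul_one, Real.norm_eq_abs, abs_of_nonneg (by linarith)]

theorem pol_ray (u : Sph 2) (r : ℝ) (h1 : 1 ≤ r) (h2 : r ≤ 2) : pol (ray u r h1 h2) = u := by
  apply Subtype.ext
  change ‖(ray u r h1 h2).1‖⁻¹ • (r • u.1) = u.1
  rw [norm_ray, smul_smul, inv_mul_cancel₀ (by linarith), one_smul]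

theorem ray_pol (x : An) : ray (pol x) ‖x.1‖ x.2.1 x.2.2 = x := by
  apply Subtype.ext
  change ‖x.1‖ • (‖x.1‖⁻¹ • x.1) = x.1
  rw [smul_smul, mul_inv_cancel₀ (norm_ne_zero_iff.2 (an_ne x)), one_smul]

/-- the sphere of radius `r` in the annulus -/
noncomputable def sphr (r : ℝ) (h1 : 1 ≤ r) (h2 : r ≤ 2) : C(Sph 2, An) :=
  ⟨fun u => ray u r h1 h2, by
    refine Continuous.subtype_mk ?_ _
    fun_prop⟩

/-- the radial homotopy from the identity to the retraction to the sphere of radius `r` -/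
noncomputable def radH (r : ℝ) (h1 : 1 ≤ r) (h2 : r ≤ 2) : C(An × unitInterval, An) :=
  ⟨fun p => ray (pol p.1) (‖p.1.1‖ + p.2 * (r - ‖p.1.1‖)) (by
      have := p.2.2.1; have := p.2.2.2; have := p.1.2.1
      nlinarith) (by
      have := p.2.2.1; have := p.2.2.2; have := p.1.2.2
      nlinarith), by
    refine Continuous.subtype_mk ?_ _
    have : Continuous fun p : An × unitInterval => (pol p.1).1 :=
      continuous_subtype_val.comp (pol.continuous.comp continuous_fst)
    have h3 : Continuous fun p : An × unitInterval =>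
      ‖p.1.1‖ + (p.2 : ℝ) * (r - ‖p.1.1‖) := by fun_prop
    exact h3.smul this⟩

theorem radH_zero (r : ℝ) (h1 : 1 ≤ r) (h2 : r ≤ 2) (x : An) : radH r h1 h2 (x, 0) = x := by
  apply Subtype.ext
  change (‖x.1‖ + (0 : ℝ) * (r - ‖x.1‖)) • (‖x.1‖⁻¹ • x.1) = x.1
  rw [zero_mul, add_zero, smul_smul, mul_inv_cancel₀ (norm_ne_zero_iff.2 (an_ne x)), one_smul]

theorem radH_one (r : ℝ) (h1 : 1 ≤ r) (h2 : r ≤ 2) (x : An) :
    radH r h1 h2 (x, 1) = sphr r h1 h2 (pol x) := by
  apply Subtype.ext
  change (‖x.1‖ + (1 : ℝ) * (r - ‖x.1‖)) • (pol x).1 = r • (pol x).1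
  rw [one_mul]
  congr 1
  ring

variable {γ : unitInterval → E 3} {N : Type} [TopologicalSpace N]

/-- the boundary inclusions -/
noncomputable def inc (γ : unitInterval → E 3) (N : Type) [TopologicalSpace N] (r : ℝ)
    (h1 : 1 ≤ r) (h2 : r ≤ 2) : C(Sph 2 × N, YY γ × N) :=
  ⟨fun p => (qq γ (sphr r h1 h2 p.1), p.2), by fun_prop⟩

theorem simple_inc [CompactSpace N] (hN : IsANR N) (hγ : IsArc γ) (r : ℝ) (h1 : 1 ≤ r)
    (h2 : r ≤ 2) : IsSimpleHomotopyEquiv (inc γ N r h1 h2) := by
  have := hN.1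
  let a : C(An × N, Sph 2 × N) := ⟨fun p => (pol p.1, p.2), by fun_prop⟩
  let b : C(An × N, YY γ × N) := ⟨fun p => (qq γ p.1, p.2), by fun_prop⟩
  refine ⟨⟨⟨fun p => (pol (gg hγ p.1), p.2), by fun_prop⟩, ?_, ?_⟩, ?_⟩
  · refine (homotopic_of (f := ContinuousMap.id _)
      ⟨fun p => (pol (HH hγ (sphr r h1 h2 p.1.1, p.2)), p.1.2), by fun_prop⟩ ?_ ?_).symm
    · rintro ⟨u, n⟩
      refine Prod.ext ?_ rfl
      change pol (HH hγ (sphr r h1 h2 u, 0)) = u
      rw [HH_zero]
      exact pol_ray u r h1 h2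
    · rintro ⟨u, n⟩
      refine Prod.ext ?_ rfl
      change pol (HH hγ (sphr r h1 h2 u, 1)) = pol (gg hγ (qq γ (sphr r h1 h2 u)))
      rw [gg_qq]
  · have e1 : (ContinuousMap.id (YY γ × N)).Homotopic
        ⟨fun p => (qq γ (gg hγ p.1), p.2), by fun_prop⟩ :=
      homotopic_of ⟨fun p => (cc hγ (p.1.1, p.2), p.1.2), by fun_prop⟩
        (fun p => Prod.ext (cc_zero hγ p.1) rfl) (fun p => Prod.ext (cc_one hγ p.1) rfl)
    refine (e1.trans ?_).symm
    refine homotopic_of ⟨fun p => (qq γ (radH r h1 h2 (gg hγ p.1.1, p.2)), p.1.2), by fun_prop⟩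
      (fun p => Prod.ext ?_ rfl) (fun p => Prod.ext ?_ rfl)
    · change qq γ (radH r h1 h2 (gg hγ p.1, 0)) = qq γ (gg hγ p.1)
      rw [radH_zero]
    · change qq γ (radH r h1 h2 (gg hγ p.1, 1)) = qq γ (sphr r h1 h2 (pol (gg hγ p.1)))
      rw [radH_one]
  · refine ⟨An × N, inferInstance, inferInstance, isANR_An.prod hN, a, b, ?_, ?_, ?_⟩
    · rintro ⟨u, n⟩
      refine trivialShape_range (K := unitInterval) (fun t =>
        ((ray u (1 + t) (by linarith [t.2.1]) (by linarith [t.2.2]) : An), n)) ?_ ?_ ?_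
      · refine Continuous.prodMk (Continuous.subtype_mk ?_ _) continuous_const
        fun_prop
      · intro s t h
        have h3 := congrArg (fun q : An × N => ‖q.1.1‖) h
        simp only [norm_ray] at h3
        exact Subtype.ext (by linarith)
      · ext ⟨x, m⟩
        constructor
        · rintro ⟨t, ht⟩
          rw [← ht]
          exact Prod.ext (pol_ray u (1 + t) (by linarith [t.2.1]) (by linarith [t.2.2])) rfl
        · intro h
          have h3 : pol x = u := congrArg Prod.fst h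
          have h4 : m = n := congrArg Prod.snd h
          refine ⟨⟨‖x.1‖ - 1, by linarith [x.2.1], by linarith [x.2.2]⟩, ?_⟩
          refine Prod.ext ?_ h4.symm
          change ray u (1 + (‖x.1‖ - 1)) (by linarith [x.2.1]) (by linarith [x.2.2]) = x
          apply Subtype.ext
          have h5 : ‖x.1‖ • (pol x).1 = x.1 := congrArg Subtype.val (ray_pol x)
          rw [h3] at h5
          refine Eq.trans ?_ h5
          change (1 + (‖x.1‖ - 1)) • u.1 = ‖x.1‖ • u.1
          congr 1
          ring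
    · rintro ⟨y, n⟩
      obtain ⟨x, rfl⟩ := qq_surj y
      by_cases hx : x.1 ∈ range γ
      · refine trivialShape_range (K := unitInterval) (fun t => (arcPt hγ t, n)) ?_ ?_ ?_
        · exact (continuous_arcPt hγ).prodMk continuous_const
        · intro s t h
          have h3 := congrArg (fun q : An × N => q.1.1) h
          exact hγ.inj h3
        · ext ⟨z, m⟩
          constructor
          · rintro ⟨t, ht⟩
            rw [← ht]
            refine Prod.ext ?_ rfl
            exact (qq_eq hγ).2 (Or.inr ⟨⟨t, rfl⟩, hx⟩)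
          · intro h
            have h3 : qq γ z = qq γ x := congrArg Prod.fst h
            have h4 : m = n := congrArg Prod.snd h
            rcases (qq_eq hγ).1 h3 with h5 | ⟨⟨t, ht⟩, _⟩
            · rw [h5]
              obtain ⟨t, ht⟩ := hx
              exact ⟨t, Prod.ext (Subtype.ext ht) h4.symm⟩
            · exact ⟨t, Prod.ext (Subtype.ext ht) h4.symm⟩
      · refine trivialShape_range (K := PUnit) (fun _ => (x, n)) continuous_const
          (fun _ _ _ => rfl) ?_
        ext ⟨z, m⟩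
        constructor
        · rintro ⟨_, ht⟩
          rw [← ht]
          rfl
        · intro h
          have h3 : qq γ z = qq γ x := congrArg Prod.fst h
          have h4 : m = n := congrArg Prod.snd h
          rcases (qq_eq hγ).1 h3 with h5 | ⟨_, h5⟩
          · exact ⟨PUnit.unit, Prod.ext h5.symm h4.symm⟩
          · exact absurd h5 hx
    · refine (homotopic_of ⟨fun p => (qq γ (radH r h1 h2 (p.1.1, p.2)), p.1.2), by fun_prop⟩
        (fun p => Prod.ext ?_ rfl) (fun p => Prod.ext ?_ rfl)).symm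
      · change qq γ (radH r h1 h2 (p.1, 0)) = qq γ p.1
        rw [radH_zero]
      · change qq γ (radH r h1 h2 (p.1, 1)) = qq γ (sphr r h1 h2 (pol p.1))
        rw [radH_one]

theorem inc_injective (hγ : IsArc γ) (r : ℝ) (h1 : 1 ≤ r) (h2 : r ≤ 2) (hr : r = 1 ∨ r = 2) :
    Function.Injective (inc γ N r h1 h2) := by
  rintro ⟨u, n⟩ ⟨v, m⟩ h
  have h3 : qq γ (sphr r h1 h2 u) = qq γ (sphr r h1 h2 v) := congrArg Prod.fst h
  have h4 : n = m := congrArg Prod.snd h
  have h5 : sphr r h1 h2 u = sphr r h1 h2 v := by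
    rcases (qq_eq hγ).1 h3 with h5 | ⟨⟨s, hs⟩, ⟨t, ht⟩⟩
    · exact h5
    · have e1 : ‖γ s‖ = r := by rw [hs]; exact norm_ray _ r h1 h2
      have e2 : ‖γ t‖ = r := by rw [ht]; exact norm_ray _ r h1 h2
      rcases hr with rfl | rfl
      · apply Subtype.ext
        rw [← hs, ← ht, hγ.one s e1, hγ.one t e2]
      · exact absurd e1 (hγ.lt s).ne
  have h6 : u = v := by
    have := congrArg pol h5
    have e1 : pol (sphr r h1 h2 u) = u := pol_ray _ r h1 h2
    have e2 : pol (sphr r h1 h2 v) = v := pol_ray _ r h1 h2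
    rwa [e1, e2] at this
  rw [h4, h6]

theorem mem_range_inc (hγ : IsArc γ) (r : ℝ) (h1 : 1 ≤ r) (h2 : r ≤ 2) (x : An) (n : N) :
    (qq γ x, n) ∈ range (inc γ N r h1 h2) ↔
      ‖x.1‖ = r ∨ (x.1 ∈ range γ ∧ ∃ t, ‖γ t‖ = r) := by
  constructor
  · rintro ⟨⟨u, m⟩, h⟩
    have h3 : qq γ (sphr r h1 h2 u) = qq γ x := congrArg Prod.fst h
    rcases (qq_eq hγ).1 h3 with h5 | ⟨⟨t, ht⟩, h5⟩
    · left
      rw [← h5]
      exact norm_ray _ r h1 h2
    · right
      refine ⟨h5, t, ?_⟩
      rw [ht]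
      exact norm_ray _ r h1 h2
  · rintro (h | ⟨h, t, ht⟩)
    · refine ⟨(pol x, n), Prod.ext ?_ rfl⟩
      change qq γ (ray (pol x) r h1 h2) = qq γ x
      congr 1
      have := ray_pol x
      simp only [h] at this
      exact this
    · refine ⟨(pol (arcPt hγ t), n), Prod.ext ?_ rfl⟩
      change qq γ (ray (pol (arcPt hγ t)) r h1 h2) = qq γ x
      rw [qq_eq hγ]
      right
      refine ⟨?_, h⟩
      have := ray_pol (arcPt hγ t)
      have e : ‖(arcPt hγ t).1‖ = r := ht
      simp only [e] at this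
      rw [this]
      exact ⟨t, rfl⟩

end Pool.Agent.H110
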