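import Pool.Agent.H110.Space

/-! The quotient of the annulus by the arc, and the homotopies which contract the arc. -/

set_option autoImplicit false

namespace Pool.Agent.H110

open Set Filter Topology

/-- distance from the arc -/
noncomputable def dd (γ : unitInterval → E 3) (x : E 3) : ℝ := Metric.infDist x (range γ)

/-- the map which collapses the arc -/
noncomputable def ee (γ : unitInterval → E 3) (x : An) : ℝ × E 3 := (dd γ x.1, dd γ x.1 • x.1)

/-- the annulus with the arc collapsed to a point, as a subset of `ℝ × ℝ³` -/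
abbrev YY (γ : unitInterval → E 3) : Type := range (ee γ)

variable {γ : unitInterval → E 3}

theorem continuous_dd : Continuous (dd γ) := Metric.continuous_infDist_pt _

theorem continuous_ee : Continuous (ee γ) := by
  unfold ee
  have h := continuous_dd (γ := γ)
  exact (h.comp continuous_subtype_val).prodMk
    ((h.comp continuous_subtype_val).smul continuous_subtype_val)

variable (γ) in
/-- the quotient map -/
noncomputable def qq : C(An, YY γ) :=
  ⟨fun x => ⟨ee γ x, mem_range_self x⟩, continuous_ee.subtype_mk _⟩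

theorem qq_surj : Function.Surjective (qq γ) := by
  rintro ⟨_, x, rfl⟩
  exact ⟨x, rfl⟩

theorem dd_eq_zero (hγ : IsArc γ) {x : E 3} : dd γ x = 0 ↔ x ∈ range γ := by
  have hc : IsClosed (range γ) := (isCompact_range hγ.cont).isClosed
  exact (hc.mem_iff_infDist_zero (range_nonempty γ)).symm

theorem qq_eq (hγ : IsArc γ) {x x' : An} :
    qq γ x = qq γ x' ↔ x = x' ∨ (x.1 ∈ range γ ∧ x'.1 ∈ range γ) := by
  constructor
  · intro h
    have h1 : ee γ x = ee γ x' := congrArg Subtype.val h
    have h2 : dd γ x.1 = dd γ x'.1 := congrArg Prod.fst h1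
    have h3 : dd γ x.1 • x.1 = dd γ x'.1 • x'.1 := congrArg Prod.snd h1
    by_cases h0 : dd γ x.1 = 0
    · right
      refine ⟨(dd_eq_zero hγ).1 h0, (dd_eq_zero hγ).1 (h2 ▸ h0)⟩
    · left
      rw [← h2] at h3
      exact Subtype.ext (smul_right_injective _ h0 h3)
  · rintro (rfl | ⟨h, h'⟩)
    · rfl
    · apply Subtype.ext
      change ee γ x = ee γ x'
      unfold ee
      rw [(dd_eq_zero hγ).2 h, (dd_eq_zero hγ).2 h', zero_smul, zero_smul]

instance : CompactSpace (YY γ) :=
  isCompact_iff_compactSpace.1 (isCompact_range continuous_ee)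

/-- a point of the annulus on the arc -/
def arcPt (hγ : IsArc γ) (t : unitInterval) : An := ⟨γ t, hγ.ge t, (hγ.lt t).le⟩

theorem continuous_arcPt (hγ : IsArc γ) : Continuous (arcPt hγ) := hγ.cont.subtype_mk _

/-- the exceptional point of the quotient -/
noncomputable def pp (hγ : IsArc γ) : YY γ := qq γ (arcPt hγ 0)

theorem qq_eq_pp (hγ : IsArc γ) {x : An} : qq γ x = pp hγ ↔ x.1 ∈ range γ := by
  unfold pp
  rw [qq_eq hγ]
  constructor
  · rintro (rfl | h)
    · exact ⟨0, rfl⟩
    · exact h.1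
  · intro h
    exact Or.inr ⟨h, 0, rfl⟩

theorem isQuotientMap_qq : IsQuotientMap (qq γ) :=
  IsQuotientMap.of_surjective_continuous qq_surj (qq γ).continuous

/-- maps from the quotient -/
theorem continuous_of_comp_qq {Z : Type} [TopologicalSpace Z] {f : YY γ → Z}
    (h : Continuous fun x => f (qq γ x)) : Continuous f :=
  isQuotientMap_qq.continuous_iff.2 h

theorem continuous_of_comp_qq_prod {K Z : Type} [TopologicalSpace K] [CompactSpace K] [T2Space K]
    [TopologicalSpace Z] {f : YY γ × K → Z}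
    (h : Continuous fun p : An × K => f (qq γ p.1, p.2)) : Continuous f := by
  have h1 : IsQuotientMap (Prod.map (qq γ) (id : K → K)) :=
    IsQuotientMap.of_surjective_continuous (qq_surj.prodMap Function.surjective_id)
      ((qq γ).continuous.prodMap continuous_id)
  exact h1.continuous_iff.2 h

/-- a section of the quotient map -/
noncomputable def sec (y : YY γ) : An := y.2.choose

theorem qq_sec (y : YY γ) : qq γ (sec y) = y := Subtype.ext y.2.choose_spec

theorem sec_qq (hγ : IsArc γ) (x : An) :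
    sec (qq γ x) = x ∨ ((sec (qq γ x)).1 ∈ range γ ∧ x.1 ∈ range γ) :=
  (qq_eq hγ).1 (qq_sec (qq γ x))

/-! ### the contracting homotopy -/

theorem exists_retr (hγ : IsArc γ) : ∃ R : C(E 3, unitInterval), ∀ t, R (γ t) = t := by
  have he : IsClosedEmbedding γ := hγ.cont.isClosedEmbedding hγ.inj
  obtain ⟨R, hR⟩ := (ContinuousMap.id unitInterval).exists_extension' he
  exact ⟨R, fun t => congrFun hR t⟩

/-- a retraction to the arc, in the parameter of the arc -/
noncomputable def RR (hγ : IsArc γ) : C(E 3, unitInterval) := (exists_retr hγ).choose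

theorem RR_apply (hγ : IsArc γ) (t : unitInterval) : RR hγ (γ t) = t :=
  (exists_retr hγ).choose_spec t

/-- the distance from `x` to its image in the arc -/
noncomputable def δδ (hγ : IsArc γ) (x : E 3) : ℝ := ‖x - γ (RR hγ x)‖

theorem continuous_δδ (hγ : IsArc γ) : Continuous (δδ hγ) := by
  unfold δδ
  exact (continuous_id.sub (hγ.cont.comp (RR hγ).continuous)).norm

/-- the cut off function -/
noncomputable def lam (hγ : IsArc γ) (x : E 3) : ℝ := max 0 (min 1 (2 - 4 * δδ hγ x))

theorem continuous_lam (hγ : IsArc γ) : Continuous (lam hγ) := by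
  unfold lam
  have := continuous_δδ hγ
  fun_prop

theorem lam_nonneg (hγ : IsArc γ) (x : E 3) : 0 ≤ lam hγ x := le_max_left _ _

theorem lam_le (hγ : IsArc γ) (x : E 3) : lam hγ x ≤ 1 :=
  max_le zero_le_one (min_le_left _ _)

theorem lam_one (hγ : IsArc γ) {x : E 3} (h : δδ hγ x ≤ 1 / 4) : lam hγ x = 1 := by
  unfold lam
  rw [min_eq_left (by linarith), max_eq_right zero_le_one]

theorem lam_zero (hγ : IsArc γ) {x : E 3} (h : 1 / 2 ≤ δδ hγ x) : lam hγ x = 0 := by
  unfold lam
  apply max_eq_left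
  exact (min_le_right _ _).trans (by linarith)

/-- the parameter in the arc -/
noncomputable def bb (hγ : IsArc γ) (x : E 3) (s : ℝ) : unitInterval :=
  projIcc 0 1 zero_le_one ((1 - max 0 (2 * s - 1)) * (RR hγ x : ℝ))

/-- the deformation, before the radial retraction, with parameter `s` -/
noncomputable def aa (hγ : IsArc γ) (x : E 3) (s : ℝ) : E 3 :=
  (1 - min 1 (2 * s)) • x + min 1 (2 * s) • γ (bb hγ x s)

theorem continuous_aa (hγ : IsArc γ) : Continuous fun p : E 3 × ℝ => aa hγ p.1 p.2 := by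
  have h1 : Continuous fun p : E 3 × ℝ => γ (bb hγ p.1 p.2) := by
    refine hγ.cont.comp (continuous_projIcc.comp ?_)
    have := (RR hγ).continuous
    fun_prop
  have h2 : Continuous fun p : E 3 × ℝ => (1 - min 1 (2 * p.2)) • p.1 := by fun_prop
  have h3 : Continuous fun p : E 3 × ℝ => min 1 (2 * p.2) := by fun_prop
  exact h2.add (h3.smul h1)

theorem aa_zero (hγ : IsArc γ) (x : E 3) : aa hγ x 0 = x := by
  unfold aa
  rw [mul_zero, min_eq_right zero_le_one, sub_zero, one_smul, zero_smul, add_zero]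

theorem aa_ne (hγ : IsArc γ) {x : E 3} (hx : 1 ≤ ‖x‖) {s : ℝ} (h0 : 0 ≤ s)
    (h : s = 0 ∨ δδ hγ x < 1) : aa hγ x s ≠ 0 := by
  rcases h with rfl | h
  · rw [aa_zero]
    intro h
    rw [h, norm_zero] at hx
    linarith
  · unfold aa
    rcases le_total (2 * s) 1 with h1 | h1
    · rw [min_eq_right h1]
      have hb : bb hγ x s = RR hγ x := by
        unfold bb
        rw [max_eq_left (by linarith), sub_zero, one_mul]
        exact projIcc_val _ _
      rw [hb]
      intro h2
      have h3 : x = (2 * s) • (x - γ (RR hγ x)) := by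
        have : x - (2 * s) • (x - γ (RR hγ x)) =
          (1 - 2 * s) • x + (2 * s) • γ (RR hγ x) := by
          rw [smul_sub, sub_smul, one_smul]; abel
        rw [h2] at this
        exact sub_eq_zero.1 this
      have h4 : ‖x‖ = (2 * s) * δδ hγ x := by
        have h5 := congrArg norm h3
        rw [norm_smul, Real.norm_eq_abs, abs_of_nonneg (by linarith : 0 ≤ 2 * s)] at h5
        exact h5
      have h5 : 0 ≤ δδ hγ x := norm_nonneg _
      nlinarith
    · rw [min_eq_left h1, sub_self, zero_smul, zero_add, one_smul]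
      intro h2
      have := hγ.ge (bb hγ x s)
      rw [h2, norm_zero] at this
      linarith

theorem HH_ne (hγ : IsArc γ) (x : An) (t : unitInterval) :
    aa hγ x.1 (lam hγ x.1 * t) ≠ 0 := by
  apply aa_ne hγ x.2.1 (mul_nonneg (lam_nonneg _ _) t.2.1)
  by_cases h : δδ hγ x.1 < 1
  · exact Or.inr h
  · left
    push Not at h
    rw [lam_zero hγ (by linarith), zero_mul]

/-- the homotopy of the annulus which contracts the arc -/
noncomputable def HH (hγ : IsArc γ) : C(An × unitInterval, An) :=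
  radMap.comp ⟨fun p => ⟨aa hγ p.1.1 (lam hγ p.1.1 * p.2), HH_ne hγ p.1 p.2⟩, by
    refine Continuous.subtype_mk ?_ _
    have h1 : Continuous fun p : An × unitInterval => (p.1.1, lam hγ p.1.1 * (p.2 : ℝ)) := by
      have := continuous_lam hγ
      fun_prop
    exact (continuous_aa hγ).comp h1⟩

theorem HH_val (hγ : IsArc γ) (x : An) (t : unitInterval) :
    (HH hγ (x, t)).1 = rad (aa hγ x.1 (lam hγ x.1 * t)) := rfl

theorem HH_zero (hγ : IsArc γ) (x : An) : HH hγ (x, 0) = x := by
  apply Subtype.ext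
  rw [HH_val]
  have : ((0 : unitInterval) : ℝ) = 0 := rfl
  rw [this, mul_zero, aa_zero, rad_eq x.2.1 x.2.2]

theorem rad_arc (hγ : IsArc γ) (t : unitInterval) : rad (γ t) = γ t :=
  rad_eq (hγ.ge t) (hγ.lt t).le

theorem HH_arc (hγ : IsArc γ) {x : An} (hx : x.1 ∈ range γ) (t : unitInterval) :
    (HH hγ (x, t)).1 ∈ range γ := by
  obtain ⟨s, hs⟩ := hx
  rw [HH_val]
  set r := lam hγ x.1 * (t : ℝ) with hr
  rcases le_total (2 * r) 1 with h1 | h1
  · have hb : γ (bb hγ x.1 r) = x.1 := by
      unfold bb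
      rw [max_eq_left (by linarith), sub_zero, one_mul, ← hs, RR_apply]
      congr 1
      exact projIcc_val _ _
    have : aa hγ x.1 r = x.1 := by
      unfold aa
      rw [min_eq_right h1, hb, sub_smul, one_smul]
      abel
    rw [this, ← hs, rad_arc hγ]
    exact ⟨s, rfl⟩
  · have : aa hγ x.1 r = γ (bb hγ x.1 r) := by
      unfold aa
      rw [min_eq_left h1, sub_self, zero_smul, zero_add, one_smul]
    rw [this, rad_arc hγ]
    exact ⟨_, rfl⟩

theorem HH_one (hγ : IsArc γ) {x : An} (hx : δδ hγ x.1 ≤ 1 / 4) :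
    HH hγ (x, 1) = arcPt hγ 0 := by
  apply Subtype.ext
  rw [HH_val, lam_one hγ hx]
  have e1 : ((1 : unitInterval) : ℝ) = 1 := rfl
  rw [e1, mul_one]
  have hb : bb hγ x.1 1 = 0 := by
    unfold bb
    have : (1 - max 0 (2 * (1 : ℝ) - 1)) * (RR hγ x.1 : ℝ) = 0 := by norm_num
    rw [this]
    exact projIcc_left _
  have : aa hγ x.1 1 = γ 0 := by
    unfold aa
    rw [hb, mul_one, min_eq_left (by norm_num), sub_self, zero_smul, zero_add, one_smul]
  rw [this]
  exact rad_arc hγ 0

theorem δδ_arc (hγ : IsArc γ) {x : E 3} (hx : x ∈ range γ) : δδ hγ x = 0 := by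
  obtain ⟨s, rfl⟩ := hx
  unfold δδ
  rw [RR_apply, sub_self, norm_zero]

/-- the homotopy of the quotient -/
noncomputable def cc (hγ : IsArc γ) : C(YY γ × unitInterval, YY γ) :=
  ⟨fun p => qq γ (HH hγ (sec p.1, p.2)), by
    apply continuous_of_comp_qq_prod
    have : (fun p : An × unitInterval => qq γ (HH hγ (sec (qq γ p.1), p.2))) =
        fun p : An × unitInterval => qq γ (HH hγ (p.1, p.2)) := by
      funext p
      rcases sec_qq hγ p.1 with h | ⟨h, h'⟩
      · rw [h]
      · exact (qq_eq hγ).2 (Or.inr ⟨HH_arc hγ h _, HH_arc hγ h' _⟩)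
    change Continuous fun p : An × unitInterval => qq γ (HH hγ (sec (qq γ p.1), p.2))
    rw [this]
    fun_prop⟩

theorem cc_qq (hγ : IsArc γ) (x : An) (t : unitInterval) :
    cc hγ (qq γ x, t) = qq γ (HH hγ (x, t)) := by
  change qq γ (HH hγ (sec (qq γ x), t)) = _
  rcases sec_qq hγ x with h | ⟨h, h'⟩
  · rw [h]
  · exact (qq_eq hγ).2 (Or.inr ⟨HH_arc hγ h _, HH_arc hγ h' _⟩)

/-- the homotopy inverse of the quotient map -/
noncomputable def gg (hγ : IsArc γ) : C(YY γ, An) :=
  ⟨fun y => HH hγ (sec y, 1), by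
    apply continuous_of_comp_qq
    have : (fun x : An => HH hγ (sec (qq γ x), 1)) = fun x : An => HH hγ (x, 1) := by
      funext x
      rcases sec_qq hγ x with h | ⟨h, h'⟩
      · rw [h]
      · rw [HH_one hγ (by rw [δδ_arc hγ h]; norm_num), HH_one hγ (by rw [δδ_arc hγ h']; norm_num)]
    rw [this]
    fun_prop⟩

theorem gg_qq (hγ : IsArc γ) (x : An) : gg hγ (qq γ x) = HH hγ (x, 1) := by
  change HH hγ (sec (qq γ x), 1) = _
  rcases sec_qq hγ x with h | ⟨h, h'⟩
  · rw [h]
  · rw [HH_one hγ (by rw [δδ_arc hγ h]; norm_num), HH_one hγ (by rw [δδ_arc hγ h']; norm_num)]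

theorem cc_zero (hγ : IsArc γ) (y : YY γ) : cc hγ (y, 0) = y := by
  obtain ⟨x, rfl⟩ := qq_surj y
  rw [cc_qq, HH_zero]

theorem cc_one (hγ : IsArc γ) (y : YY γ) : cc hγ (y, 1) = qq γ (gg hγ y) := by
  obtain ⟨x, rfl⟩ := qq_surj y
  rw [cc_qq, gg_qq]

theorem cc_pp (hγ : IsArc γ) (t : unitInterval) : cc hγ (pp hγ, t) = pp hγ := by
  have h : pp hγ = qq γ (arcPt hγ 0) := rfl
  rw [h, cc_qq, ← h, qq_eq_pp hγ]
  exact HH_arc hγ ⟨0, rfl⟩ t

/-- a neighbourhood of the exceptional point which is contracted to this point -/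
theorem exists_nhd (hγ : IsArc γ) : ∃ V : Set (YY γ), IsOpen V ∧ pp hγ ∈ V ∧
    ∀ y ∈ V, cc hγ (y, 1) = pp hγ := by
  have hcl : IsClosed {x : An | 1 / 4 ≤ δδ hγ x.1} :=
    isClosed_le continuous_const ((continuous_δδ hγ).comp continuous_subtype_val)
  have hK : IsClosed (qq γ '' {x : An | 1 / 4 ≤ δδ hγ x.1}) :=
    (hcl.isCompact.image (qq γ).continuous).isClosed
  refine ⟨(qq γ '' {x : An | 1 / 4 ≤ δδ hγ x.1})ᶜ, hK.isOpen_compl, ?_, ?_⟩
  · rintro ⟨x, hx, hxp⟩
    have h := δδ_arc hγ ((qq_eq_pp hγ).1 hxp)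
    have hx' : 1 / 4 ≤ δδ hγ x.1 := hx
    rw [h] at hx'
    norm_num at hx'
  · intro y hy
    obtain ⟨x, rfl⟩ := qq_surj y
    have hx : ¬ (1 / 4 ≤ δδ hγ x.1) := fun h => hy ⟨x, h, rfl⟩
    push Not at hx
    rw [cc_qq, HH_one hγ hx.le]
    rfl

/-! ### the open embedding of the complement of the arc -/

theorem isOpen_offArc (hγ : IsArc γ) : IsOpen (offArc γ) :=
  (isCompact_range hγ.cont).isClosed.isOpen_compl.preimage continuous_subtype_val

/-- the complement of the arc embeds in the quotient -/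
noncomputable def qoff (γ : unitInterval → E 3) : C(offArc γ, YY γ) :=
  (qq γ).comp ⟨Subtype.val, continuous_subtype_val⟩

theorem range_qoff (hγ : IsArc γ) : range (qoff γ) = {pp hγ}ᶜ := by
  ext y
  obtain ⟨x, rfl⟩ := qq_surj y
  constructor
  · rintro ⟨z, hz⟩ h
    have h2 : qq γ z.1 = pp hγ := hz.trans h
    exact z.2 ((qq_eq_pp hγ).1 h2)
  · intro h
    refine ⟨⟨x, fun hx => h ((qq_eq_pp hγ).2 hx)⟩, rfl⟩

theorem isOpenEmbedding_qoff (hγ : IsArc γ) : IsOpenEmbedding (qoff γ) := by
  have hinj : Function.Injective (qoff γ) := by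
    intro x y h
    rcases (qq_eq hγ).1 h with h | ⟨h, _⟩
    · exact Subtype.ext h
    · exact absurd h x.2
  refine IsOpenEmbedding.of_continuous_injective_isOpenMap (qoff γ).continuous hinj ?_
  intro U hU
  -- the image of an open set is the complement of the compact image of the complement
  have hU2 : IsOpen (Subtype.val '' U : Set An) := (isOpen_offArc hγ).isOpenMap_subtype_val U hU
  have h1 : qoff γ '' U = (qq γ '' (Subtype.val '' U : Set An)ᶜ)ᶜ := by
    ext y
    obtain ⟨x, rfl⟩ := qq_surj y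
    constructor
    · rintro ⟨z, hz, hzx⟩ ⟨w, hw, hwx⟩
      have h2 : qq γ z.1 = qq γ w := hzx.trans hwx.symm
      rcases (qq_eq hγ).1 h2 with h | ⟨h, _⟩
      · exact hw ⟨z, hz, h⟩
      · exact z.2 h
    · intro h
      by_contra hcon
      apply h
      refine ⟨x, ?_, rfl⟩
      rintro ⟨z, hz, rfl⟩
      exact hcon ⟨z, hz, rfl⟩
  rw [h1]
  exact (hU2.isClosed_compl.isCompact.image (qq γ).continuous).isClosed.isOpen_compl

end Pool.Agent.H110
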