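import Pool.Agent.H110.Arc
import Pool.Agent.H110.Anr

/-! The annulus with an arc collapsed to a point. -/

set_option autoImplicit false

namespace Pool.Agent.H110

open Set Filter Topology

/-- the annulus `1 ≤ ‖x‖ ≤ 2` in three-space -/
abbrev An : Type := {x : E 3 // 1 ≤ ‖x‖ ∧ ‖x‖ ≤ 2}

theorem isCompact_annulus : IsCompact {x : E 3 | 1 ≤ ‖x‖ ∧ ‖x‖ ≤ 2} := by
  have : {x : E 3 | 1 ≤ ‖x‖ ∧ ‖x‖ ≤ 2} = Metric.closedBall 0 2 ∩ {x | 1 ≤ ‖x‖} := by
    ext x
    simp only [mem_ofPred_eq, mem_inter_iff, mem_closedBall_zero_iff]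
    tauto
  rw [this]
  exact (isCompact_closedBall 0 2).inter_right (isClosed_le continuous_const continuous_norm)

instance : CompactSpace An := isCompact_iff_compactSpace.1 isCompact_annulus

/-- the arcs which are used: they start at the inner sphere of the annulus and go to the
interior -/
structure IsArc (γ : unitInterval → E 3) : Prop where
  cont : Continuous γ
  inj : Function.Injective γ
  zero : ‖γ 0‖ = 1
  ge : ∀ t, 1 ≤ ‖γ t‖
  lt : ∀ t, ‖γ t‖ < 2
  one : ∀ t, ‖γ t‖ = 1 → t = 0

/-! ### radial retraction -/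

/-- the radial retraction to the annulus -/
noncomputable def rad (x : E 3) : E 3 := (max 1 (min ‖x‖ 2) / ‖x‖) • x

theorem norm_rad {x : E 3} (hx : x ≠ 0) : ‖rad x‖ = max 1 (min ‖x‖ 2) := by
  have h := norm_pos_iff.2 hx
  unfold rad
  rw [norm_smul, Real.norm_eq_abs, abs_of_nonneg (by positivity)]
  field_simp

theorem rad_mem {x : E 3} (hx : x ≠ 0) : 1 ≤ ‖rad x‖ ∧ ‖rad x‖ ≤ 2 := by
  rw [norm_rad hx]
  exact ⟨le_max_left _ _, max_le (by norm_num) (min_le_right _ _)⟩

theorem rad_eq {x : E 3} (h1 : 1 ≤ ‖x‖) (h2 : ‖x‖ ≤ 2) : rad x = x := by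
  unfold rad
  rw [min_eq_left h2, max_eq_right h1, div_self (by linarith), one_smul]

theorem continuousOn_rad : ContinuousOn rad {0}ᶜ := by
  unfold rad
  have h1 : Continuous fun x : E 3 => max 1 (min ‖x‖ 2) := by fun_prop
  have h2 : Continuous fun x : E 3 => ‖x‖ := by fun_prop
  exact ContinuousOn.smul (h1.continuousOn.div h2.continuousOn fun x hx =>
    norm_ne_zero_iff.2 hx) continuousOn_id

/-- the radial retraction as a map of the punctured space to the annulus -/
noncomputable def radMap : C(({0}ᶜ : Set (E 3)), An) :=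
  ⟨fun x => ⟨rad x.1, rad_mem x.2⟩,
    (continuousOn_iff_continuous_domRestrict.1 continuousOn_rad).subtype_mk _⟩

theorem an_ne (x : An) : x.1 ≠ 0 := by
  intro h
  have := x.2.1
  rw [h, norm_zero] at this
  linarith

/-! ### acyclicity of the complement of the arc in the annulus -/

section Homology

variable {X : Type} [TopologicalSpace X] {Z : Type} [TopologicalSpace Z]

theorem PA.retract {A : Set X} {A₀ : Set Z} (i : C(Z, X)) (r : C(X, Z)) (hri : ∀ z, r (i z) = z)
    (hi : MapsTo i A₀ A) (hr : MapsTo r A A₀) (h : PA (univ : Set X) A) :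
    PA (univ : Set Z) A₀ := by
  intro n z _ hz
  obtain ⟨d, _, hd⟩ := h n (push i n z) (chainsIn_univ _ _) (by
    cases n with
    | zero => exact Submodule.mem_top
    | succ n =>
      change bdry _ n (push i (n + 1) z) ∈ chainsIn A n
      rw [bdry_push]
      exact push_mem i hi hz)
  refine ⟨push r (n + 1) d, chainsIn_univ _ _, ?_⟩
  have h1 : push r n (push i n z) = z := by
    have h2 : push r n (push i n z) = push (r.comp i) n z := Helper534.HB.push_push i r n z
    have h3 : r.comp i = ContinuousMap.id Z := ContinuousMap.ext hri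
    rw [h2, h3, push_id]
  have h2 := push_mem r hr hd
  rw [map_sub, h1, ← bdry_push] at h2
  exact h2

/-- Transfer of acyclicity along a homotopy equivalence `f : X → Z` which identifies the
singular chains of `A` with those of `B`. -/
theorem PA.of_he (f : C(X, Z)) (g : C(Z, X)) (H : C(X × unitInterval, X))
    (H0 : ∀ x, H (x, 0) = x) (H1 : ∀ x, H (x, 1) = g (f x)) (K : C(Z × unitInterval, Z))
    (K0 : ∀ z, K (z, 0) = z) (K1 : ∀ z, K (z, 1) = f (g z)) {A : Set X} {B : Set Z}
    (hAB : MapsTo f A B) (hlift : ∀ n, ∀ z ∈ chainsIn B n, ∃ w ∈ chainsIn A n, push f n w = z)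
    (hinj : ∀ n, ∀ w ∈ chainsIn A n, push f n w = 0 → w = 0) (h : PA (univ : Set X) A) :
    PA (univ : Set Z) B := by
  -- absolute cycles
  have key : ∀ n, ∀ z : Sing Z n →₀ ℤ, z ∈ relCyc (∅ : Set Z) n →
      ∃ d, z - bdry Z n d ∈ chainsIn B n := by
    intro n z hz
    have hK := prism K (ContinuousMap.id Z) (f.comp g) K0 K1 (A := ∅) (B := ∅)
      (fun x hx => absurd hx (notMem_empty x)) n z hz
    rw [push_id] at hK
    obtain ⟨d, _, hd⟩ := h n (push g n z) (chainsIn_univ _ _) (by
      cases n with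
      | zero => exact Submodule.mem_top
      | succ n =>
        change bdry _ n (push g (n + 1) z) ∈ chainsIn A n
        rw [bdry_push]
        exact push_mem g (B := A) (fun x hx => absurd hx (notMem_empty x)) hz)
    refine ⟨push f (n + 1) d - Helper534.HB.Sc.PD K n z, ?_⟩
    have h1 := push_mem f hAB hd
    have h2 : push f n (push g n z) = push (f.comp g) n z := Helper534.HB.push_push g f n z
    rw [map_sub, h2, ← bdry_push] at h1
    have h3 := chainsIn_mono (empty_subset B) n hK
    have h4 := Submodule.sub_mem _ h1 h3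
    rw [map_sub]
    have h5 : push (f.comp g) n z - bdry Z n (push f (n + 1) d) -
        (push (f.comp g) n z - z - bdry Z n (Helper534.HB.Sc.PD K n z)) =
        z - (bdry Z n (push f (n + 1) d) - bdry Z n (Helper534.HB.Sc.PD K n z)) := by abel
    rwa [h5] at h4
  intro n z _ hz
  cases n with
  | zero =>
    obtain ⟨d, hd⟩ := key 0 z Submodule.mem_top
    exact ⟨d, chainsIn_univ _ _, hd⟩
  | succ n =>
    obtain ⟨w, hw, hwz⟩ := hlift n (bdry Z n z) hz
    have hwc : w ∈ relCyc (∅ : Set X) n := by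
      cases n with
      | zero => exact Submodule.mem_top
      | succ n =>
        change bdry X n w ∈ chainsIn _ n
        have : bdry X n w = 0 := by
          apply hinj n _ (bdry_mem hw)
          rw [← bdry_push, hwz, bdry_bdry]
        rw [this]
        exact Submodule.zero_mem _
    have hH := prism H (ContinuousMap.id X) (g.comp f) H0 H1 (A := ∅) (B := ∅)
      (fun x hx => absurd hx (notMem_empty x)) n w hwc
    rw [push_id] at hH
    have hzero : ∀ y : Sing X n →₀ ℤ, y ∈ chainsIn (∅ : Set X) n → y = 0 := by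
      intro y hy
      unfold chainsIn at hy
      rw [Finsupp.mem_supported] at hy
      rw [← Finsupp.support_eq_empty, Finset.eq_empty_iff_forall_notMem]
      intro τ hτ
      exact absurd (hy hτ (mem_range_self (⟨Pi.single 0 1, single_mem_stdSimplex ℝ 0⟩ :
        stdSimplex ℝ (Fin (n + 1)))))
        (notMem_empty _)
    have hH' := hzero _ hH
    have h2 : push (g.comp f) n w = push g n (push f n w) :=
      (Helper534.HB.push_push f g n w).symm
    rw [h2, hwz, ← bdry_push] at hH'
    set u := push g (n + 1) z - Helper534.HB.Sc.PD H n w with hu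
    have hwu : w = bdry X n u := by
      rw [hu, map_sub]
      have : bdry X n (push g (n + 1) z) - bdry X n (Helper534.HB.Sc.PD H n w) - w = 0 := by
        rw [← hH']; abel
      exact (sub_eq_zero.1 this).symm
    obtain ⟨v, _, hv⟩ := h (n + 1) u (chainsIn_univ _ _) (by
      change bdry X n u ∈ chainsIn A n
      rw [← hwu]; exact hw)
    have hB1 := push_mem f hAB hv
    obtain ⟨d, hd⟩ := key (n + 1) (z - push f (n + 1) (u - bdry X (n + 1) v)) (by
      change bdry Z n _ ∈ chainsIn _ n
      rw [map_sub, bdry_push, map_sub, bdry_bdry, sub_zero, ← hwu, hwz, sub_self]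
      exact Submodule.zero_mem _)
    refine ⟨d, chainsIn_univ _ _, ?_⟩
    have h6 := Submodule.add_mem _ hd hB1
    have h7 : z - push f (n + 1) (u - bdry X (n + 1) v) - bdry Z (n + 1) d +
        push f (n + 1) (u - bdry X (n + 1) v) = z - bdry Z (n + 1) d := by abel
    rwa [h7] at h6

end Homology

variable {γ : unitInterval → E 3}

/-- the segment from the origin to the first point of the arc -/
noncomputable def seg (γ : unitInterval → E 3) (t : unitInterval) : E 3 := (t : ℝ) • γ 0

theorem norm_seg (hγ : IsArc γ) (t : unitInterval) : ‖seg γ t‖ = t := by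
  unfold seg
  rw [norm_smul, hγ.zero, mul_one, Real.norm_eq_abs, abs_of_nonneg t.2.1]

theorem seg_ne (hγ : IsArc γ) : γ 0 ≠ 0 := by
  intro h
  have := hγ.zero
  rw [h, norm_zero] at this
  exact zero_ne_one this

variable {N : Type} [TopologicalSpace N]

theorem PA_J (hγ : IsArc γ) :
    PA (cp N (range (seg γ) ∪ range γ)) (far ×ˢ univ : Set (E 3 × N)) := by
  have hs : Continuous (seg γ) := by unfold seg; fun_prop
  have hsi : Function.Injective (seg γ) := by
    intro s t h
    have := congrArg norm h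
    rw [norm_seg hγ, norm_seg hγ] at this
    exact Subtype.ext this
  have hsb : ∀ t, ‖seg γ t‖ ≤ 2 := fun t => by
    rw [norm_seg hγ]; linarith [t.2.2]
  rw [← cp_inter]
  have hcap : range (seg γ) ∩ range γ = {γ 0} := by
    ext x
    constructor
    · rintro ⟨⟨s, rfl⟩, ⟨t, ht⟩⟩
      have h1 := hγ.ge t
      rw [ht, norm_seg hγ] at h1
      have h2 : (s : ℝ) = 1 := le_antisymm s.2.2 h1
      rw [mem_singleton_iff]
      unfold seg
      rw [h2, one_smul]
    · rintro rfl
      exact ⟨⟨1, by simp [seg]⟩, ⟨0, rfl⟩⟩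
  refine PA_mv (cp_open (isCompact_range hs).isClosed) (cp_open (isCompact_range hγ.cont).isClosed)
    ?_ ?_ (PA_arc _ hs hsi hsb) (PA_arc _ hγ.cont hγ.inj fun t => (hγ.lt t).le)
  · rw [cp_inter]
    apply far_sub_cp
    rintro _ (⟨t, rfl⟩ | ⟨t, rfl⟩)
    · exact hsb t
    · exact (hγ.lt t).le
  · rw [cp_union, hcap]
    exact PA_point _ (by rw [hγ.zero]; norm_num)

/-- the part of the annulus outside the arc -/
def offArc (γ : unitInterval → E 3) : Set An := {x | x.1 ∉ range γ}

/-- The complement of the arc in the annulus times `N`. -/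
theorem PA_offArc (hγ : IsArc γ) : PA (univ : Set (An × N)) (offArc γ ×ˢ univ) := by
  have h1 : PA (cp N {0}) (cp N (range (seg γ) ∪ range γ)) := by
    refine PA.of_trans_left (C := far ×ˢ univ) (cp_mono ?_) (far_sub_cp ?_)
      (PA_point 0 (by simp)) (PA_J hγ)
    · rintro _ rfl
      left
      exact ⟨0, by simp [seg]⟩
    · rintro _ (⟨t, rfl⟩ | ⟨t, rfl⟩)
      · rw [norm_seg hγ]; linarith [t.2.2]
      · exact (hγ.lt t).le
  let ι : C(({0}ᶜ : Set (E 3)) × N, E 3 × N) :=
    ⟨fun p => (p.1.1, p.2), by fun_prop⟩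
  have hι : Topology.IsEmbedding ι :=
    Topology.IsEmbedding.subtypeVal.prodMap Topology.IsEmbedding.id
  have h2 : PA (univ : Set (({0}ᶜ : Set (E 3)) × N))
      (ι ⁻¹' cp N (range (seg γ) ∪ range γ)) := by
    apply PA.of_image ι hι
    have e1 : ι '' univ = cp N {0} := by
      rw [image_univ]
      ext ⟨x, n⟩
      constructor
      · rintro ⟨⟨y, m⟩, h⟩
        have : y.1 = x := congrArg Prod.fst h
        exact ⟨by rw [← this]; exact y.2, mem_univ _⟩
      · rintro ⟨hx, _⟩
        exact ⟨(⟨x, hx⟩, n), rfl⟩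
    have e2 : ι '' (ι ⁻¹' cp N (range (seg γ) ∪ range γ)) =
        cp N (range (seg γ) ∪ range γ) := by
      apply image_preimage_eq_of_subset
      have e3 : range ι = cp N {0} := by rw [← e1, image_univ]
      rw [e3]
      apply cp_mono
      rintro _ rfl
      left
      exact ⟨0, by simp [seg]⟩
    rw [e1, e2]
    exact h1
  let i : C(An × N, ({0}ᶜ : Set (E 3)) × N) :=
    ⟨fun p => (⟨p.1.1, an_ne p.1⟩, p.2), by fun_prop⟩
  let r : C(({0}ᶜ : Set (E 3)) × N, An × N) :=
    ⟨fun p => (radMap p.1, p.2), by fun_prop⟩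
  refine PA.retract i r ?_ ?_ ?_ h2
  · rintro ⟨x, n⟩
    refine Prod.ext (Subtype.ext ?_) rfl
    exact rad_eq x.2.1 x.2.2
  · rintro ⟨x, n⟩ ⟨hx, _⟩
    refine ⟨?_, mem_univ _⟩
    rintro (⟨t, ht⟩ | ht)
    · have ht' : seg γ t = x.1 := ht
      have h3 := x.2.1
      rw [← ht', norm_seg hγ] at h3
      have h4 : (t : ℝ) = 1 := le_antisymm t.2.2 h3
      apply hx
      refine ⟨0, ?_⟩
      rw [← ht']
      unfold seg
      rw [h4, one_smul]
    · exact hx ht
  · rintro ⟨x, n⟩ ⟨hx, _⟩
    refine ⟨?_, mem_univ _⟩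
    rintro ⟨t, ht⟩
    have ht' : γ t = rad x.1 := ht
    have hx0 : x.1 ≠ 0 := x.2
    have hpos := norm_pos_iff.2 hx0
    apply hx
    by_cases h1 : ‖x.1‖ < 1
    · left
      have h3 : ‖rad x.1‖ = 1 := by
        rw [norm_rad hx0]
        apply max_eq_left
        exact (min_le_left _ _).trans h1.le
      rw [← ht'] at h3
      have h4 := hγ.one t h3
      rw [h4] at ht'
      refine ⟨⟨‖x.1‖, norm_nonneg _, h1.le⟩, ?_⟩
      change ‖x.1‖ • γ 0 = x.1
      rw [ht']
      unfold rad
      have h5 : max 1 (min ‖x.1‖ 2) = 1 := max_eq_left ((min_le_left _ _).trans h1.le)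
      rw [h5, smul_smul, mul_one_div_cancel hpos.ne', one_smul]
    · push Not at h1
      by_cases h2 : ‖x.1‖ ≤ 2
      · right
        rw [rad_eq h1 h2] at ht'
        exact ⟨t, ht'⟩
      · exfalso
        push Not at h2
        have h3 := hγ.lt t
        rw [ht', norm_rad hx0, min_eq_right h2.le] at h3
        norm_num at h3

end Pool.Agent.H110
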