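import Mathlib

/-! # Nested sequences in a base of a Čech-complete space

Given a sequence of open covers, each indexed by a well-ordered set, send a point `x` to the
sequence `a k x` of first indices whose member contains `x`. The open sets in which these
sequences have a lexicographic maximum (in the sense of `RB`) form a base, and if the sequence of
covers is complete then every nested sequence of such sets has a point in common. -/

set_option autoImplicit false

namespace Pool.Agent.H110.Telgarsky

open Set Topology TopologicalSpace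

variable {X ι : Type*} [LinearOrder ι]

/-- `t` is the lexicographic maximum of the sequences `a · y`, `y ∈ B`: at each stage `k` some
point of `B` follows `t` below `k`, and the points of `B` which follow `t` below `k` do not
exceed `t` at `k`. -/
def RB (a : ℕ → X → ι) (B : Set X) (t : ℕ → ι) : Prop :=
  (∀ k, ∃ y ∈ B, ∀ i < k, a i y = t i) ∧
    ∀ k, ∀ z ∈ B, (∀ i < k, a i z = t i) → a k z ≤ t k

theorem RB.nonempty {a : ℕ → X → ι} {B : Set X} {t : ℕ → ι} (h : RB a B t) : B.Nonempty := by
  obtain ⟨y, hy, -⟩ := h.1 0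
  exact ⟨y, hy⟩

/-- The lexicographic maxima of a decreasing sequence of sets stabilise, coordinate by
coordinate. -/
theorem stabilise [WellFoundedLT ι] {a : ℕ → X → ι} {B : ℕ → Set X} {t : ℕ → ℕ → ι}
    (hB : ∀ n, B (n + 1) ⊆ B n) (h : ∀ n, RB a (B n) (t n)) (k : ℕ) :
    ∃ N, ∀ n, N ≤ n → ∀ i < k, t n i = t N i := by
  induction k with
  | zero => exact ⟨0, fun n _ i hi => absurd hi (Nat.not_lt_zero i)⟩
  | succ k ih =>
    obtain ⟨N, hN⟩ := ih
    have hstep : ∀ n, N ≤ n → t (n + 1) k ≤ t n k := by
      intro n hn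
      obtain ⟨y, hy, hyt⟩ := (h (n + 1)).1 (k + 1)
      have h1 := (h n).2 k y (hB n hy) (fun i hi => by
        rw [hyt i (by omega), hN (n + 1) (by omega) i hi, hN n hn i hi])
      rwa [hyt k (by omega)] at h1
    have hanti : ∀ n m, N ≤ n → n ≤ m → t m k ≤ t n k := by
      intro n m hn hnm
      induction m, hnm using Nat.le_induction with
      | base => exact le_rfl
      | succ m hm ih => exact (hstep m (by omega)).trans ih
    have hwf : ({i : ι | ∃ n, N ≤ n ∧ t n k = i} : Set ι).Nonempty := ⟨t N k, N, le_rfl, rfl⟩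
    obtain ⟨N', hN', hmin⟩ := (wellFounded_lt (α := ι)).min_mem _ hwf
    refine ⟨N', fun n hn i hi => ?_⟩
    rcases Nat.lt_succ_iff_lt_or_eq.1 hi with hi | rfl
    · rw [hN n (by omega) i hi, hN N' hN' i hi]
    · apply le_antisymm (hanti N' n hN' hn)
      rw [hmin]
      exact not_lt.1 ((wellFounded_lt (α := ι)).not_lt_min _
        (show t n i ∈ {j : ι | ∃ n, N ≤ n ∧ t n i = j} from ⟨n, by omega, rfl⟩))

theorem exists_branch [WellFoundedLT ι] {a : ℕ → X → ι} {B : ℕ → Set X} {t : ℕ → ℕ → ι}
    (hB : ∀ n, B (n + 1) ⊆ B n) (h : ∀ n, RB a (B n) (t n)) :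
    ∃ s : ℕ → ι, ∀ k n, ∃ y ∈ B n, ∀ i < k, a i y = s i := by
  choose N hN using stabilise hB h
  refine ⟨fun i => t (N (i + 1)) i, fun k n => ?_⟩
  have hle : ∀ n m, n ≤ m → B m ⊆ B n := by
    intro n m hnm
    induction m, hnm using Nat.le_induction with
    | base => exact subset_rfl
    | succ m hm ih => exact (hB m).trans ih
  have key : ∀ i < k, ∀ m, N k ≤ m → t m i = t (N (i + 1)) i := by
    intro i hi m hm
    have h1 := hN k (max m (N (i + 1))) (by omega) i hi
    have h2 := hN (i + 1) (max m (N (i + 1))) (by omega) i (by omega)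
    rw [hN k m hm i hi, ← h1, h2]
  obtain ⟨y, hy, hyt⟩ := (h (max n (N k))).1 k
  exact ⟨y, hle n _ (le_max_left _ _) hy, fun i hi => by
    rw [hyt i hi, key i hi _ (le_max_right _ _)]⟩

section Base

variable [TopologicalSpace X] {a : ℕ → X → ι} {O : ℕ → ι → Set X}

omit [LinearOrder ι] in
/-- The open neighbourhood of `y` on whose points the first `m` indices are at most those
of `y`. -/
theorem isOpen_box (hO : ∀ k i, IsOpen (O k i)) (y : X) (m : ℕ) :
    IsOpen (⋂ i ∈ Finset.range m, O i (a i y)) :=
  isOpen_biInter_finset fun i _ => hO i _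

/-- Every open set `V` around `y` contains an open set with a lexicographic maximum that starts
like the sequence of `y`. -/
theorem exists_pi [WellFoundedLT ι] (hO : ∀ k i, IsOpen (O k i)) (hmem : ∀ k x, x ∈ O k (a k x))
    (hle : ∀ k x z, z ∈ O k (a k x) → a k z ≤ a k x) {V : Set X} (hV : IsOpen V) {y : X}
    (hy : y ∈ V) (m : ℕ) :
    ∃ P : Set X, IsOpen P ∧ P ⊆ V ∧ ∃ t, RB a P t ∧ ∀ i < m, t i = a i y := by
  by_cases hA : ∀ z ∈ V, (∀ i < m, a i z = a i y) → ∀ n, m ≤ n → ∃ z' ∈ V, ∃ w ∈ V, ∃ n', n ≤ n' ∧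
      (∀ i < n, a i z' = a i z) ∧ (∀ i < n', a i w = a i z') ∧ a n' w < a n' z'
  · -- branching case
    let S := {p : X × ℕ // p.1 ∈ V ∧ (∀ i < m, a i p.1 = a i y) ∧ m ≤ p.2}
    have hA' : ∀ p : S, ∃ z' ∈ V, ∃ w ∈ V, ∃ n', p.1.2 ≤ n' ∧
      (∀ i < p.1.2, a i z' = a i p.1.1) ∧ (∀ i < n', a i w = a i z') ∧ a n' w < a n' z' :=
      fun p => hA p.1.1 p.2.1 p.2.2.1 p.1.2 p.2.2.2
    choose z' hz' w hw n' hn' h1 h2 h3 using hA'
    let nxt : S → S := fun p => ⟨(z' p, n' p + 1), hz' p, fun i hi => by
      rw [h1 p i (lt_of_lt_of_le hi p.2.2.2)]; exact p.2.2.1 i hi,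
      p.2.2.2.trans ((hn' p).trans (Nat.le_succ _))⟩
    let p : ℕ → S := fun j => Nat.rec ⟨(y, m), hy, fun _ _ => rfl, le_rfl⟩ (fun _ q => nxt q) j
    have hp0 : (p 0).1 = (y, m) := rfl
    have hps : ∀ j, p (j + 1) = nxt (p j) := fun j => rfl
    have hn : ∀ j, (p (j + 1)).1.2 = n' (p j) + 1 := fun j => rfl
    have hz : ∀ j, (p (j + 1)).1.1 = z' (p j) := fun j => rfl
    have hj : ∀ j, j ≤ (p j).1.2 := by
      intro j
      induction j with
      | zero => exact Nat.zero_le _
      | succ j ih => rw [hn]; have := hn' (p j); omega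
    have hcoh : ∀ j l, j ≤ l → ∀ i < (p j).1.2, a i (p l).1.1 = a i (p j).1.1 := by
      intro j l hjl
      induction l, hjl using Nat.le_induction with
      | base => intro i _; rfl
      | succ l hl ih =>
        intro i hi
        have hmono : (p j).1.2 ≤ (p l).1.2 := by
          clear ih hi
          induction l, hl using Nat.le_induction with
          | base => exact le_rfl
          | succ l hl ih => rw [hn]; have := hn' (p l); omega
        rw [hz, h1 (p l) i (by omega), ih i hi]
    let t : ℕ → ι := fun i => a i (p (i + 1)).1.1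
    have ht : ∀ j, ∀ i < (p j).1.2, a i (p j).1.1 = t i := by
      intro j i hi
      rcases le_total j (i + 1) with h | h
      · exact (hcoh j (i + 1) h i hi).symm
      · exact hcoh (i + 1) j h i (by have := hj (i + 1); omega)
    have hwt : ∀ j, ∀ i < n' (p j), a i (w (p j)) = t i := by
      intro j i hi
      rw [h2 (p j) i hi, ← hz, ht (j + 1) i (by rw [hn]; omega)]
    have hwlt : ∀ j, a (n' (p j)) (w (p j)) < t (n' (p j)) := by
      intro j
      rw [← ht (j + 1) (n' (p j)) (by rw [hn]; omega), hz]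
      exact h3 (p j)
    let Nj : ℕ → Set X := fun j =>
      V ∩ ⋂ i ∈ Finset.range (n' (p j) + 1), O i (a i (w (p j)))
    have hNle : ∀ j, ∀ z ∈ Nj j, ∀ i ≤ n' (p j), a i z ≤ a i (w (p j)) := by
      intro j z hz i hi
      refine hle i _ _ ?_
      have := hz.2
      simp only [mem_iInter, Finset.mem_range] at this
      exact this i (by omega)
    have hwN : ∀ j, w (p j) ∈ Nj j := by
      intro j
      refine ⟨hw _, ?_⟩
      simp only [mem_iInter, Finset.mem_range]
      intro i _
      exact hmem i _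
    refine ⟨⋃ j, Nj j, isOpen_iUnion fun j => hV.inter (isOpen_box hO _ _),
      iUnion_subset fun j => inter_subset_left, t, ⟨fun k => ?_, fun k z hz hzt => ?_⟩, ?_⟩
    · refine ⟨w (p k), mem_iUnion.2 ⟨k, hwN k⟩, fun i hi => hwt k i ?_⟩
      have := hj k
      have := hn' (p k)
      omega
    · obtain ⟨j, hzj⟩ := mem_iUnion.1 hz
      rcases lt_trichotomy k (n' (p j)) with hk | hk | hk
      · rw [← hwt j k hk]
        exact hNle j z hzj k hk.le
      · rw [hk]
        exact (hNle j z hzj _ le_rfl).trans (hwlt j).le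
      · exact absurd ((hNle j z hzj _ le_rfl).trans_lt (hwlt j)) (by rw [hzt _ hk]; exact lt_irrefl _)
    · intro i hi
      rw [← ht 0 i (by rw [hp0]; exact hi), hp0]
  · -- non-branching case
    push Not at hA
    obtain ⟨z, hz, hzy, n, hmn, hB⟩ := hA
    have hall : ∀ z' ∈ V, (∀ i < n, a i z' = a i z) → ∀ k, a k z' = a k z := by
      intro z' hz' hag k
      induction k using Nat.strong_induction_on with
      | _ k ih =>
        rcases lt_or_ge k n with hk | hk
        · exact hag k hk
        · apply le_antisymm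
          · exact hB z' hz' z hz k hk hag (fun i hi => (ih i hi).symm)
          · exact hB z hz z' hz' k hk (fun _ _ => rfl) ih
    refine ⟨V ∩ ⋂ i ∈ Finset.range n, O i (a i z), hV.inter (isOpen_box hO _ _),
      inter_subset_left, fun k => a k z, ⟨fun k => ⟨z, ⟨hz, ?_⟩, fun _ _ => rfl⟩,
      fun k z' hz' hag => ?_⟩, fun i hi => hzy i hi⟩
    · simp only [mem_iInter, Finset.mem_range]
      intro i _
      exact hmem i _
    · rcases lt_or_ge k n with hk | hk
      · have := hz'.2
        simp only [mem_iInter, Finset.mem_range] at this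
        exact hle k _ _ (this k hk)
      · exact (hall z' hz'.1 (fun i hi => hag i (by omega)) k).le

/-- The open sets with a lexicographic maximum form a base. -/
theorem isTopologicalBasis_RB [WellFoundedLT ι] (hO : ∀ k i, IsOpen (O k i))
    (hmem : ∀ k x, x ∈ O k (a k x)) (hle : ∀ k x z, z ∈ O k (a k x) → a k z ≤ a k x) :
    IsTopologicalBasis {B : Set X | IsOpen B ∧ ∃ t, RB a B t} := by
  refine isTopologicalBasis_of_isOpen_of_nhds (fun B hB => hB.1) fun x U hx hU => ?_
  by_cases hmax : ∀ k, ∀ y ∈ U, (∀ i < k, a i y = a i x) → a k y ≤ a k x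
  · exact ⟨U, ⟨hU, fun k => a k x, fun k => ⟨x, hx, fun _ _ => rfl⟩, hmax⟩, hx, subset_rfl⟩
  · push Not at hmax
    obtain ⟨k, y, hy, hyx, hlt⟩ := hmax
    obtain ⟨P, hPo, hPU, t, hPt, hty⟩ := exists_pi hO hmem hle hU hy (k + 1)
    refine ⟨(U ∩ ⋂ i ∈ Finset.range (k + 1), O i (a i x)) ∪ P,
      ⟨(hU.inter (isOpen_box hO _ _)).union hPo, t, fun j => ?_, fun j z hz hzt => ?_⟩,
      Or.inl ⟨hx, ?_⟩, union_subset inter_subset_left hPU⟩
    · obtain ⟨z, hz, hzt⟩ := hPt.1 j
      exact ⟨z, Or.inr hz, hzt⟩
    · rcases hz with hz | hz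
      · have h1 : ∀ i ≤ k, a i z ≤ a i x := by
          intro i hi
          have := hz.2
          simp only [mem_iInter, Finset.mem_range] at this
          exact hle i _ _ (this i (by omega))
        rcases lt_trichotomy j k with hj | hj | hj
        · rw [hty j (by omega), hyx j hj]
          exact h1 j hj.le
        · subst hj
          rw [hty j (by omega)]
          exact (h1 j le_rfl).trans hlt.le
        · exact absurd ((h1 k le_rfl).trans_lt hlt)
            (by rw [hzt k hj, hty k (by omega)]; exact lt_irrefl _)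
      · exact hPt.2 j z hz hzt
    · simp only [mem_iInter, Finset.mem_range]
      intro i _
      exact hmem i _

end Base

/-- A sequence of sets is nested if the closure of each term lies in the interior of the
preceding one. -/
def IsNested [TopologicalSpace X] (B : ℕ → Set X) : Prop :=
  ∀ n, closure (B (n + 1)) ⊆ interior (B n)

/-- A space is strongly Telgársky pseudocomplete if it has a base of nonempty open sets such that
every nested sequence of its members has a point in common. -/
def StronglyTelgarskyPseudocomplete (X : Type*) [TopologicalSpace X] : Prop :=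
  ∃ 𝓑 : Set (Set X), IsTopologicalBasis 𝓑 ∧ (∀ B ∈ 𝓑, B.Nonempty) ∧
    ∀ B : ℕ → Set X, (∀ n, B n ∈ 𝓑) → IsNested B → (⋂ n, B n).Nonempty

/-- The index set: sets in `X`, to be well-ordered. -/
structure Idx (X : Type*) where
  /-- the set -/
  val : Set X

open Classical in
noncomputable instance (X : Type*) : LinearOrder (Idx X) :=
  linearOrderOfSTO (WellOrderingRel (α := Idx X))

instance (X : Type*) : WellFoundedLT (Idx X) := ⟨(WellOrderingRel.isWellOrder (α := Idx X)).wf⟩

/-- A space with a complete sequence of open covers is strongly Telgársky pseudocomplete. -/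
theorem stronglyTelgarsky_of_covers {X : Type*} [TopologicalSpace X] (𝓤 : ℕ → Set (Set X))
    (hopen : ∀ k, ∀ U ∈ 𝓤 k, IsOpen U) (hcov : ∀ k x, ∃ U ∈ 𝓤 k, x ∈ U)
    (hcomp : ∀ A : ℕ → Set X, (∀ n, A (n + 1) ⊆ A n) → (∀ n, (A n).Nonempty) →
      (∀ k, ∃ n, ∃ U ∈ 𝓤 k, A n ⊆ U) → (⋂ n, closure (A n)).Nonempty) :
    StronglyTelgarskyPseudocomplete X := by
  classical
  let O : ℕ → Idx X → Set X := fun k i => if i.val ∈ 𝓤 k then i.val else ∅
  have hO : ∀ k i, IsOpen (O k i) := by
    intro k i
    by_cases h : i.val ∈ 𝓤 k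
    · simp only [O, if_pos h]; exact hopen k _ h
    · simp only [O, if_neg h]; exact isOpen_empty
  have hne : ∀ k x, {i : Idx X | x ∈ O k i}.Nonempty := by
    intro k x
    obtain ⟨U, hU, hx⟩ := hcov k x
    exact ⟨⟨U⟩, by simpa only [O, Set.mem_ofPred_eq, if_pos hU] using hx⟩
  let a : ℕ → X → Idx X := fun k x => (wellFounded_lt (α := Idx X)).min _ (hne k x)
  have hmem : ∀ k x, x ∈ O k (a k x) := fun k x =>
    (wellFounded_lt (α := Idx X)).min_mem _ (hne k x)
  have hle : ∀ k x z, z ∈ O k (a k x) → a k z ≤ a k x := fun k x z hz =>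
    not_lt.1 ((wellFounded_lt (α := Idx X)).not_lt_min _ (show a k x ∈ {i | z ∈ O k i} from hz))
  have hsub : ∀ k x, ∃ U ∈ 𝓤 k, O k (a k x) ⊆ U := by
    intro k x
    have h1 := hmem k x
    by_cases h : (a k x).val ∈ 𝓤 k
    · exact ⟨_, h, by simp only [O, if_pos h]; exact subset_rfl⟩
    · simp only [O, if_neg h] at h1
      exact absurd h1 (notMem_empty x)
  refine ⟨_, isTopologicalBasis_RB hO hmem hle, fun B hB => ?_, fun B hB hnest => ?_⟩
  · obtain ⟨-, t, ht⟩ := hB
    exact ht.nonempty
  · choose hBo t ht using hB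
    have hdec : ∀ n, B (n + 1) ⊆ B n := fun n =>
      subset_closure.trans ((hnest n).trans interior_subset)
    obtain ⟨s, hs⟩ := exists_branch hdec ht
    have hA := hcomp (fun n => B n ∩ {x | ∀ i < n, a i x = s i})
      (fun n x hx => ⟨hdec n hx.1, fun i hi => hx.2 i (by omega)⟩)
      (fun n => by
        obtain ⟨y, hy, hys⟩ := hs n n
        exact ⟨y, hy, hys⟩)
      (fun k => by
        obtain ⟨y, hy, hys⟩ := hs (k + 1) 0
        obtain ⟨U, hU, hUs⟩ := hsub k y
        refine ⟨k + 1, U, hU, fun x hx => hUs ?_⟩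
        rw [hys k (by omega), ← hx.2 k (by omega)]
        exact hmem k x)
    obtain ⟨x, hx⟩ := hA
    refine ⟨x, mem_iInter.2 fun n => interior_subset (hnest n (closure_mono ?_ (mem_iInter.1 hx (n + 1))))⟩
    exact inter_subset_left

/-- A Tychonoff space is Čech-complete if it is a `G_δ` subset of its Stone-Čech
compactification. -/
def IsCechComplete (X : Type*) [TopologicalSpace X] : Prop :=
  T35Space X ∧ IsGδ (range (stoneCechUnit : X → StoneCech X))

theorem stronglyTelgarsky_of_cechComplete {X : Type*} [TopologicalSpace X]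
    (h : IsCechComplete X) : StronglyTelgarskyPseudocomplete X := by
  obtain ⟨h35, hG⟩ := h
  obtain ⟨G, hGo, hGe⟩ := isGδ_iff_eq_iInter_nat.1 hG
  have hind : IsInducing (stoneCechUnit : X → StoneCech X) := isInducing_stoneCechUnit
  refine stronglyTelgarsky_of_covers
    (fun k => {U | IsOpen U ∧ closure (stoneCechUnit '' U) ⊆ G k})
    (fun k U hU => hU.1) (fun k x => ?_) (fun A hdec hne hsm => ?_)
  · have hx : stoneCechUnit x ∈ G k := by
      have : stoneCechUnit x ∈ ⋂ n, G n := hGe ▸ mem_range_self x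
      exact mem_iInter.1 this k
    obtain ⟨V, hVn, hVc, hVG⟩ := exists_mem_nhds_isClosed_subset ((hGo k).mem_nhds hx)
    refine ⟨stoneCechUnit ⁻¹' (interior V), ⟨isOpen_interior.preimage continuous_stoneCechUnit,
      ?_⟩, mem_interior_iff_mem_nhds.2 hVn⟩
    refine (closure_minimal ?_ hVc).trans hVG
    exact (image_preimage_subset _ _).trans interior_subset
  · obtain ⟨p, hp⟩ : (⋂ n, closure (stoneCechUnit '' A n)).Nonempty := by
      apply IsCompact.nonempty_iInter_of_sequence_nonempty_isCompact_isClosed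
      · exact fun n => closure_mono (image_mono (hdec n))
      · exact fun n => ((hne n).image _).closure
      · exact isClosed_closure.isCompact
      · exact fun n => isClosed_closure
    have hpr : p ∈ range (stoneCechUnit : X → StoneCech X) := by
      rw [hGe]
      refine mem_iInter.2 fun k => ?_
      obtain ⟨n, U, hU, hAU⟩ := hsm k
      exact hU.2 (closure_mono (image_mono hAU) (mem_iInter.1 hp n))
    obtain ⟨x, rfl⟩ := hpr
    refine ⟨x, mem_iInter.2 fun n => ?_⟩
    rw [hind.closure_eq_preimage_closure_image]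
    exact mem_iInter.1 hp n

theorem stronglyTelgarsky_of_completelyMetrizable {X : Type*} [TopologicalSpace X]
    [IsCompletelyMetrizableSpace X] : StronglyTelgarskyPseudocomplete X := by
  let := upgradeIsCompletelyMetrizable X
  refine stronglyTelgarsky_of_covers
    (fun k => {U | IsOpen U ∧ ∀ x ∈ U, ∀ y ∈ U, dist x y < 2 * (1 / (k + 1 : ℝ))})
    (fun k U hU => hU.1) (fun k x => ?_) (fun A hdec hne hsm => ?_)
  · refine ⟨Metric.ball x (1 / (k + 1 : ℝ)), ⟨Metric.isOpen_ball, fun y hy z hz => ?_⟩,
      Metric.mem_ball_self (by positivity)⟩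
    calc dist y z ≤ dist y x + dist z x := dist_triangle_right y z x
      _ < 2 * (1 / (k + 1 : ℝ)) := by
        have h1 := Metric.mem_ball.1 hy
        have h2 := Metric.mem_ball.1 hz
        linarith
  · choose y hy using hne
    have hle : ∀ n m, n ≤ m → A m ⊆ A n := by
      intro n m hnm
      induction m, hnm using Nat.le_induction with
      | base => exact subset_rfl
      | succ m hm ih => exact (hdec m).trans ih
    have hc : CauchySeq y := by
      refine Metric.cauchySeq_iff'.2 fun ε hε => ?_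
      obtain ⟨k, hk⟩ := exists_nat_one_div_lt (show (0 : ℝ) < ε / 2 by linarith)
      obtain ⟨n, U, hU, hAU⟩ := hsm k
      refine ⟨n, fun m hm => ?_⟩
      have := hU.2 _ (hAU (hle n m hm (hy m))) _ (hAU (hy n))
      linarith
    obtain ⟨x, hx⟩ := cauchySeq_tendsto_of_complete hc
    refine ⟨x, mem_iInter.2 fun n => mem_closure_of_tendsto hx ?_⟩
    filter_upwards [Filter.eventually_ge_atTop n] with m hm
    exact hle n m hm (hy m)

end Pool.Agent.H110.Telgarsky
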