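import Pool.Agent.Helper607.Wild.Tube
import Pool.Agent.Helper607.Wild.LabCyc
import Pool.Agent.Helper607.Wild.LabCover
import Pool.Agent.Helper607.Wild.CycTriv
import Pool.Agent.Helper607.Wild.PathFacts
import Pool.Agent.Helper607.Wild.VertFacts
import Pool.Agent.Helper607.Wild.Flat

/-! The wild arc: parametrisation, and a loop in its complement which does not bound a disk
there. -/

set_option autoImplicit false

namespace Pool.Agent.H110

open Set Filter Topology
open Pool.Agent.Helper607.Wild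

theorem nK {v : Z3} (h : v ∉ {v : Z3 | Tab.isK v = true}) : Tab.isK v = false := by
  cases hh : Tab.isK v
  · rfl
  · exact absurd hh h

/-- the explicit labelled path of the library -/
def lab : Lab where
  K := {v | Tab.isK v = true}
  P := Tab.path
  ρ := Tab.rho
  flat := fun q u v w hu hv hw hKu hKv hKw =>
    Tab.rho_flat q u v w hu hv hw (nK hKu) (nK hKv) (nK hKw)
  outer := fun q v w hv hw hKv hKw h h' => Tab.rho_outer q v w hv hw (nK hKv) (nK hKw) h h'
  hole := fun q v w hv hw hKv hKw h1 h2 h3 h4 h5 h6 =>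
    Tab.rho_hole q v w hv hw (nK hKv) (nK hKw) h1 h2 h3 h4 h5 h6
  vert := fun v hv => ⟨Tab.idx v, Tab.path_idx v hv⟩
  adj := fun m n h => by
    have := Tab.idx_adj (Tab.path m) (Tab.path n) (Tab.isK_path m) (Tab.isK_path n) h
    rw [Tab.idx_path, Tab.idx_path] at this
    exact this

theorem path_inj : Function.Injective Tab.path := fun m n h => by
  have := congrArg Tab.idx h
  rwa [Tab.idx_path, Tab.idx_path] at this

theorem pathData : PathData Tab.path where
  inj := path_inj
  step := Tab.path_dot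
  floor := fun n h0 h1 => by
    unfold Tab.path
    rw [if_neg (by omega), if_neg (by omega), if_neg (by omega), if_neg (by omega)]
    split_ifs with h
    · have : n = 12 := by omega
      subst this
      norm_num
    · rfl
  vertR := fun n h0 h1 => by
    unfold Tab.path
    rw [if_neg (by omega), if_neg (by omega), if_neg (by omega), if_neg (by omega),
      if_neg (by omega)]
    split_ifs with h
    · have : n = 0 := by omega
      subst this
      norm_num
    · rfl
  vertL := fun n h0 h1 => by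
    unfold Tab.path
    rw [if_neg (by omega), if_neg (by omega), if_neg (by omega)]
    split_ifs with h
    · have : n = 25 := by omega
      subst this
      norm_num
    · rfl
  box := Tab.path_box
  growth := Tab.path_growth

/-! ### the spindle map -/

theorem mu_pos (t : ℝ) : 0 < mu t := lt_of_lt_of_le one_pos (le_max_left _ _)

theorem mu_ge (t : ℝ) : 1 ≤ mu t := le_max_left _ _

theorem nu_mu (t : ℝ) : nu ((mu t)⁻¹ * t) = (mu t)⁻¹ := by
  unfold nu
  rw [abs_mul, abs_of_pos (inv_pos.2 (mu_pos t))]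
  unfold mu
  have h0 := abs_nonneg t
  by_cases h : |t| ≤ 8
  · have h1 : max 1 ((1 + |t|) / 9) = 1 := max_eq_left (by linarith)
    rw [h1, inv_one, one_mul]
    exact min_eq_left (by linarith)
  · push Not at h
    have h1 : max 1 ((1 + |t|) / 9) = (1 + |t|) / 9 := max_eq_right (by linarith)
    have h2 : (9 : ℝ) - ((1 + |t|) / 9)⁻¹ * |t| = ((1 + |t|) / 9)⁻¹ := by
      field_simp; ring
    rw [h1, h2]
    apply min_eq_right
    rw [inv_le_one₀ (by linarith)]
    linarith

theorem hmap_abs_lt (t : ℝ) : |(mu t)⁻¹ * t| < 9 := by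
  rw [abs_mul, abs_of_pos (inv_pos.2 (mu_pos t)), inv_mul_lt_iff₀ (mu_pos t)]
  have h1 : (1 + |t|) / 9 ≤ mu t := le_max_right _ _
  linarith

theorem mu_nu (s : ℝ) (hs : |s| < 9) : mu ((nu s)⁻¹ * s) = (nu s)⁻¹ := by
  have h0 := abs_nonneg s
  have hn : 0 < nu s := nu_pos hs
  unfold mu
  rw [abs_mul, abs_of_pos (inv_pos.2 hn)]
  unfold nu
  by_cases h : |s| ≤ 8
  · have h1 : min 1 (9 - |s|) = 1 := min_eq_left (by linarith)
    rw [h1, inv_one, one_mul]
    exact max_eq_left (by linarith)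
  · push Not at h
    have h1 : min 1 (9 - |s|) = 9 - |s| := min_eq_right (by linarith)
    have h3 : (0 : ℝ) < 9 - |s| := by linarith
    have h2 : (1 + (9 - |s|)⁻¹ * |s|) / 9 = (9 - |s|)⁻¹ := by
      field_simp; ring
    rw [h1, h2]
    apply max_eq_right
    rw [one_le_inv₀ h3]
    linarith

theorem lift_hmap (p : R3) : lift (hmap p) = p := by
  unfold lift
  have h1 : (hmap p).1 = (mu p.1)⁻¹ * p.1 := rfl
  rw [h1, nu_mu, inv_inv]
  unfold hmap
  rw [smul_smul, mul_inv_cancel₀ (mu_pos p.1).ne', one_smul]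

theorem hmap_lift (x : R3) (hx : |x.1| < 9) : hmap (lift x) = x := by
  unfold hmap
  have h1 : (lift x).1 = (nu x.1)⁻¹ * x.1 := rfl
  rw [h1, mu_nu _ hx, inv_inv]
  unfold lift
  rw [smul_smul, mul_inv_cancel₀ (nu_pos hx).ne', one_smul]

theorem cont_hmap : Continuous hmap := by
  have h1 : Continuous (fun p : R3 => mu p.1) := by
    unfold mu
    fun_prop
  have h2 : Continuous (fun p : R3 => (mu p.1)⁻¹) := h1.inv₀ (fun p => (mu_pos p.1).ne')
  exact h2.smul continuous_id

theorem dist_hmap (p : R3) (σ : ℝ) (hσ : σ = 1 ∨ σ = -1) (hp : 8 ≤ σ * p.1) (h2 : |p.2.1| ≤ 3)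
    (h3 : |p.2.2| ≤ 3) : dist (σ * 9, (0 : ℝ), (0 : ℝ)) (hmap p) ≤ 27 / (1 + σ * p.1) := by
  have hab : |p.1| = σ * p.1 := by
    rcases hσ with rfl | rfl
    · rw [one_mul] at hp ⊢; exact abs_of_nonneg (by linarith)
    · rw [neg_one_mul] at hp ⊢; exact abs_of_nonpos (by linarith)
  have hmu : mu p.1 = (1 + σ * p.1) / 9 := by
    unfold mu
    rw [hab]
    exact max_eq_right (by linarith)
  have hpos : 0 < 1 + σ * p.1 := by linarith
  have hh : hmap p = ((9 / (1 + σ * p.1)) * p.1, (9 / (1 + σ * p.1)) * p.2.1,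
      (9 / (1 + σ * p.1)) * p.2.2) := by
    unfold hmap
    rw [hmu, inv_div]
    rfl
  have hσ2 : σ * σ = 1 := by rcases hσ with rfl | rfl <;> norm_num
  have hσa : |σ| = 1 := by rcases hσ with rfl | rfl <;> norm_num
  rw [hh, Prod.dist_eq, Prod.dist_eq]
  have hc : 0 < 9 / (1 + σ * p.1) := by positivity
  refine max_le ?_ (max_le ?_ ?_)
  · show dist (σ * 9) (9 / (1 + σ * p.1) * p.1) ≤ _
    have h4 : σ * 9 - 9 / (1 + σ * p.1) * p.1 = σ * (9 / (1 + σ * p.1)) := by
      field_simp
      linear_combination p.1 * hσ2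
    rw [Real.dist_eq, h4, abs_mul, hσa, one_mul, abs_of_pos hc]
    exact div_le_div_of_nonneg_right (by norm_num) hpos.le
  · show dist (0 : ℝ) (9 / (1 + σ * p.1) * p.2.1) ≤ _
    rw [Real.dist_eq, zero_sub, abs_neg, abs_mul, abs_of_pos hc]
    calc 9 / (1 + σ * p.1) * |p.2.1| ≤ 9 / (1 + σ * p.1) * 3 := mul_le_mul_of_nonneg_left h2 hc.le
      _ = _ := by ring
  · show dist (0 : ℝ) (9 / (1 + σ * p.1) * p.2.2) ≤ _
    rw [Real.dist_eq, zero_sub, abs_neg, abs_mul, abs_of_pos hc]
    calc 9 / (1 + σ * p.1) * |p.2.2| ≤ 9 / (1 + σ * p.1) * 3 := mul_le_mul_of_nonneg_left h3 hc.le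
      _ = _ := by ring

theorem convex_abs {a b c θ : ℝ} (h0 : 0 ≤ θ) (h1 : θ ≤ 1) (ha : |a| ≤ c) (hb : |b| ≤ c) :
    |a + θ * (b - a)| ≤ c := by
  rw [abs_le] at *
  constructor <;> nlinarith

theorem cast_dir (i : ℤ) (θ : ℝ) : cast3 (Tab.path i) + θ • cast3 (dir Tab.path i) =
    (((Tab.path i).1 : ℝ) + θ * (((Tab.path (i + 1)).1 : ℝ) - (Tab.path i).1),
     ((Tab.path i).2.1 : ℝ) + θ * (((Tab.path (i + 1)).2.1 : ℝ) - (Tab.path i).2.1),
     ((Tab.path i).2.2 : ℝ) + θ * (((Tab.path (i + 1)).2.2 : ℝ) - (Tab.path i).2.2)) := by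
  unfold cast3 dir
  simp

/-- The tips: the ends of the spindle path converge. -/
theorem tip_lim (Ψ : ℝ × ℝ × ℝ → R3)
    (hΨ0 : ∀ (i : ℤ) (θ : ℝ), θ ∈ Icc (0 : ℝ) 1 →
        Ψ ((i : ℝ) + θ, 0, 0) = cast3 (Tab.path i) + θ • cast3 (dir Tab.path i))
    (σ : ℝ) (hσ : σ = 1 ∨ σ = -1) (ε : ℝ) (hε : 0 < ε) :
    ∃ T : ℝ, ∀ t ≥ T, dist (hmap (Ψ (σ * t, 0, 0))) (σ * 9, (0 : ℝ), (0 : ℝ)) < ε := by
  obtain ⟨B, hB⟩ : ∃ B : ℤ, 8 + 27 / ε ≤ (B : ℝ) := ⟨⌈8 + 27 / ε⌉, Int.le_ceil _⟩
  obtain ⟨N, hN⟩ := pathData.growth B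
  refine ⟨(max N 25 : ℤ) + 1, fun t ht => ?_⟩
  set i := ⌊σ * t⌋ with hi
  set θ := Int.fract (σ * t) with hθ
  have h0 : 0 ≤ θ := Int.fract_nonneg _
  have h1 : θ ≤ 1 := (Int.fract_lt_one _).le
  have h2 : (i : ℝ) + θ = σ * t := Int.floor_add_fract _
  have key : ∀ j : ℤ, (j = i ∨ j = i + 1) → ((j ≤ -13 ∨ 25 ≤ j) ∧
      (B : ℝ) ≤ σ * ((Tab.path j).1 : ℝ)) := by
    intro j hj
    rcases hσ with rfl | rfl
    · have h3 : (max N 25 : ℤ) ≤ j := by
        have h4 : ((max N 25 : ℤ) : ℝ) < i + 1 := by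
          have : (i : ℝ) + θ < i + 1 := by
            have := Int.fract_lt_one (1 * t)
            rw [← hθ] at this
            linarith
          rw [h2] at this
          linarith
        have h5 : (max N 25 : ℤ) < i + 1 := by exact_mod_cast h4
        omega
      have h25 : (25 : ℤ) ≤ max N 25 := le_max_right _ _
      refine ⟨Or.inr (h25.trans h3), ?_⟩
      rw [one_mul]
      exact_mod_cast (hN j ((le_max_left _ _).trans h3)).1
    · have h3 : j ≤ -(max N 25 : ℤ) := by
        have h4 : (i : ℝ) ≤ -((max N 25 : ℤ) + 1) := by linarith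
        have h5 : i ≤ -((max N 25 : ℤ) + 1) := by exact_mod_cast h4
        omega
      have h25 : (25 : ℤ) ≤ max N 25 := le_max_right _ _
      refine ⟨Or.inl (by omega), ?_⟩
      have h6 := (hN (-j) (by have := le_max_left N 25; omega)).2
      rw [neg_neg] at h6
      have h7 : ((Tab.path j).1 : ℝ) ≤ ((-B : ℤ) : ℝ) := by exact_mod_cast h6
      push_cast at h7
      linarith
  obtain ⟨b1, g1⟩ := key i (Or.inl rfl)
  obtain ⟨b2, g2⟩ := key (i + 1) (Or.inr rfl)
  obtain ⟨c1, c2⟩ := pathData.box i b1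
  obtain ⟨d1, d2⟩ := pathData.box (i + 1) b2
  have hp := hΨ0 i θ ⟨h0, h1⟩
  rw [h2, cast_dir] at hp
  have hc1 : |((Tab.path i).2.1 : ℝ)| ≤ 3 := by exact_mod_cast c1
  have hc2 : |((Tab.path i).2.2 : ℝ)| ≤ 3 := by exact_mod_cast c2
  have hd1 : |((Tab.path (i + 1)).2.1 : ℝ)| ≤ 3 := by exact_mod_cast d1
  have hd2 : |((Tab.path (i + 1)).2.2 : ℝ)| ≤ 3 := by exact_mod_cast d2
  have hε2 : 0 < 27 / ε := by positivity
  have hx : (B : ℝ) ≤ σ * (Ψ (σ * t, 0, 0)).1 := by
    rw [hp]
    simp only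
    nlinarith
  have h4 := dist_hmap (Ψ (σ * t, 0, 0)) σ hσ (by linarith) (by
    rw [hp]; exact convex_abs h0 h1 hc1 hd1) (by rw [hp]; exact convex_abs h0 h1 hc2 hd2)
  rw [dist_comm]
  refine lt_of_le_of_lt h4 ?_
  rw [div_lt_iff₀ (by linarith)]
  have h6 : 27 / ε < 1 + σ * (Ψ (σ * t, 0, 0)).1 := by linarith
  rw [div_lt_iff₀ hε] at h6
  linarith

/-- The wild arc is an arc. -/
theorem exists_param : ∃ g : unitInterval → R3, Continuous g ∧ Function.Injective g ∧
    range g = wildArc Tab.path ∧ g 0 = ((9 : ℝ), (0 : ℝ), (0 : ℝ)) := by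
  have hd : dir Tab.path (-2) = (0, 0, -1) := by
    unfold dir
    have e1 : (-2 : ℤ) + 1 = -1 := by norm_num
    rw [e1, pathData.vertR (-1) (by norm_num) (by norm_num),
      pathData.vertR (-2) (by norm_num) (by norm_num)]
    rfl
  obtain ⟨n, b, Ψ, -, -, -, -, -, hΨc, hΨi, -, hΨ0, -⟩ := exists_tube Tab.path pathData.inj
    pathData.step (-2) (1, 0, 0) (0, 1, 0)
    (by decide) (by decide) (by decide) (by rw [hd]; decide) (by rw [hd]; decide)
  obtain ⟨A, hA⟩ : ∃ A : ℝ → R3, A = fun t => hmap (Ψ (t, 0, 0)) := ⟨_, rfl⟩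
  have hAc : Continuous A := by
    rw [hA]
    exact cont_hmap.comp (hΨc.comp (by fun_prop))
  have hAi : Function.Injective A := by
    intro s t hst
    rw [hA] at hst
    have h1 : Ψ (s, 0, 0) = Ψ (t, 0, 0) := by
      have := congrArg lift hst
      rwa [lift_hmap, lift_hmap] at this
    have h0 : ((0 : ℝ), (0 : ℝ)) ∈ Sq := by
      constructor <;> exact ⟨by norm_num, by norm_num⟩
    have h2 := hΨi (x₁ := (s, ((0 : ℝ), (0 : ℝ)))) ⟨mem_univ _, h0⟩
      (x₂ := (t, ((0 : ℝ), (0 : ℝ)))) ⟨mem_univ _, h0⟩ h1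
    exact congrArg Prod.fst h2
  have hA9 : ∀ t, |(A t).1| < 9 := by
    intro t
    rw [hA]
    exact hmap_abs_lt _
  have hAr : ∀ x : R3, (|x.1| < 9 ∧ lift x ∈ pathSet Tab.path) ↔ ∃ t, A t = x := by
    intro x
    constructor
    · rintro ⟨hx, m, θ, h0, h1, hp⟩
      refine ⟨(m : ℝ) + θ, ?_⟩
      rw [hA]
      change hmap (Ψ ((m : ℝ) + θ, 0, 0)) = x
      rw [hΨ0 m θ ⟨h0, h1⟩, ← hp, hmap_lift x hx]
    · rintro ⟨t, rfl⟩
      refine ⟨hA9 t, ?_⟩
      rw [hA]
      change lift (hmap (Ψ (t, 0, 0))) ∈ _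
      rw [lift_hmap]
      refine ⟨⌊t⌋, Int.fract t, Int.fract_nonneg t, (Int.fract_lt_one t).le, ?_⟩
      have := hΨ0 ⌊t⌋ (Int.fract t) ⟨Int.fract_nonneg t, (Int.fract_lt_one t).le⟩
      rw [Int.floor_add_fract] at this
      exact this
  have htip := tip_lim Ψ hΨ0
  let G : ℝ → R3 := fun s => if s ≤ 0 then (9, 0, 0) else if 1 ≤ s then (-9, 0, 0) else
    A (Real.log (1 / s - 1))
  have hG0 : G 0 = (9, 0, 0) := by simp [G]
  have hG1 : G 1 = (-9, 0, 0) := by simp [G]
  have hGm : ∀ s, 0 < s → s < 1 → G s = A (Real.log (1 / s - 1)) := by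
    intro s h0 h1
    simp [G, not_le.2 h0, not_le.2 h1]
  have hpos : ∀ s : ℝ, 0 < s → s < 1 → 0 < 1 / s - 1 := by
    intro s h0 h1
    have : 1 < 1 / s := by
      rw [lt_div_iff₀ h0]; linarith
    linarith
  have hGc : ContinuousOn G (Icc 0 1) := by
    intro s hs
    rcases eq_or_lt_of_le hs.1 with h0 | h0
    · subst h0
      rw [Metric.continuousWithinAt_iff]
      intro ε hε
      obtain ⟨T, hT⟩ := htip 1 (Or.inl rfl) ε hε
      refine ⟨1 / (1 + Real.exp T), by positivity, ?_⟩
      intro s hs hsd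
      rw [hG0]
      rcases eq_or_lt_of_le hs.1 with h0 | h0
      · rw [← h0, hG0, dist_self]; exact hε
      rw [Real.dist_eq, sub_zero, abs_of_pos h0] at hsd
      have hexp := Real.exp_pos T
      have hs1 : s < 1 := by
        refine hsd.trans ?_
        rw [div_lt_one (by positivity)]
        linarith
      rw [hGm s h0 hs1]
      have h2 : T ≤ Real.log (1 / s - 1) := by
        rw [Real.le_log_iff_exp_le (hpos s h0 hs1)]
        have : 1 + Real.exp T ≤ 1 / s := by
          rw [le_div_iff₀ h0]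
          rw [lt_div_iff₀ (by positivity)] at hsd
          linarith
        linarith
      have := hT _ h2
      rw [one_mul, one_mul] at this
      rw [hA]
      exact this
    rcases eq_or_lt_of_le hs.2 with h1 | h1
    · subst h1
      rw [Metric.continuousWithinAt_iff]
      intro ε hε
      obtain ⟨T, hT⟩ := htip (-1) (Or.inr rfl) ε hε
      have hexp := Real.exp_pos (-T)
      have hlt : 1 / (1 + Real.exp (-T)) < 1 := by
        rw [div_lt_one (by positivity)]
        linarith
      refine ⟨1 - 1 / (1 + Real.exp (-T)), by linarith, ?_⟩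
      intro s hs hsd
      rw [hG1]
      rcases eq_or_lt_of_le hs.2 with h1 | h1
      · rw [h1, hG1, dist_self]; exact hε
      rw [Real.dist_eq, abs_sub_comm, abs_of_pos (by linarith)] at hsd
      have hs0 : 1 / (1 + Real.exp (-T)) < s := by linarith
      have h0' : 0 < s := lt_trans (by positivity) hs0
      rw [hGm s h0' h1]
      have h2 : Real.log (1 / s - 1) ≤ -T := by
        rw [Real.log_le_iff_le_exp (hpos s h0' h1)]
        have : 1 / s ≤ 1 + Real.exp (-T) := by
          rw [div_le_iff₀ h0']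
          rw [div_lt_iff₀ (by positivity)] at hs0
          linarith
        linarith
      have := hT (-(Real.log (1 / s - 1))) (by linarith)
      have e1 : (-1 : ℝ) * -(Real.log (1 / s - 1)) = Real.log (1 / s - 1) := by ring
      have e2 : (-1 : ℝ) * 9 = -9 := by norm_num
      rw [e1, e2] at this
      rw [hA]
      exact this
    · apply ContinuousAt.continuousWithinAt
      have h2 : ContinuousAt (fun s => A (Real.log (1 / s - 1))) s := by
        refine hAc.continuousAt.comp ?_
        refine ContinuousAt.log ?_ (hpos s h0 h1).ne'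
        exact (continuousAt_const.div continuousAt_id h0.ne').sub continuousAt_const
      refine h2.congr ?_
      filter_upwards [Ioo_mem_nhds h0 h1] with r hr
      exact (hGm r hr.1 hr.2).symm
  refine ⟨fun s => G s, ?_, ?_, ?_, hG0⟩
  · exact hGc.comp_continuous continuous_subtype_val fun s => s.2
  · have hmid : ∀ s : ℝ, 0 < s → s < 1 → |(G s).1| < 9 := by
      intro s h0 h1
      rw [hGm s h0 h1]
      exact hA9 _
    have aux : ∀ s t : unitInterval, (s : ℝ) < t → G s ≠ G t := by
      intro s t hst h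
      have hs := s.2
      have ht := t.2
      rcases eq_or_lt_of_le hs.1 with h0 | h0
      · rw [← h0, hG0] at h
        rcases eq_or_lt_of_le ht.2 with h1 | h1
        · rw [h1, hG1] at h
          have := congrArg Prod.fst h
          norm_num at this
        · have h2 := hmid t (by linarith) h1
          rw [← h] at h2
          norm_num at h2
      · have hs1 : (s : ℝ) < 1 := by linarith [ht.2]
        rcases eq_or_lt_of_le ht.2 with h1 | h1
        · have h2 := hmid s h0 hs1
          rw [h, h1, hG1] at h2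
          norm_num at h2
        · rw [hGm s h0 hs1, hGm t (by linarith) h1] at h
          have h2 := hAi h
          have h3 := Real.log_injOn_pos (mem_Ioi.2 (hpos s h0 hs1))
            (mem_Ioi.2 (hpos t (by linarith) h1)) h2
          have h4 : 1 / (s : ℝ) = 1 / t := by linarith
          have h5 : (s : ℝ) = t := by
            have := congrArg (fun x : ℝ => x⁻¹) h4
            simpa using this
          linarith
    intro s t h
    rcases lt_trichotomy (s : ℝ) t with h1 | h1 | h1
    · exact absurd h (aux s t h1)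
    · exact Subtype.ext h1
    · exact absurd h.symm (aux t s h1)
  · ext x
    constructor
    · rintro ⟨s, rfl⟩
      have hs := s.2
      rcases eq_or_lt_of_le hs.1 with h0 | h0
      · right
        change G s ∈ _
        rw [← h0, hG0]
        left; rfl
      rcases eq_or_lt_of_le hs.2 with h1 | h1
      · right
        change G s ∈ _
        rw [h1, hG1]
        right; rfl
      · left
        change |(G s).1| < 9 ∧ lift (G s) ∈ pathSet Tab.path
        rw [hGm s h0 h1]
        exact (hAr _).2 ⟨_, rfl⟩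
    · rintro (hx | hx | hx)
      · obtain ⟨t, ht⟩ := (hAr x).1 hx
        have hexp := Real.exp_pos t
        have h0 : 0 < 1 / (1 + Real.exp t) := by positivity
        have h1 : 1 / (1 + Real.exp t) < 1 := by
          rw [div_lt_one (by positivity)]
          linarith
        refine ⟨⟨1 / (1 + Real.exp t), h0.le, h1.le⟩, ?_⟩
        change G (1 / (1 + Real.exp t)) = x
        rw [hGm _ h0 h1]
        have h2 : 1 / (1 / (1 + Real.exp t)) - 1 = Real.exp t := by
          rw [one_div_one_div]; ring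
        rw [h2, Real.log_exp, ht]
      · refine ⟨0, ?_⟩
        change G 0 = x
        rw [hG0, hx]
      · refine ⟨1, ?_⟩
        change G 1 = x
        rw [hG1]
        exact hx.symm

end Pool.Agent.H110
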