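import Pool.Agent.H110.Quo
import Pool.Agent.H110.Euc

/-! The product of the quotient of the annulus with a homology manifold. -/

set_option autoImplicit false

namespace Pool.Agent.H110

open Set Filter Topology

variable {X : Type} [TopologicalSpace X] {Y : Type} [TopologicalSpace Y]

/-! ### finite dimension -/

theorem finDim_of_embedding (f : X → Y) (hf : IsEmbedding f) (hY : FinDimSepMetrizable Y) :
    FinDimSepMetrizable X := by
  obtain ⟨d, e, he⟩ := hY
  exact ⟨d, e ∘ f, he.comp hf⟩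

theorem finDim_normed (V : Type) [NormedAddCommGroup V] [NormedSpace ℝ V]
    [FiniteDimensional ℝ V] : FinDimSepMetrizable V := by
  let e : V ≃L[ℝ] E (Module.finrank ℝ V) :=
    ContinuousLinearEquiv.ofFinrankEq (by rw [finrank_euclideanSpace_fin])
  exact ⟨_, e, e.toHomeomorph.isEmbedding⟩

theorem finDim_prod (hX : FinDimSepMetrizable X) (hY : FinDimSepMetrizable Y) :
    FinDimSepMetrizable (X × Y) := by
  obtain ⟨a, e, he⟩ := hX
  obtain ⟨b, f, hf⟩ := hY
  exact finDim_of_embedding (Prod.map e f) (he.prodMap hf) (finDim_normed (E a × E b))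

/-! ### absolute neighbourhood retracts -/

theorem isANR_An : IsANR An := by
  classical
  refine IsANR.of_retract (fun x : An => x.1) IsEmbedding.subtypeVal {0}ᶜ
    isOpen_compl_singleton an_ne
    (fun x => if h : x ∈ ({0}ᶜ : Set (E 3)) then radMap ⟨x, h⟩ else
      ⟨EuclideanSpace.single 0 1, by simp⟩) ?_ ?_
  · rw [continuousOn_iff_continuous_domRestrict]
    refine radMap.continuous.congr ?_
    intro x
    rw [Set.domRestrict_apply, dif_pos x.2]
  · intro x
    have : x.1 ∈ ({0}ᶜ : Set (E 3)) := an_ne x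
    simp only [this, dite_true]
    exact Subtype.ext (rad_eq x.2.1 x.2.2)

theorem isANR_Sph (n : ℕ) : IsANR (Sph n) := by
  classical
  refine IsANR.of_retract (fun x : Sph n => x.1) IsEmbedding.subtypeVal {0}ᶜ
    isOpen_compl_singleton (fun x h => ?_)
    (fun x => if h : x ∈ ({0}ᶜ : Set (E (n + 1))) then
      ⟨‖x‖⁻¹ • x, by
        rw [mem_sphere_zero_iff_norm, norm_smul, norm_inv, norm_norm,
          inv_mul_cancel₀ (norm_ne_zero_iff.2 h)]⟩ else
      ⟨EuclideanSpace.single 0 1, by simp⟩) ?_ ?_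
  · have h1 := x.2
    have h2 : x.1 = 0 := h
    rw [h2, mem_sphere_zero_iff_norm, norm_zero] at h1
    exact zero_ne_one h1
  · rw [IsEmbedding.subtypeVal.isInducing.continuousOn_iff]
    have h1 : ContinuousOn (fun x : E (n + 1) => ‖x‖⁻¹ • x) {0}ᶜ := by
      refine ContinuousOn.smul (ContinuousOn.inv₀ continuous_norm.continuousOn fun x hx => ?_)
        continuousOn_id
      exact norm_ne_zero_iff.2 hx
    refine h1.congr ?_
    intro x hx
    simp only [Function.comp_apply]
    rw [dif_pos hx]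
  · intro x
    have h1 : ‖x.1‖ = 1 := mem_sphere_zero_iff_norm.1 x.2
    have h2 : x.1 ∈ ({0}ᶜ : Set (E (n + 1))) := by
      intro h
      have h3 : x.1 = 0 := h
      rw [h3, norm_zero] at h1
      exact zero_ne_one h1
    rw [dif_pos h2]
    apply Subtype.ext
    change ‖x.1‖⁻¹ • x.1 = x.1
    rw [h1, inv_one, one_smul]

variable {γ : unitInterval → E 3}

theorem isANR_YY (hγ : IsArc γ) : IsANR (YY γ) := by
  obtain ⟨V, hV, hpV, hcV⟩ := exists_nhd hγ
  refine IsANR.add_point (pp hγ) ?_ (cc hγ) (cc_zero hγ) (cc_pp hγ) V hV hpV hcV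
  have h1 : IsANR (offArc γ) := isANR_An.opens (isOpen_offArc hγ)
  have h2 := h1.of_homeo (isOpenEmbedding_qoff hγ).isEmbedding.toHomeomorph
  rw [range_qoff hγ] at h2
  exact h2

/-! ### local homology of products with Euclidean spaces -/

theorem same_prod {N : Type} [TopologicalSpace N] [T2Space N] {k : ℕ} (a : ℕ) (x : E a) (n : N)
    (hN : SameLocalHomology N n (E k) 0) : SameLocalHomology (E a × N) (x, n) (E (k + a)) 0 := by
  induction a with
  | zero =>
    let e : (E 0 × N) ≃ₜ N :=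
      { toFun := fun p => p.2
        invFun := fun m => (0, m)
        left_inv := fun p => Prod.ext (Subsingleton.elim _ _) rfl
        right_inv := fun m => rfl
        continuous_toFun := by fun_prop
        continuous_invFun := by fun_prop }
    exact (SameLocalHomology.of_homeo e (x, n)).trans hN
  | succ a ih =>
    let e : (E (a + 1) × N) ≃ₜ (ℝ × (E a × N)) :=
      ((esplit a).prodCongr (Homeomorph.refl N)).trans ((Homeomorph.prodAssoc ℝ (E a) N).trans
        ((Homeomorph.addRight (-(x 0))).prodCongr (Homeomorph.refl (E a × N))))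
    have h1 := SameLocalHomology.of_homeo e (x, n)
    have h2 : e (x, n) = ((0 : ℝ), ((esplit a x).2, n)) := by
      refine Prod.ext ?_ rfl
      change x 0 + -(x 0) = 0
      ring
    rw [h2] at h1
    exact h1.trans ((ih (esplit a x).2).susp.trans (same_esplit (k + a)).symm)

theorem exists_chart (n : ℕ) (u : Sph n) : ∃ e : E n → Sph n, IsOpenEmbedding e ∧ u ∈ range e := by
  have : Fact (Module.finrank ℝ (E (n + 1)) = n + 1) := ⟨by simp⟩
  let φ := stereographic' (E := E (n + 1)) n (-u)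
  have hs : φ.source = {-u}ᶜ := stereographic'_source (-u)
  have ht : φ.target = univ := stereographic'_target (-u)
  refine ⟨φ.symm, ?_, ?_⟩
  · have h1 : Continuous φ.symm := by
      rw [continuousOn_univ.symm, ← ht]
      exact φ.continuousOn_symm
    have h2 : Function.Injective φ.symm := by
      intro x y h
      exact φ.symm.injOn (by rw [φ.symm_source, ht]; trivial) (by rw [φ.symm_source, ht]; trivial) h
    refine IsOpenEmbedding.of_continuous_injective_isOpenMap h1 h2 ?_
    intro U hU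
    exact φ.symm.isOpen_image_of_subset_source hU (by rw [φ.symm_source, ht]; exact subset_univ _)
  · refine ⟨φ u, φ.left_inv ?_⟩
    rw [hs]
    intro h
    have h2 : u = -u := h
    have h3 : (u : E (n + 1)) = -(u : E (n + 1)) := congrArg Subtype.val h2
    have h4 : (u : E (n + 1)) = 0 := by
      ext i
      have h5 := congrArg (fun y : E (n + 1) => y i) h3
      simp only [PiLp.neg_apply] at h5
      rw [PiLp.zero_apply]
      linarith
    have h5 := u.2
    rw [h4, mem_sphere_zero_iff_norm, norm_zero] at h5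
    exact zero_ne_one h5

theorem same_sph_prod {N : Type} [TopologicalSpace N] [T2Space N] {k : ℕ} (a : ℕ) (u : Sph a)
    (n : N) (hN : SameLocalHomology N n (E k) 0) :
    SameLocalHomology (Sph a × N) (u, n) (E (k + a)) 0 := by
  obtain ⟨e, he, x, rfl⟩ := exists_chart a u
  have h1 := SameLocalHomology.of_isOpenEmbedding (X := E a × N) (Y := Sph a × N)
    ⟨Prod.map e id, he.continuous.prodMap continuous_id⟩ (he.prodMap IsOpenEmbedding.id) (x, n)
  exact h1.symm.trans (same_prod a x n hN)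

theorem isHomologyManifold_Sph (n : ℕ) : IsHomologyManifold n (Sph n) where
  locallyCompact := inferInstance
  finDim := finDim_of_embedding _ IsEmbedding.subtypeVal (finDim_normed (E (n + 1)))
  anr := isANR_Sph n
  localHomology := fun u => by
    obtain ⟨e, he, x, rfl⟩ := exists_chart n u
    have h1 := SameLocalHomology.of_isOpenEmbedding (X := E n) (Y := Sph n)
      ⟨e, he.continuous⟩ he x
    exact h1.symm.trans (same_E n x)

theorem isHomologyManifold_Sph_prod {N : Type} [TopologicalSpace N] {k : ℕ} (a : ℕ)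
    (hN : IsHomologyManifold k N) : IsHomologyManifold (k + a) (Sph a × N) where
  locallyCompact := by
    have := hN.locallyCompact
    infer_instance
  finDim := finDim_prod (isHomologyManifold_Sph a).finDim hN.finDim
  anr := (isANR_Sph a).prod hN.anr
  localHomology := by
    rintro ⟨u, n⟩
    have := hN.anr.1
    exact same_sph_prod a u n (hN.localHomology n)

/-! ### local homology of the quotient times `N` -/

section Local

variable {N : Type} [TopologicalSpace N]

/-- removing the exceptional point does not change the homology -/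
theorem PA_pp (hγ : IsArc γ) : PA (univ : Set (YY γ × N)) ({pp hγ}ᶜ ×ˢ univ) := by
  let f : C(An × N, YY γ × N) := ⟨fun p => (qq γ p.1, p.2), by fun_prop⟩
  let g : C(YY γ × N, An × N) := ⟨fun p => (gg hγ p.1, p.2), by fun_prop⟩
  let H : C((An × N) × unitInterval, An × N) :=
    ⟨fun p => (HH hγ (p.1.1, p.2), p.1.2), by fun_prop⟩
  let K : C((YY γ × N) × unitInterval, YY γ × N) :=
    ⟨fun p => (cc hγ (p.1.1, p.2), p.1.2), by fun_prop⟩
  let j : C(offArc γ × N, YY γ × N) := ⟨fun p => (qoff γ p.1, p.2), by fun_prop⟩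
  have hj : IsEmbedding j := (isOpenEmbedding_qoff hγ).isEmbedding.prodMap IsEmbedding.id
  let i : C(offArc γ × N, An × N) := ⟨fun p => (p.1.1, p.2), by fun_prop⟩
  have hi : IsEmbedding i := IsEmbedding.subtypeVal.prodMap IsEmbedding.id
  have hjr : range j = {pp hγ}ᶜ ×ˢ univ := by
    ext ⟨y, n⟩
    constructor
    · rintro ⟨⟨x, m⟩, h⟩
      have h1 : qoff γ x = y := congrArg Prod.fst h
      refine ⟨?_, mem_univ _⟩
      rw [← range_qoff hγ, ← h1]
      exact mem_range_self x
    · rintro ⟨hy, _⟩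
      rw [← range_qoff hγ] at hy
      obtain ⟨x, rfl⟩ := hy
      exact ⟨(x, n), rfl⟩
  have hir : range i = offArc γ ×ˢ univ := by
    ext ⟨y, n⟩
    constructor
    · rintro ⟨⟨x, m⟩, h⟩
      have h1 : x.1 = y := congrArg Prod.fst h
      refine ⟨?_, mem_univ _⟩
      rw [← h1]
      exact x.2
    · rintro ⟨hy, _⟩
      exact ⟨(⟨y, hy⟩, n), rfl⟩
  have hfi : f.comp i = j := rfl
  refine PA.of_he f g H (fun p => Prod.ext (HH_zero hγ p.1) rfl)
    (fun p => Prod.ext (gg_qq hγ p.1).symm rfl) K (fun p => Prod.ext (cc_zero hγ p.1) rfl)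
    (fun p => Prod.ext (cc_one hγ p.1) rfl) (A := offArc γ ×ˢ univ) ?_ ?_ ?_ (PA_offArc hγ)
  · rintro ⟨x, n⟩ ⟨hx, _⟩
    exact ⟨fun h => hx ((qq_eq_pp hγ).1 h), mem_univ _⟩
  · intro n z hz
    rw [← hjr] at hz
    obtain ⟨w, hw⟩ := exists_lift j hj hz
    refine ⟨push i n w, ?_, ?_⟩
    · rw [← hir]
      exact push_mem i (fun x _ => mem_range_self x) (chainsIn_univ n w)
    · have h1 : push f n (push i n w) = push (f.comp i) n w := Helper534.HB.push_push i f n w
      rw [h1, hfi, hw]
  · intro n w hw hw0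
    rw [← hir] at hw
    obtain ⟨v, rfl⟩ := exists_lift i hi hw
    have h1 : push f n (push i n v) = push (f.comp i) n v := Helper534.HB.push_push i f n v
    rw [h1, hfi] at hw0
    have h2 : v = 0 := push_injective j hj.injective n (by rw [hw0, map_zero])
    rw [h2, map_zero]

/-- the local homology vanishes at the exceptional points -/
theorem PA_exc [T1Space N] (hγ : IsArc γ) (n : N) :
    PA (univ : Set (YY γ × N)) {(pp hγ, n)}ᶜ := by
  have hU : IsOpen ({pp hγ}ᶜ ×ˢ univ : Set (YY γ × N)) :=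
    isOpen_compl_singleton.prod isOpen_univ
  have hV : IsOpen (univ ×ˢ {n}ᶜ : Set (YY γ × N)) :=
    isOpen_univ.prod isOpen_compl_singleton
  have hun : ({pp hγ}ᶜ ×ˢ univ : Set (YY γ × N)) ∪ univ ×ˢ {n}ᶜ = {(pp hγ, n)}ᶜ := by
    ext ⟨y, m⟩
    simp only [mem_union, mem_prod, mem_compl_iff, mem_singleton_iff, mem_univ, and_true,
      true_and, Prod.mk.injEq]
    tauto
  have h1 : PA (univ ×ˢ {n}ᶜ : Set (YY γ × N)) (({pp hγ}ᶜ ×ˢ univ) ∩ univ ×ˢ {n}ᶜ) := by
    have h2 := PA_pp (N := ({n}ᶜ : Set N)) hγ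
    let j : C(YY γ × ({n}ᶜ : Set N), YY γ × N) := ⟨fun p => (p.1, p.2.1), by fun_prop⟩
    have hj : IsEmbedding j := IsEmbedding.id.prodMap IsEmbedding.subtypeVal
    have h3 := h2.image j hj
    have e1 : j '' univ = univ ×ˢ {n}ᶜ := by
      rw [image_univ]
      ext ⟨y, m⟩
      constructor
      · rintro ⟨⟨y', m'⟩, h⟩
        have : m'.1 = m := congrArg Prod.snd h
        exact ⟨mem_univ _, by rw [← this]; exact m'.2⟩
      · rintro ⟨_, hm⟩
        exact ⟨(y, ⟨m, hm⟩), rfl⟩
    have e2 : j '' ({pp hγ}ᶜ ×ˢ univ) = ({pp hγ}ᶜ ×ˢ univ) ∩ univ ×ˢ {n}ᶜ := by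
      ext ⟨y, m⟩
      constructor
      · rintro ⟨⟨y', m'⟩, ⟨hy, _⟩, h⟩
        have h5 : m'.1 = m := congrArg Prod.snd h
        have h6 : y' = y := congrArg Prod.fst h
        exact ⟨⟨by rw [← h6]; exact hy, mem_univ _⟩, mem_univ _, by rw [← h5]; exact m'.2⟩
      · rintro ⟨⟨hy, _⟩, _, hm⟩
        exact ⟨(y, ⟨m, hm⟩), ⟨hy, mem_univ _⟩, rfl⟩
    rw [e1, e2] at h3
    exact h3
  have h2 := PA.excision hU hV h1
  rw [hun] at h2
  have h3 : ({pp hγ}ᶜ ×ˢ univ : Set (YY γ × N)) ⊆ {(pp hγ, n)}ᶜ := by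
    rw [← hun]; exact subset_union_left
  exact PA.of_trans_left (subset_univ _) h3 (PA_pp hγ) h2

/-- the local homology of the annulus times `N` vanishes at the boundary -/
theorem PA_radial (φ : C(ℝ × ℝ, ℝ)) (h12 : ∀ r t, 1 ≤ r → r ≤ 2 → 0 ≤ t → t ≤ 1 →
    1 ≤ φ (r, t) ∧ φ (r, t) ≤ 2) (h0 : ∀ r, φ (r, 0) = r) (x : An) (n : N)
    (hx : ∀ r t, 1 ≤ r → r ≤ 2 → 0 ≤ t → t ≤ 1 → φ (r, t) = ‖x.1‖ → t = 0) :
    PA (univ : Set (An × N)) {(x, n)}ᶜ := by
  have hpos : ∀ z : An, 0 < ‖z.1‖ := fun z => norm_pos_iff.2 (an_ne z)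
  have hnorm : ∀ (z : An) (t : unitInterval),
      ‖(φ (‖z.1‖, (t : ℝ)) / ‖z.1‖) • z.1‖ = φ (‖z.1‖, (t : ℝ)) := by
    intro z t
    have h1 := (h12 ‖z.1‖ t z.2.1 z.2.2 t.2.1 t.2.2).1
    have h2 := hpos z
    rw [norm_smul, Real.norm_eq_abs, abs_of_nonneg (by positivity)]
    field_simp
  let H : C((An × N) × unitInterval, An × N) :=
    ⟨fun p => (⟨(φ (‖p.1.1.1‖, (p.2 : ℝ)) / ‖p.1.1.1‖) • p.1.1.1, by
      rw [hnorm]
      exact h12 _ _ p.1.1.2.1 p.1.1.2.2 p.2.2.1 p.2.2.2⟩, p.1.2), by
      have h1 : Continuous fun p : (An × N) × unitInterval => φ (‖p.1.1.1‖, (p.2 : ℝ)) := by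
        fun_prop
      have h2 : Continuous fun p : (An × N) × unitInterval => ‖p.1.1.1‖ := by fun_prop
      have h3 : Continuous fun p : (An × N) × unitInterval => p.1.1.1 := by fun_prop
      have h4 : Continuous fun p : (An × N) × unitInterval => p.1.2 := by fun_prop
      exact (((h1.div h2 fun p => (hpos _).ne').smul h3).subtype_mk _).prodMk h4⟩
  have hH0 : ∀ p, H (p, 0) = p := by
    intro p
    refine Prod.ext (Subtype.ext ?_) rfl
    change (φ (‖p.1.1‖, (0 : ℝ)) / ‖p.1.1‖) • p.1.1 = p.1.1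
    rw [h0, div_self (hpos _).ne', one_smul]
  have key : ∀ (p : An × N) (t : unitInterval), H (p, t) = (x, n) → (t : ℝ) = 0 := by
    intro p t h
    have h1 : (φ (‖p.1.1‖, (t : ℝ)) / ‖p.1.1‖) • p.1.1 = x.1 :=
      congrArg (fun q : An × N => q.1.1) h
    have h2 := congrArg norm h1
    rw [hnorm] at h2
    exact hx _ _ p.1.2.1 p.1.2.2 t.2.1 t.2.2 h2
  refine PA.of_homotopy H hH0 (fun p hp t h => ?_) (fun p h => ?_)
  · have ht : t = 0 := Subtype.ext (key p t h)
    rw [ht, hH0] at h
    exact hp h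
  · exact one_ne_zero (key p 1 h)

theorem PA_inner (x : An) (hx : ‖x.1‖ = 1) (n : N) : PA (univ : Set (An × N)) {(x, n)}ᶜ := by
  refine PA_radial ⟨fun p => p.1 + (2 - p.1) * p.2 / 2, by fun_prop⟩ ?_ ?_ x n ?_
  · intro r t h1 h2 h3 h4
    simp only [ContinuousMap.coe_mk]
    constructor <;> nlinarith
  · intro r
    simp only [ContinuousMap.coe_mk]
    ring
  · intro r t h1 h2 h3 h4 h
    rw [hx] at h
    simp only [ContinuousMap.coe_mk] at h
    have h5 : 0 ≤ (2 - r) * t := mul_nonneg (by linarith) h3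
    have h6 : r = 1 := by nlinarith
    rw [h6] at h
    linarith

theorem PA_outer (x : An) (hx : ‖x.1‖ = 2) (n : N) : PA (univ : Set (An × N)) {(x, n)}ᶜ := by
  refine PA_radial ⟨fun p => p.1 - (p.1 - 1) * p.2 / 2, by fun_prop⟩ ?_ ?_ x n ?_
  · intro r t h1 h2 h3 h4
    simp only [ContinuousMap.coe_mk]
    constructor <;> nlinarith
  · intro r
    simp only [ContinuousMap.coe_mk]
    ring
  · intro r t h1 h2 h3 h4 h
    rw [hx] at h
    simp only [ContinuousMap.coe_mk] at h
    have h5 : 0 ≤ (r - 1) * t := mul_nonneg (by linarith) h3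
    have h6 : r = 2 := by nlinarith
    rw [h6] at h
    linarith

/-- the local homology of `YY × N` outside the exceptional points is that of `An × N` -/
theorem same_off [T1Space N] (hγ : IsArc γ) (x : An) (hx : x.1 ∉ range γ) (n : N) :
    SameLocalHomology (YY γ × N) (qq γ x, n) (An × N) (x, n) := by
  have h1 := SameLocalHomology.of_isOpenEmbedding (X := offArc γ × N) (Y := YY γ × N)
    ⟨Prod.map (qoff γ) id, (qoff γ).continuous.prodMap continuous_id⟩
    ((isOpenEmbedding_qoff hγ).prodMap IsOpenEmbedding.id) (⟨x, hx⟩, n)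
  have h2 := SameLocalHomology.of_isOpenEmbedding (X := offArc γ × N) (Y := An × N)
    ⟨Prod.map Subtype.val id, continuous_subtype_val.prodMap continuous_id⟩
    ((isOpen_offArc hγ).isOpenEmbedding_subtypeVal.prodMap IsOpenEmbedding.id) (⟨x, hx⟩, n)
  exact h1.symm.trans h2

/-- the local homology of `An × N` at interior points -/
theorem same_int [T2Space N] {k : ℕ} (x : An) (h1 : 1 < ‖x.1‖) (h2 : ‖x.1‖ < 2) (n : N)
    (hN : SameLocalHomology N n (E k) 0) : SameLocalHomology (An × N) (x, n) (E (k + 3)) 0 := by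
  let O : Set (E 3) := {y | 1 < ‖y‖ ∧ ‖y‖ < 2}
  have hO : IsOpen O := (isOpen_lt continuous_const continuous_norm).inter
    (isOpen_lt continuous_norm continuous_const)
  let f : O → An := fun y => ⟨y.1, y.2.1.le, y.2.2.le⟩
  have hfc : Continuous f := continuous_subtype_val.subtype_mk _
  have hf : IsOpenEmbedding f := by
    refine ⟨IsEmbedding.of_comp hfc continuous_subtype_val IsEmbedding.subtypeVal, ?_⟩
    have : range f = {y : An | 1 < ‖y.1‖ ∧ ‖y.1‖ < 2} := by
      ext y
      constructor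
      · rintro ⟨z, rfl⟩
        exact z.2
      · intro hy
        exact ⟨⟨y.1, hy⟩, rfl⟩
    rw [this]
    exact hO.preimage continuous_subtype_val
  have e1 := SameLocalHomology.of_isOpenEmbedding (X := O × N) (Y := An × N)
    ⟨Prod.map f id, hfc.prodMap continuous_id⟩ (hf.prodMap IsOpenEmbedding.id)
    (⟨x.1, h1, h2⟩, n)
  have e2 := SameLocalHomology.of_isOpenEmbedding (X := O × N) (Y := E 3 × N)
    ⟨Prod.map Subtype.val id, continuous_subtype_val.prodMap continuous_id⟩
    (hO.isOpenEmbedding_subtypeVal.prodMap IsOpenEmbedding.id) (⟨x.1, h1, h2⟩, n)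
  exact e1.symm.trans (e2.trans (same_prod 3 x.1 n hN))

end Local

end Pool.Agent.H110
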